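import Pool.Agent.TH179.BE.Stm
import Pool.Agent.Helper534.LS.P_hmap_comp
import Pool.Agent.Helper534.LS.P_hmap_id
import Pool.Agent.Helper534.LS.P_hmap_homotopic

/-!
Homology equivalences; descent of continuous maps along open maps.
-/

set_option autoImplicit false

open Pool.Agent.Helper534.LS (hmap hmap_comp hmap_id hmap_homotopic)
open Topology

namespace Pool.Agent.TH179.BE

section he

variable {X Y Z : Type} [TopologicalSpace X] [TopologicalSpace Y] [TopologicalSpace Z]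

lemma hmap_comp' (f : C(X, Y)) (g : C(Y, Z)) (n : ℕ) :
    (hmap (g.comp f) n : _ → _) = hmap g n ∘ hmap f n := by
  funext x
  exact hmap_comp f g n x

lemma IsHE.comp {f : C(X, Y)} {g : C(Y, Z)} (hg : IsHE g) (hf : IsHE f) : IsHE (g.comp f) := by
  intro n
  rw [hmap_comp']
  exact (hg n).comp (hf n)

lemma IsHE.of_comp_left {f : C(X, Y)} {g : C(Y, Z)} (hg : IsHE g) (h : IsHE (g.comp f)) :
    IsHE f := by
  intro n
  have h1 := h n
  rw [hmap_comp'] at h1
  exact (Function.Bijective.of_comp_iff' (hg n) _).1 h1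

lemma IsHE.of_comp_right {f : C(X, Y)} {g : C(Y, Z)} (hf : IsHE f) (h : IsHE (g.comp f)) :
    IsHE g := by
  intro n
  have h1 := h n
  rw [hmap_comp'] at h1
  exact (Function.Bijective.of_comp_iff _ (hf n)).1 h1

lemma isHE_of_inv (f : C(X, Y)) (g : C(Y, X)) (h1 : (f.comp g).Homotopic (ContinuousMap.id Y))
    (h2 : (g.comp f).Homotopic (ContinuousMap.id X)) : IsHE f := by
  intro n
  have e1 : ∀ y, hmap f n (hmap g n y) = y := by
    intro y
    rw [← hmap_comp, hmap_homotopic _ _ h1, hmap_id]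
  have e2 : ∀ x, hmap g n (hmap f n x) = x := by
    intro x
    rw [← hmap_comp, hmap_homotopic _ _ h2, hmap_id]
  exact ⟨Function.LeftInverse.injective e2, Function.RightInverse.surjective e1⟩

/-- homotopy from a continuous map on `X × I` -/
lemma homotopic_of (f g : C(X, Y)) (H : C(X × unitInterval, Y)) (h0 : ∀ x, H (x, 0) = f x)
    (h1 : ∀ x, H (x, 1) = g x) : f.Homotopic g :=
  ⟨⟨H.comp ⟨Prod.swap, continuous_swap⟩, h0, h1⟩⟩

end he

section desc

variable {P X Y I : Type} [TopologicalSpace P] [TopologicalSpace X] [TopologicalSpace Y]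
  [TopologicalSpace I]

/-- descent along an open map -/
lemma exists_desc (g : P → X) (hg : IsOpenMap g) (S : Set X) (hS : ∀ s ∈ S, ∃ p, g p = s)
    (F : ↥(g ⁻¹' S) × I → Y) (hF : Continuous F)
    (hinv : ∀ p p' : ↥(g ⁻¹' S), g p = g p' → ∀ i, F (p, i) = F (p', i)) :
    ∃ φ : C(↥S × I, Y), ∀ (p : ↥(g ⁻¹' S)) (i : I), φ (⟨g p, p.2⟩, i) = F (p, i) := by
  choose r hr using hS
  have hr' : ∀ s : S, r s s.2 ∈ g ⁻¹' S := fun s => by
    rw [Set.mem_preimage, hr]
    exact s.2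
  let φ : ↥S × I → Y := fun q => F (⟨r q.1 q.1.2, hr' q.1⟩, q.2)
  have hφ : ∀ (p : ↥(g ⁻¹' S)) (i : I), φ (⟨g p, p.2⟩, i) = F (p, i) := by
    intro p i
    apply hinv
    exact hr _ _
  refine ⟨⟨φ, ?_⟩, hφ⟩
  let G : ↥(g ⁻¹' S) × I → ↥S × I := Prod.map (S.restrictPreimage g) id
  have hG : IsOpenMap G := (hg.restrictPreimage S).prodMap IsOpenMap.id
  have hGs : Function.Surjective G := by
    rintro ⟨s, i⟩
    refine ⟨(⟨r s s.2, hr' s⟩, i), ?_⟩
    apply Prod.ext
    · apply Subtype.ext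
      exact hr s s.2
    · rfl
  have hcomp : φ ∘ G = F := by
    funext q
    exact hφ q.1 q.2
  rw [continuous_iff_continuousAt]
  intro s
  obtain ⟨q, rfl⟩ := hGs s
  intro N hN
  have h1 : F ⁻¹' N ∈ 𝓝 q := by
    apply hF.continuousAt
    have : F q = φ (G q) := by rw [← hcomp]; rfl
    rw [this]
    exact hN
  rw [Filter.mem_map]
  refine Filter.mem_of_superset (hG.image_mem_nhds h1) ?_
  rintro _ ⟨q', hq', rfl⟩
  have : F q' = φ (G q') := by rw [← hcomp]; rfl
  change φ (G q') ∈ N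
  rw [← this]
  exact hq'

/-- descent along an open map, no parameter -/
lemma exists_desc' (g : P → X) (hg : IsOpenMap g) (S : Set X) (hS : ∀ s ∈ S, ∃ p, g p = s)
    (F : ↥(g ⁻¹' S) → Y) (hF : Continuous F)
    (hinv : ∀ p p' : ↥(g ⁻¹' S), g p = g p' → F p = F p') :
    ∃ φ : C(↥S, Y), ∀ p : ↥(g ⁻¹' S), φ ⟨g p, p.2⟩ = F p := by
  obtain ⟨φ, hφ⟩ := exists_desc (I := Unit) g hg S hS (fun q => F q.1) (by fun_prop)
    (fun p p' h _ => hinv p p' h)
  exact ⟨⟨fun s => φ (s, ()), by fun_prop⟩, fun p => hφ p ()⟩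

end desc

section circle

/-- `a ↦ exp (2 π i a)` -/
noncomputable def ce (a : ℝ) : Circle := Circle.exp (2 * Real.pi * a)

lemma continuous_ce : Continuous ce := by
  unfold ce
  fun_prop

lemma ce_add (a b : ℝ) : ce (a + b) = ce a * ce b := by
  rw [ce, mul_add, Circle.exp_add]
  rfl

lemma ce_int (n : ℤ) : ce n = 1 := by
  rw [ce, Circle.exp_eq_one]
  exact ⟨n, by ring⟩

lemma ce_eq_iff (a b : ℝ) : ce a = ce b ↔ ∃ n : ℤ, b = a + n := by
  rw [ce, ce, Circle.exp_eq_exp]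
  constructor
  · rintro ⟨m, hm⟩
    refine ⟨-m, ?_⟩
    have hpi := Real.pi_pos
    push_cast
    nlinarith [hm]
  · rintro ⟨n, rfl⟩
    refine ⟨-n, ?_⟩
    push_cast
    ring

lemma ce_open : IsOpenMap ce := by
  have h1 : IsOpenMap Circle.exp := isLocalHomeomorph_circleExp.isOpenMap
  have h2 : IsOpenMap (fun a : ℝ => 2 * Real.pi * a) :=
    (Homeomorph.mulLeft₀ (2 * Real.pi) (by positivity)).isOpenMap
  exact h1.comp h2

lemma ce_surj : Function.Surjective ce := by
  intro z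
  obtain ⟨a, ha⟩ : ∃ a, Circle.exp a = z := ⟨_, Circle.exp_arg z⟩
  refine ⟨a / (2 * Real.pi), ?_⟩
  rw [ce, mul_div_cancel₀ a (by positivity), ha]

lemma coe_ce (a : ℝ) : (ce a : ℂ) = Complex.exp (2 * Real.pi * a * Complex.I) := by
  rw [ce, Circle.coe_exp]
  push_cast
  rfl

lemma ce_pow (a : ℝ) (m : ℕ) : ce a ^ m = ce (m * a) := by
  induction m with
  | zero => simpa using (ce_int 0).symm
  | succ m ih =>
    rw [pow_succ, ih, ← ce_add]
    congr 1
    push_cast
    ring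

/-- the torus point of `u` -/
noncomputable def tc (u : ℂ) : Circle × Circle := (ce u.re, ce u.im)

lemma continuous_tc : Continuous tc :=
  (continuous_ce.comp Complex.continuous_re).prodMk (continuous_ce.comp Complex.continuous_im)

lemma tc_eq_iff (u v : ℂ) : tc u = tc v ↔ ∃ m n : ℤ, v = u + m + n * Complex.I := by
  rw [tc, tc, Prod.mk.injEq, ce_eq_iff, ce_eq_iff]
  constructor
  · rintro ⟨⟨m, hm⟩, n, hn⟩
    refine ⟨m, n, ?_⟩
    apply Complex.ext
    · simp [hm]
    · simp [hn]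
  · rintro ⟨m, n, rfl⟩
    refine ⟨⟨m, by simp⟩, n, by simp⟩

end circle

section zeta

lemma zet_pow_six : zet ^ 6 = 1 := by
  rw [zet, ← Complex.exp_nat_mul, Complex.exp_eq_one_iff]
  exact ⟨1, by push_cast; ring⟩

lemma zet_ne : zet ≠ 0 := Complex.exp_ne_zero _

lemma zet_three : zet ^ 3 = -1 := by
  rw [zet, ← Complex.exp_nat_mul, ← Complex.exp_pi_mul_I]
  congr 1
  push_cast
  ring

lemma norm_zet : ‖zet‖ = 1 := by
  have h : zet = Complex.exp (((2 * Real.pi / 6 : ℝ) : ℂ) * Complex.I) := by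
    rw [zet]
    congr 1
    push_cast
    ring
  rw [h, Complex.norm_exp_ofReal_mul_I]

/-- `ζ` as a point of the circle -/
lemma zet_eq_ce : zet = (ce (1 / 6) : ℂ) := by
  rw [coe_ce, zet]
  congr 1
  push_cast
  ring

lemma zet_zpow_six (m : ℤ) : zet ^ (6 * m) = 1 := by
  rw [zpow_mul]
  have : zet ^ (6 : ℤ) = 1 := by exact_mod_cast zet_pow_six
  rw [this, one_zpow]

end zeta

end Pool.Agent.TH179.BE
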