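import Pool.Agent.TH179.BE.Base

/-!
Homology equivalences between spaces presented as open quotients.
-/

set_option autoImplicit false

open Topology

namespace Pool.Agent.TH179.BE

section desc

variable {P N Y I : Type} [TopologicalSpace P] [TopologicalSpace N] [TopologicalSpace Y]
  [TopologicalSpace I]

/-- descent along an open quotient map -/
lemma oq_desc {g : P → N} (hg : IsOpenQuotientMap g) (F : P × I → Y) (hF : Continuous F)
    (hinv : ∀ p p', g p = g p' → ∀ i, F (p, i) = F (p', i)) :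
    ∃ φ : C(N × I, Y), ∀ (p : P) (i : I), φ (g p, i) = F (p, i) := by
  have hG : IsOpenQuotientMap (Prod.map g (id : I → I)) := hg.prodMap .id
  choose r hr using hg.surjective
  let φ : N × I → Y := fun q => F (r q.1, q.2)
  have hφ : ∀ (p : P) (i : I), φ (g p, i) = F (p, i) := by
    intro p i
    exact hinv _ _ (hr _) i
  refine ⟨⟨φ, ?_⟩, hφ⟩
  rw [← hG.continuous_comp_iff]
  have : φ ∘ Prod.map g (id : I → I) = F := by
    funext q
    exact hφ q.1 q.2
  rw [this]
  exact hF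

/-- descent along an open quotient map -/
lemma oq_desc' {g : P → N} (hg : IsOpenQuotientMap g) (F : P → Y) (hF : Continuous F)
    (hinv : ∀ p p', g p = g p' → F p = F p') :
    ∃ φ : C(N, Y), ∀ p : P, φ (g p) = F p := by
  obtain ⟨φ, hφ⟩ := oq_desc (I := Unit) hg (fun q => F q.1) (by fun_prop)
    (fun p p' h _ => hinv p p' h)
  exact ⟨⟨fun s => φ (s, ()), by fun_prop⟩, fun p => hφ p ()⟩

end desc

section sub

variable {P X W N : Type} [TopologicalSpace P] [TopologicalSpace X] [TopologicalSpace W]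
  [TopologicalSpace N]

lemma isOpenMap_sub (g : P → X) (hg : IsOpenMap g) (κ : W → P) (hκ : IsInducing κ) (ι : N → X)
    (hι : IsInducing ι) (hιi : Function.Injective ι) (gW : W → N)
    (hcomm : ∀ w, ι (gW w) = g (κ w)) (O : Set P) (hO : IsOpen O) (hW : ∀ w, κ w ∈ O)
    (hsat : ∀ p ∈ O, ∀ n, g p = ι n → ∃ w, κ w = p) : IsOpenMap gW := by
  intro O1 hO1
  obtain ⟨O', hO', rfl⟩ := hκ.isOpen_iff.1 hO1
  have h1 : gW '' (κ ⁻¹' O') = ι ⁻¹' (g '' (O' ∩ O)) := by
    ext n
    constructor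
    · rintro ⟨w, hw, rfl⟩
      exact ⟨κ w, ⟨hw, hW w⟩, (hcomm w).symm⟩
    · rintro ⟨p, ⟨hp1, hp2⟩, hp⟩
      obtain ⟨w, rfl⟩ := hsat p hp2 n hp
      refine ⟨w, hp1, hιi ?_⟩
      rw [hcomm, hp]
  rw [h1]
  exact (hg _ (hO'.inter hO)).preimage hι.continuous

lemma isOpenQuotientMap_sub (g : P → X) (hg : IsOpenMap g) (hgc : Continuous g) (κ : W → P)
    (hκ : IsInducing κ) (ι : N → X)
    (hι : IsInducing ι) (hιi : Function.Injective ι) (gW : W → N)
    (hcomm : ∀ w, ι (gW w) = g (κ w)) (O : Set P) (hO : IsOpen O) (hW : ∀ w, κ w ∈ O)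
    (hsat : ∀ p ∈ O, ∀ n, g p = ι n → ∃ w, κ w = p)
    (hsurj : ∀ n, ∃ p ∈ O, g p = ι n) : IsOpenQuotientMap gW := by
  refine ⟨?_, ?_, isOpenMap_sub g hg κ hκ ι hι hιi gW hcomm O hO hW hsat⟩
  · intro n
    obtain ⟨p, hp, h⟩ := hsurj n
    obtain ⟨w, rfl⟩ := hsat p hp n h
    exact ⟨w, hιi (by rw [hcomm, h])⟩
  · rw [hι.continuous_iff]
    have : ι ∘ gW = g ∘ κ := funext hcomm
    rw [this]
    exact hgc.comp hκ.continuous

end sub

section gen

variable {P N C E : Type} [TopologicalSpace P] [TopologicalSpace N] [TopologicalSpace C]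
  [TopologicalSpace E]

/-- A homology equivalence, from a section and a homotopy upstairs. -/
lemma isHE_gen {g : P → N} (hg : IsOpenQuotientMap g) {q : E → C} (hq : IsOpenQuotientMap q)
    (α : C(N, C)) (b0 : C(E, P)) (hb : ∀ e e', q e = q e' → g (b0 e) = g (b0 e'))
    (hα : ∀ e, α (g (b0 e)) = q e) (h : C(P × unitInterval, P))
    (hinv : ∀ p p', g p = g p' → ∀ i, g (h (p, i)) = g (h (p', i)))
    (h1 : ∀ p, g (h (p, 1)) = g p)
    (h0 : ∀ p, ∃ e, α (g p) = q e ∧ g (h (p, 0)) = g (b0 e)) : IsHE α := by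
  obtain ⟨s, hs⟩ := oq_desc' hq (fun e => g (b0 e)) (hg.continuous.comp b0.continuous) hb
  obtain ⟨H, hH⟩ := oq_desc hg (fun z => g (h z)) (hg.continuous.comp h.continuous) hinv
  have e1 : α.comp s = ContinuousMap.id C := by
    ext c : 1
    obtain ⟨e, rfl⟩ := hq.surjective c
    change α (s (q e)) = q e
    rw [hs, hα]
  refine isHE_of_inv α s ?_ ?_
  · rw [e1]
  · refine homotopic_of _ _ H ?_ ?_
    · intro n
      obtain ⟨p, rfl⟩ := hg.surjective n
      obtain ⟨e, he1, he2⟩ := h0 p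
      change H (g p, 0) = s (α (g p))
      rw [hH, he2, he1, hs]
    · intro n
      obtain ⟨p, rfl⟩ := hg.surjective n
      change H (g p, 1) = g p
      rw [hH, h1]

omit [TopologicalSpace C] in
/-- Path connectedness, from a homotopy upstairs. -/
lemma pconn_gen {g : P → N} (hg : IsOpenQuotientMap g) [PathConnectedSpace E] (b0 : C(E, P))
    (h : C(P × unitInterval, P)) (h1 : ∀ p, g (h (p, 1)) = g p)
    (h0 : ∀ p, ∃ e, g (h (p, 0)) = g (b0 e)) : PathConnectedSpace N := by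
  have key : ∀ n : N, ∃ e : E, Joined (g (b0 e)) n := by
    intro n
    obtain ⟨p, rfl⟩ := hg.surjective n
    obtain ⟨e, he⟩ := h0 p
    refine ⟨e, ⟨⟨⟨fun i => g (h (p, i)), ?_⟩, ?_, ?_⟩⟩⟩
    · have := hg.continuous
      fun_prop
    · exact he
    · exact h1 p
  have hE : ∀ e e' : E, Joined (g (b0 e)) (g (b0 e')) := by
    intro e e'
    exact ⟨(PathConnectedSpace.somePath e e').map (hg.continuous.comp b0.continuous)⟩
  obtain ⟨e0⟩ := (PathConnectedSpace.nonempty : Nonempty E)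
  refine ⟨⟨g (b0 e0)⟩, fun x y => ?_⟩
  obtain ⟨e, he⟩ := key x
  obtain ⟨e', he'⟩ := key y
  exact he.symm.trans ((hE e e').trans he')

/-- A homotopy upstairs. -/
lemma homotopic_gen {P' N' : Type} [TopologicalSpace P'] [TopologicalSpace N']
    {g : P → N} (hg : IsOpenQuotientMap g) {g' : P' → N'} (hg' : IsOpenQuotientMap g')
    (a b : C(N, N')) (h : C(P × unitInterval, P'))
    (hinv : ∀ p p', g p = g p' → ∀ i, g' (h (p, i)) = g' (h (p', i)))
    (h0 : ∀ p, g' (h (p, 0)) = a (g p)) (h1 : ∀ p, g' (h (p, 1)) = b (g p)) :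
    a.Homotopic b := by
  obtain ⟨H, hH⟩ := oq_desc hg (fun z => g' (h z)) (hg'.continuous.comp h.continuous) hinv
  refine homotopic_of _ _ H ?_ ?_
  · intro n
    obtain ⟨p, rfl⟩ := hg.surjective n
    rw [hH, h0]
  · intro n
    obtain ⟨p, rfl⟩ := hg.surjective n
    rw [hH, h1]

end gen

section tck

/-- `u ↦ (exp (2 π i Re u / k), exp (2 π i Im u))` -/
noncomputable def tck (k : ℕ) (u : ℂ) : Circle × Circle := (ce (u.re / k), ce u.im)

lemma re_oq : IsOpenQuotientMap (fun u : ℂ => (u.re, u.im)) := by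
  have : (fun u : ℂ => (u.re, u.im)) = Complex.equivRealProdCLM := rfl
  rw [this]
  exact Complex.equivRealProdCLM.toHomeomorph.isOpenQuotientMap

lemma tck_oq (k : ℕ) (hk : k ≠ 0) : IsOpenQuotientMap (tck k) := by
  have hk' : (k : ℝ) ≠ 0 := Nat.cast_ne_zero.2 hk
  have h1 : IsOpenQuotientMap (fun a : ℝ => ce (a / k)) := by
    have e1 : IsOpenQuotientMap ce := ⟨ce_surj, continuous_ce, ce_open⟩
    have e2 : IsOpenQuotientMap (fun a : ℝ => a / k) :=
      (Homeomorph.mulRight₀ ((k : ℝ)⁻¹) (inv_ne_zero hk')).isOpenQuotientMap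
    exact e1.comp e2
  have h2 : IsOpenQuotientMap ce := ⟨ce_surj, continuous_ce, ce_open⟩
  exact (h1.prodMap h2).comp re_oq

lemma tc_eq_tck (u : ℂ) : tc u = tck 1 u := by
  rw [tc, tck]
  simp

lemma tck_eq_iff (k : ℕ) (hk : k ≠ 0) (u v : ℂ) :
    tck k u = tck k v ↔ ∃ m n : ℤ, v = u + (k * m : ℤ) + n * Complex.I := by
  have hk' : (k : ℝ) ≠ 0 := Nat.cast_ne_zero.2 hk
  rw [tck, tck, Prod.mk.injEq, ce_eq_iff, ce_eq_iff]
  constructor
  · rintro ⟨⟨m, hm⟩, n, hn⟩
    refine ⟨m, n, ?_⟩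
    have hm' : v.re = u.re + k * m := by
      field_simp at hm
      linarith
    apply Complex.ext
    · simp [hm']
    · simp [hn]
  · rintro ⟨m, n, rfl⟩
    refine ⟨⟨m, ?_⟩, n, ?_⟩
    · simp
      field_simp
    · simp

end tck

end Pool.Agent.TH179.BE
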