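import Pool.Agent.TH179.BE.Emb4

/-!
The critical point.
-/

set_option autoImplicit false

open scoped LinearAlgebra.Projectivization
open Topology
open Pool.Agent.Helper922.MR (elU elU_props elU_ne)

attribute [-instance] Pool.Agent.Helper922.MR.instTopProj

namespace Pool.Agent.TH179.BE

variable (D : ThetaData)

lemma crit (P : LocalParam 3 (XX D)) (v : Fin 3 → ℂ) (hv : v ∈ P.V)
    (hp : P.pt v hv = (gU D (0, 0, 0)).1) : HasFDerivAt P.a (0 : (Fin 3 → ℂ) →L[ℂ] ℂ) v := by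
  obtain ⟨r, hr, l, hl, hd, -⟩ := elU_props.2.2.2.2 0
  have h0r : (0 : ℂ) ∈ Metric.ball (0 : ℂ) r := Metric.mem_ball_self hr
  obtain ⟨a0, ha0⟩ := exists_ne (smul_ne_zero (hl 0 h0r) (elU_ne 0))
  obtain ⟨m0, hm0⟩ := exists_ne (D.ne 0 0)
  obtain ⟨m1, hm1⟩ := exists_ne (D.ne 1 0)
  obtain ⟨m2, hm2⟩ := exists_ne (D.ne 2 0)
  have cE : ContinuousAt (fun u => (l u • elU u) a0) 0 := by
    have h1 : ContinuousAt (fun u => l u • elU u) 0 :=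
      (hd.differentiableAt (Metric.isOpen_ball.mem_nhds h0r)).continuousAt
    exact (continuous_apply a0).continuousAt.comp h1
  have cR : ∀ k m, Continuous (fun u => D.R k u m) := fun k m =>
    (continuous_apply m).comp (D.diff k).continuous
  let ρ0 : ℂ → ℂ := fun u => D.R 2 u m2 / D.R 0 u m0
  let ρ1 : ℂ → ℂ := fun u => D.R 2 u m2 / D.R 1 u m1
  have c0 : ContinuousAt ρ0 0 := (cR 2 m2).continuousAt.div (cR 0 m0).continuousAt hm0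
  have c1 : ContinuousAt ρ1 0 := (cR 2 m2).continuousAt.div (cR 1 m1).continuousAt hm1
  have good : ∀ᶠ u in 𝓝 (0 : ℂ), (l u • elU u) a0 ≠ 0 ∧ D.R 0 u m0 ≠ 0 ∧ D.R 1 u m1 ≠ 0 ∧
      D.R 2 u m2 ≠ 0 ∧ ‖ρ0 u‖ ≤ ‖ρ0 0‖ + 1 ∧ ‖ρ1 u‖ ≤ ‖ρ1 0‖ + 1 := by
    filter_upwards [cE.eventually_ne ha0, (cR 0 m0).continuousAt.eventually_ne hm0,
      (cR 1 m1).continuousAt.eventually_ne hm1, (cR 2 m2).continuousAt.eventually_ne hm2,
      c0.norm.eventually_le_const (lt_add_one _ : ‖ρ0 0‖ < ‖ρ0 0‖ + 1),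
      c1.norm.eventually_le_const (lt_add_one _ : ‖ρ1 0‖ < ‖ρ1 0‖ + 1)] with u h1 h2 h3 h4 h5 h6
    exact ⟨h1, h2, h3, h4, h5, h6⟩
  obtain ⟨O, hO, hOo, hO0⟩ := mem_nhds_iff.1 good
  have hN : IsOpen (gU D '' {p : ℂ × ℂ × ℂ | p.2.2 ∈ O}) :=
    open_gU D _ (hOo.preimage (by fun_prop))
  -- points near `v`
  have hnear : ∀ᶠ v' in 𝓝 v, ∃ (hv' : v' ∈ P.V) (x y u : ℂ), u ∈ O ∧
      P.pt v' hv' = (gU D (x, y, u)).1 := by
    have hc := P.openEmbedding.continuous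
    have h1 := (hN.preimage hc).mem_nhds (x := (⟨v, hv⟩ : P.V)) (by
      refine ⟨(0, 0, 0), hO0, ?_⟩
      exact Subtype.ext hp.symm)
    rw [mem_nhds_subtype] at h1
    obtain ⟨S, hS, hS'⟩ := h1
    filter_upwards [hS, P.isOpen_V.mem_nhds hv] with v' h2 h3
    obtain ⟨⟨x, y, u⟩, hq, hq2⟩ := hS' (show (⟨v', h3⟩ : P.V) ∈ Subtype.val ⁻¹' S from h2)
    exact ⟨h3, x, y, u, hq, congrArg Subtype.val hq2.symm⟩
  have key : ∀ (v' : Fin 3 → ℂ) (hv' : v' ∈ P.V) (x y u : ℂ), u ∈ O →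
      P.pt v' hv' = (gU D (x, y, u)).1 → P.φ v' (a0, (2, m2)) ≠ 0 ∧ P.a v' = y ^ 2 - x ^ 3 ∧
      x = P.φ v' (a0, (0, m0)) / P.φ v' (a0, (2, m2)) * ρ0 u ∧
      y = P.φ v' (a0, (1, m1)) / P.φ v' (a0, (2, m2)) * ρ1 u := by
    intro v' hv' x y u hu h
    obtain ⟨g1, g2, g3, g4, -, -⟩ := hO hu
    have ha : P.a v' = y ^ 2 - x ^ 3 := congrArg Prod.fst h
    have hne : (![x, y, 1] : Fin 3 → ℂ) ≠ 0 := by
      intro h0
      exact one_ne_zero (congrFun h0 2)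
    have hb : Projectivization.mk ℂ (P.φ v') (P.φ_ne v' hv') =
      Projectivization.mk ℂ (Zc D u ![x, y, 1]) (Zc_ne D u hne) := congrArg Prod.snd h
    obtain ⟨c, hc⟩ := (Projectivization.mk_eq_mk_iff' ℂ _ _ _ _).1 hb
    have hcne : c ≠ 0 := by
      rintro rfl
      rw [zero_smul] at hc
      exact P.φ_ne v' hv' hc.symm
    have hel : elU u a0 ≠ 0 := by
      intro h0
      rw [Pi.smul_apply, h0, smul_zero] at g1
      exact g1 rfl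
    have e0 : P.φ v' (a0, (0, m0)) = c * (elU u a0 * (x * D.R 0 u m0)) := by
      rw [← hc]; rfl
    have e1 : P.φ v' (a0, (1, m1)) = c * (elU u a0 * (y * D.R 1 u m1)) := by
      rw [← hc]; rfl
    have e2 : P.φ v' (a0, (2, m2)) = c * (elU u a0 * (1 * D.R 2 u m2)) := by
      rw [← hc]; rfl
    have n2 : P.φ v' (a0, (2, m2)) ≠ 0 := by
      rw [e2, one_mul]
      exact mul_ne_zero hcne (mul_ne_zero hel g4)
    refine ⟨n2, ha, ?_, ?_⟩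
    · rw [e0, e2]
      change x = _ * (D.R 2 u m2 / D.R 0 u m0)
      field_simp
    · rw [e1, e2]
      change y = _ * (D.R 2 u m2 / D.R 1 u m1)
      field_simp
  obtain ⟨n2, -, kx, ky⟩ := key v hv 0 0 0 hO0 hp
  have hρ0 : ρ0 0 ≠ 0 := div_ne_zero hm2 hm0
  have hρ1 : ρ1 0 ≠ 0 := div_ne_zero hm2 hm1
  let ψ0 : (Fin 3 → ℂ) → ℂ := fun v' => P.φ v' (a0, (0, m0)) / P.φ v' (a0, (2, m2))
  let ψ1 : (Fin 3 → ℂ) → ℂ := fun v' => P.φ v' (a0, (1, m1)) / P.φ v' (a0, (2, m2))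
  have ψ00 : ψ0 v = 0 := (mul_eq_zero.1 kx.symm).resolve_right hρ0
  have ψ10 : ψ1 v = 0 := (mul_eq_zero.1 ky.symm).resolve_right hρ1
  have hφd : DifferentiableAt ℂ P.φ v := P.holo_φ.differentiableAt (P.isOpen_V.mem_nhds hv)
  have hφ' : ∀ i, DifferentiableAt ℂ (fun v' => P.φ v' i) v := differentiableAt_pi.1 hφd
  have hi : DifferentiableAt ℂ (fun v' => (P.φ v' (a0, (2, m2)))⁻¹) v :=
    (differentiableAt_inv n2).comp v (hφ' (a0, (2, m2)))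
  have hd0 : DifferentiableAt ℂ ψ0 v := (hφ' (a0, (0, m0))).mul hi
  have hd1 : DifferentiableAt ℂ ψ1 v := (hφ' (a0, (1, m1))).mul hi
  obtain ⟨K0, hK0, b0⟩ := hd0.isBigO_sub.exists_pos
  obtain ⟨K1, hK1, b1⟩ := hd1.isBigO_sub.exists_pos
  have b0' := b0.bound
  have b1' := b1.bound
  simp only [ψ00, ψ10, sub_zero] at b0' b1'
  let C0 : ℝ := K0 * (‖ρ0 0‖ + 1)
  let C1 : ℝ := K1 * (‖ρ1 0‖ + 1)
  have hC0 : 0 ≤ C0 := by positivity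
  have hC1 : 0 ≤ C1 := by positivity
  refine Asymptotics.IsBigO.hasFDerivAt (n := 2) ?_ (by norm_num)
  refine Asymptotics.IsBigO.of_bound (C1 ^ 2 + C0 ^ 3) ?_
  have hball : Metric.ball v 1 ∈ 𝓝 v := Metric.ball_mem_nhds v one_pos
  filter_upwards [b0', b1', hnear, hball] with v' h0 h1 h2 h3
  obtain ⟨hv', x, y, u, hu, h⟩ := h2
  obtain ⟨-, ha, hx, hy⟩ := key v' hv' x y u hu h
  obtain ⟨-, -, -, -, g5, g6⟩ := hO hu
  have hdist : ‖v' - v‖ ≤ 1 := by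
    rw [← dist_eq_norm]
    exact le_of_lt h3
  have nx : ‖x‖ ≤ C0 * ‖v' - v‖ := by
    rw [hx, norm_mul]
    calc ‖P.φ v' (a0, (0, m0)) / P.φ v' (a0, (2, m2))‖ * ‖ρ0 u‖
        ≤ (K0 * ‖v' - v‖) * (‖ρ0 0‖ + 1) := mul_le_mul h0 g5 (norm_nonneg _) (by positivity)
      _ = C0 * ‖v' - v‖ := by ring
  have ny : ‖y‖ ≤ C1 * ‖v' - v‖ := by
    rw [hy, norm_mul]
    calc ‖P.φ v' (a0, (1, m1)) / P.φ v' (a0, (2, m2))‖ * ‖ρ1 u‖
        ≤ (K1 * ‖v' - v‖) * (‖ρ1 0‖ + 1) := mul_le_mul h1 g6 (norm_nonneg _) (by positivity)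
      _ = C1 * ‖v' - v‖ := by ring
  rw [ha]
  have hn := norm_nonneg (v' - v)
  calc ‖y ^ 2 - x ^ 3‖ ≤ ‖y ^ 2‖ + ‖x ^ 3‖ := norm_sub_le _ _
    _ = ‖y‖ ^ 2 + ‖x‖ ^ 3 := by rw [norm_pow, norm_pow]
    _ ≤ (C1 * ‖v' - v‖) ^ 2 + (C0 * ‖v' - v‖) ^ 3 :=
      add_le_add (pow_le_pow_left₀ (norm_nonneg _) ny 2) (pow_le_pow_left₀ (norm_nonneg _) nx 3)
    _ ≤ (C1 * ‖v' - v‖) ^ 2 + C0 ^ 3 * ‖v' - v‖ ^ 2 := by
      have : (C0 * ‖v' - v‖) ^ 3 = C0 ^ 3 * (‖v' - v‖ ^ 2 * ‖v' - v‖) := by ring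
      rw [this]
      have h4 : ‖v' - v‖ ^ 2 * ‖v' - v‖ ≤ ‖v' - v‖ ^ 2 :=
        mul_le_of_le_one_right (by positivity) hdist
      have := mul_le_mul_of_nonneg_left h4 (pow_nonneg hC0 3)
      linarith
    _ = (C1 ^ 2 + C0 ^ 3) * ‖‖v' - v‖ ^ 2‖ := by
      rw [Real.norm_of_nonneg (by positivity)]
      ring

theorem not_regular : ¬ IsRegularAt 3 (XX D) (gU D (0, 0, 0)).1 := by
  rintro ⟨P, v, hv, hp, h, hh⟩
  apply hh
  rw [(crit D P v hv hp).fderiv]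
  rfl

end Pool.Agent.TH179.BE
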