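import Mathlib

/-! Definitions: singular homology with integer coefficients, integral homology fibre bundles,
the topology of complex projective space, closed complex submanifolds of `ℂ × ℙ(ℂ^ι)`,
regular and critical points of the first projection. -/

open scoped LinearAlgebra.Projectivization

namespace Pool.Agent.TH179.BE

universe u v w

section SingularHomology

/-- Singular `n`-simplices of a space `X`: continuous maps from the standard `n`-simplex. -/
abbrev Sing (X : Type u) [TopologicalSpace X] (n : ℕ) : Type u :=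
  C(stdSimplex ℝ (Fin (n + 1)), X)

/-- The `i`-th face of a singular `(n+1)`-simplex: precomposition with the affine inclusion of the
standard `n`-simplex as the face opposite to the `i`-th vertex. -/
noncomputable def sface {X : Type u} [TopologicalSpace X] (n : ℕ) (i : Fin (n + 2))
    (σ : Sing X (n + 1)) : Sing X n :=
  σ.comp ⟨stdSimplex.map i.succAbove, stdSimplex.continuous_map _⟩

/-- The boundary `∂ : C_{n+1}(X) → C_n(X)` of singular chains with integer coefficients,
`∂ σ = ∑ i, (-1)^i (i-th face of σ)`. -/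
noncomputable def bdry (X : Type u) [TopologicalSpace X] (n : ℕ) :
    (Sing X (n + 1) →₀ ℤ) →ₗ[ℤ] (Sing X n →₀ ℤ) :=
  ∑ i : Fin (n + 2), ((-1 : ℤ) ^ (i : ℕ)) • Finsupp.lmapDomain ℤ ℤ (sface n i)

/-- Singular cycles: all chains in degree `0`, the kernel of `∂` in positive degree. -/
noncomputable def Cyc (X : Type u) [TopologicalSpace X] : ∀ n : ℕ, Submodule ℤ (Sing X n →₀ ℤ)
  | 0 => ⊤
  | (n + 1) => LinearMap.ker (bdry X n)

/-- Singular boundaries: the range of `∂`. -/
noncomputable def Bdy (X : Type u) [TopologicalSpace X] (n : ℕ) : Submodule ℤ (Sing X n →₀ ℤ) :=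
  LinearMap.range (bdry X n)

/-- Integral singular homology `H_n(X; ℤ)`: cycles modulo boundaries. -/
abbrev Homology (X : Type u) [TopologicalSpace X] (n : ℕ) : Type u :=
  Cyc X n ⧸ (Bdy X n).submoduleOf (Cyc X n)

variable {X : Type u} [TopologicalSpace X] {Y : Type v} [TopologicalSpace Y]

/-- The chain map induced by a continuous map. -/
noncomputable def push (f : C(X, Y)) (n : ℕ) : (Sing X n →₀ ℤ) →ₗ[ℤ] (Sing Y n →₀ ℤ) :=
  Finsupp.lmapDomain ℤ ℤ (fun σ => f.comp σ)

theorem bdry_push (f : C(X, Y)) (n : ℕ) (z : Sing X (n + 1) →₀ ℤ) :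
    bdry Y n (push f (n + 1) z) = push f n (bdry X n z) := by
  have : (bdry Y n).comp (push f (n + 1)) = (push f n).comp (bdry X n) := by
    apply Finsupp.lhom_ext'
    intro σ
    apply LinearMap.ext_ring
    simp only [LinearMap.comp_apply, Finsupp.lsingle_apply, bdry, push, LinearMap.sum_apply,
      LinearMap.smul_apply, Finsupp.lmapDomain_apply, Finsupp.mapDomain_single, map_sum, map_smul]
    rfl
  exact LinearMap.congr_fun this z

theorem push_mem_Cyc (f : C(X, Y)) (n : ℕ) (z : Sing X n →₀ ℤ) (hz : z ∈ Cyc X n) :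
    push f n z ∈ Cyc Y n := by
  cases n with
  | zero => exact Submodule.mem_top
  | succ n =>
    change bdry Y n (push f (n + 1) z) = 0
    have h : bdry X n z = 0 := hz
    rw [bdry_push, h, map_zero]

theorem push_mem_Bdy (f : C(X, Y)) (n : ℕ) (z : Sing X n →₀ ℤ) (hz : z ∈ Bdy X n) :
    push f n z ∈ Bdy Y n := by
  obtain ⟨w, rfl⟩ := hz
  exact ⟨push f (n + 1) w, bdry_push f n w⟩

/-- The map `H_n(X; ℤ) → H_n(Y; ℤ)` induced by a continuous map. -/
noncomputable def Homology.map (f : C(X, Y)) (n : ℕ) : Homology X n →ₗ[ℤ] Homology Y n :=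
  Submodule.mapQ _ _ ((push f n).restrict (push_mem_Cyc f n)) (by
    intro z hz
    exact push_mem_Bdy f n z.1 hz)

/-- The inclusion of a subspace in a larger one, as a continuous map. -/
def inclusionMap {A B : Set X} (h : A ⊆ B) : C(A, B) :=
  ⟨Set.inclusion h, continuous_inclusion h⟩

/-- `f : X → Y` is a `ℤ`-homology fibre bundle: `Y` has an open cover such that, for every member
`U` of the cover and every `y ∈ U`, the inclusion `f⁻¹(y) → f⁻¹(U)` induces isomorphisms
`H_n(f⁻¹(y); ℤ) → H_n(f⁻¹(U); ℤ)` for all `n`. -/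
def IsZHomologyFiberBundle (f : X → Y) : Prop :=
  ∃ 𝒰 : Set (Set Y), (∀ U ∈ 𝒰, IsOpen U) ∧ (∀ y : Y, ∃ U ∈ 𝒰, y ∈ U) ∧
    ∀ U ∈ 𝒰, ∀ y : Y, ∀ hy : y ∈ U, ∀ n : ℕ, Function.Bijective
      (Homology.map (inclusionMap
        (Set.preimage_mono (Set.singleton_subset_iff.mpr hy) : f ⁻¹' {y} ⊆ f ⁻¹' U)) n)

end SingularHomology

section Projective

/-- The topology of the projective space of a complex topological vector space: the quotient
topology from the nonzero vectors. -/
noncomputable instance instTopProj (V : Type u) [AddCommGroup V] [Module ℂ V] [TopologicalSpace V] :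
    TopologicalSpace (ℙ ℂ V) :=
  TopologicalSpace.coinduced (Projectivization.mk' ℂ : {v : V // v ≠ 0} → ℙ ℂ V) inferInstance

variable {ι : Type u} [Fintype ι]

/-- A holomorphic local parametrisation of dimension `d` of a subset `X` of `ℂ × ℙ(ℂ^ι)`:
an open subset `V` of `ℂ^d` and holomorphic maps `a : V → ℂ`, `φ : V → ℂ^ι ∖ {0}`, such that
`v ↦ (a(v), [φ(v)])` maps `V` homeomorphically onto an open subset of `X` (with the subspace
topology) and has injective differential at every point of `V`. (A tangent vector `h` is killed by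
the differential iff `da(h) = 0` and `dφ(h)` is proportional to `φ(v)`.) -/
structure LocalParam (d : ℕ) (X : Set (ℂ × ℙ ℂ (ι → ℂ))) where
  /-- the domain -/
  V : Set (Fin d → ℂ)
  /-- the component in `ℂ` -/
  a : (Fin d → ℂ) → ℂ
  /-- homogeneous coordinates of the component in projective space -/
  φ : (Fin d → ℂ) → (ι → ℂ)
  isOpen_V : IsOpen V
  holo_a : DifferentiableOn ℂ a V
  holo_φ : DifferentiableOn ℂ φ V
  φ_ne : ∀ v ∈ V, φ v ≠ 0
  mem : ∀ v, ∀ hv : v ∈ V, (a v, Projectivization.mk ℂ (φ v) (φ_ne v hv)) ∈ X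
  openEmbedding : Topology.IsOpenEmbedding
    (fun v : V => (⟨(a v, Projectivization.mk ℂ (φ v) (φ_ne v v.2)), mem v v.2⟩ : X))
  immersion : ∀ v ∈ V, ∀ h : Fin d → ℂ, fderiv ℂ a v h = 0 →
    (∃ c : ℂ, fderiv ℂ φ v h = c • φ v) → h = 0

/-- The point of `ℂ × ℙ(ℂ^ι)` with parameter `v`. -/
noncomputable def LocalParam.pt {d : ℕ} {X : Set (ℂ × ℙ ℂ (ι → ℂ))} (P : LocalParam d X) (v : Fin d → ℂ)
    (hv : v ∈ P.V) : ℂ × ℙ ℂ (ι → ℂ) :=
  (P.a v, Projectivization.mk ℂ (P.φ v) (P.φ_ne v hv))

/-- `X` is a closed complex submanifold of `ℂ × ℙ(ℂ^ι)` of dimension `d`. -/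
def IsClosedSubmanifold (d : ℕ) (X : Set (ℂ × ℙ ℂ (ι → ℂ))) : Prop :=
  IsClosed X ∧ ∀ p ∈ X, ∃ (P : LocalParam d X) (v : Fin d → ℂ) (hv : v ∈ P.V), P.pt v hv = p

/-- The first projection `X → ℂ`, `X` a closed submanifold of `ℂ × ℙ(ℂ^ι)`, is a submersion (a
smooth morphism) at `p`: in a holomorphic local parametrisation of `X` around `p` its differential
at `p` is not zero. (This does not depend on the parametrisation.) -/
def IsRegularAt (d : ℕ) (X : Set (ℂ × ℙ ℂ (ι → ℂ))) (p : ℂ × ℙ ℂ (ι → ℂ)) : Prop :=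
  ∃ (P : LocalParam d X) (v : Fin d → ℂ) (hv : v ∈ P.V), P.pt v hv = p ∧
    ∃ h : Fin d → ℂ, fderiv ℂ P.a v h ≠ 0

/-- The first projection `X → ℂ` is not a submersion at `p`: in a holomorphic local parametrisation
of `X` around `p` its differential at `p` is zero. (This does not depend on the parametrisation.) -/
def IsCriticalAt (d : ℕ) (X : Set (ℂ × ℙ ℂ (ι → ℂ))) (p : ℂ × ℙ ℂ (ι → ℂ)) : Prop :=
  ∃ (P : LocalParam d X) (v : Fin d → ℂ) (hv : v ∈ P.V), P.pt v hv = p ∧
    ∀ h : Fin d → ℂ, fderiv ℂ P.a v h = 0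

/-- The first projection `X → ℂ`. -/
def proj (X : Set (ℂ × ℙ ℂ (ι → ℂ))) (p : X) : ℂ := p.1.1

end Projective

end Pool.Agent.TH179.BE
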