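import Pool.Agent.Helper922.MR.Ell
import Pool.Agent.Helper922.MR.B2
import Pool.Agent.TH179.BE.Base

/-!
The embedding: algebra.
-/

set_option autoImplicit false

open scoped LinearAlgebra.Projectivization
open Pool.Agent.Helper922.MR (elU elU_props elU_ne)

attribute [-instance] Pool.Agent.Helper922.MR.instTopProj

namespace Pool.Agent.TH179.BE

section alg

variable (D : ThetaData)

/-- the index set of the homogeneous coordinates -/
abbrev Ix : Type := Fin 3 × (Fin 3 × Fin D.n)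

/-- the homogeneous coordinates -/
noncomputable def Zc (u : ℂ) (v : Fin 3 → ℂ) : Ix D → ℂ :=
  fun i => elU u i.1 * (v i.2.1 * D.R i.2.1 u i.2.2)

/-- the action of the automorphism of order six -/
noncomputable def act (m : ℤ) (v : Fin 3 → ℂ) : Fin 3 → ℂ := fun k => zet ^ (ew k * m) * v k

lemma Zc_smul (c u : ℂ) (v : Fin 3 → ℂ) : Zc D u (c • v) = c • Zc D u v := by
  funext i
  simp only [Zc, Pi.smul_apply, smul_eq_mul]
  ring

lemma exists_ne {ι : Type} {v : ι → ℂ} (hv : v ≠ 0) : ∃ k, v k ≠ 0 := by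
  by_contra h
  push Not at h
  exact hv (funext h)

lemma Zc_ne (u : ℂ) {v : Fin 3 → ℂ} (hv : v ≠ 0) : Zc D u v ≠ 0 := by
  obtain ⟨k, hk⟩ := exists_ne hv
  obtain ⟨a, ha⟩ := exists_ne (elU_ne u)
  obtain ⟨m, hm⟩ := exists_ne (D.ne k u)
  intro h
  have := congrFun h (a, (k, m))
  simp only [Zc, Pi.zero_apply] at this
  exact mul_ne_zero ha (mul_ne_zero hk hm) this

lemma R_nat (m : ℕ) (k : Fin 3) (u : ℂ) : D.R k (u + m) = zet ^ (ew k * m) • D.R k u := by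
  induction m with
  | zero => simp
  | succ m ih =>
    have : u + ((m + 1 : ℕ) : ℂ) = (u + m) + 1 := by push_cast; ring
    rw [this, D.add_one, ih, smul_smul, ← zpow_add₀ zet_ne]
    congr 2
    push_cast
    ring

lemma R_int (m : ℤ) (k : Fin 3) (u : ℂ) : D.R k (u + m) = zet ^ (ew k * m) • D.R k u := by
  obtain ⟨n, rfl | rfl⟩ := m.eq_nat_or_neg
  · exact_mod_cast R_nat D n k u
  · have h := R_nat D n k (u + ((-(n : ℤ) : ℤ) : ℂ))
    have e : u + ((-(n : ℤ) : ℤ) : ℂ) + n = u := by push_cast; ring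
    rw [e] at h
    rw [h, smul_smul, ← zpow_add₀ zet_ne]
    have : ew k * -(n : ℤ) + ew k * n = 0 := by ring
    rw [this, zpow_zero, one_smul]

lemma R_I_nat (n : ℕ) (u : ℂ) : ∃ G : ℂ, G ≠ 0 ∧ ∀ k, D.R k (u + n * Complex.I) = G • D.R k u := by
  induction n with
  | zero => exact ⟨1, one_ne_zero, fun k => by simp⟩
  | succ n ih =>
    obtain ⟨G, hG, h⟩ := ih
    refine ⟨D.g (u + n * Complex.I) * G, mul_ne_zero (D.g_ne _) hG, fun k => ?_⟩
    have : u + ((n + 1 : ℕ) : ℂ) * Complex.I = (u + n * Complex.I) + Complex.I := by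
      push_cast; ring
    rw [this, D.add_I, h, smul_smul]

lemma R_I_int (n : ℤ) (u : ℂ) : ∃ G : ℂ, G ≠ 0 ∧ ∀ k, D.R k (u + n * Complex.I) = G • D.R k u := by
  obtain ⟨m, rfl | rfl⟩ := n.eq_nat_or_neg
  · exact_mod_cast R_I_nat D m u
  · obtain ⟨G, hG, h⟩ := R_I_nat D m (u + ((-(m : ℤ) : ℤ) : ℂ) * Complex.I)
    refine ⟨G⁻¹, inv_ne_zero hG, fun k => ?_⟩
    have e : u + ((-(m : ℤ) : ℤ) : ℂ) * Complex.I + m * Complex.I = u := by push_cast; ring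
    have := h k
    rw [e] at this
    rw [this, smul_smul, inv_mul_cancel₀ hG, one_smul]

lemma elU_nat (m : ℕ) (u : ℂ) : elU (u + m) = elU u := by
  induction m with
  | zero => simp
  | succ m ih =>
    have : u + ((m + 1 : ℕ) : ℂ) = (u + m) + 1 := by push_cast; ring
    rw [this, elU_props.2.1, ih]

lemma elU_int (m : ℤ) (u : ℂ) : elU (u + m) = elU u := by
  obtain ⟨n, rfl | rfl⟩ := m.eq_nat_or_neg
  · exact_mod_cast elU_nat n u
  · have h := elU_nat n (u + ((-(n : ℤ) : ℤ) : ℂ))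
    have e : u + ((-(n : ℤ) : ℤ) : ℂ) + n = u := by push_cast; ring
    rw [e] at h
    exact h.symm

lemma elU_I_nat (m : ℕ) (u : ℂ) : elU (u + m * Complex.I) = elU u := by
  induction m with
  | zero => simp
  | succ m ih =>
    have : u + ((m + 1 : ℕ) : ℂ) * Complex.I = (u + m * Complex.I) + Complex.I := by
      push_cast; ring
    rw [this, elU_props.2.2.1, ih]

lemma elU_I_int (m : ℤ) (u : ℂ) : elU (u + m * Complex.I) = elU u := by
  obtain ⟨n, rfl | rfl⟩ := m.eq_nat_or_neg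
  · exact_mod_cast elU_I_nat n u
  · have h := elU_I_nat n (u + ((-(n : ℤ) : ℤ) : ℂ) * Complex.I)
    have e : u + ((-(n : ℤ) : ℤ) : ℂ) * Complex.I + n * Complex.I = u := by push_cast; ring
    rw [e] at h
    exact h.symm

lemma Zc_shift (m n : ℤ) (u : ℂ) :
    ∃ G : ℂ, G ≠ 0 ∧ ∀ v, Zc D (u + m + n * Complex.I) v = G • Zc D u (act m v) := by
  obtain ⟨G, hG, h⟩ := R_I_int D n (u + m)
  refine ⟨G, hG, fun v => ?_⟩
  funext i
  simp only [Zc, Pi.smul_apply, smul_eq_mul, act]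
  rw [elU_I_int, elU_int, h, R_int]
  simp only [Pi.smul_apply, smul_eq_mul]
  ring

lemma Zc_inj (u : ℂ) (v w : Fin 3 → ℂ) (h : Zc D u v = Zc D u w) : v = w := by
  obtain ⟨a, ha⟩ := exists_ne (elU_ne u)
  funext k
  obtain ⟨m, hm⟩ := exists_ne (D.ne k u)
  have := congrFun h (a, (k, m))
  simp only [Zc] at this
  exact mul_right_cancel₀ hm (mul_left_cancel₀ ha this)

lemma Zc_sep (u u' c : ℂ) (v v' : Fin 3 → ℂ) (hv : v ≠ 0) (h : Zc D u v = c • Zc D u' v') :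
    ∃ (m n : ℤ) (l : ℂ), l ≠ 0 ∧ u' = u + m + n * Complex.I ∧ v = l • act m v' := by
  obtain ⟨k, hk⟩ := exists_ne hv
  obtain ⟨a, ha⟩ := exists_ne (elU_ne u)
  obtain ⟨j, hj⟩ := exists_ne (D.ne k u)
  have h1 : elU u = ((c * (v' k * D.R k u' j)) / (v k * D.R k u j)) • elU u' := by
    funext b
    have := congrFun h (b, (k, j))
    simp only [Zc, Pi.smul_apply, smul_eq_mul] at this ⊢
    rw [div_mul_eq_mul_div, eq_div_iff (mul_ne_zero hk hj), this]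
    ring
  obtain ⟨m, n, hmn⟩ := elU_props.2.2.2.1 _ _ _ h1
  have hu' : u' = u + ((-m : ℤ) : ℂ) + ((-n : ℤ) : ℂ) * Complex.I := by
    rw [hmn]; push_cast; ring
  obtain ⟨G, hG, hs⟩ := Zc_shift D (-m) (-n) u
  rw [← hu'] at hs
  have h2 : v = (c * G) • act (-m) v' := by
    apply Zc_inj D u
    rw [h, hs, Zc_smul, smul_smul]
  refine ⟨-m, -n, c * G, ?_, hu', h2⟩
  intro h0
  rw [h0, zero_smul] at h2
  exact hv h2

/-- the parameters -/
def PP : Set (ℂ × (Fin 3 → ℂ) × ℂ) :=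
  {p | p.2.1 ≠ 0 ∧ p.2.1 1 ^ 2 * p.2.1 2 = p.2.1 0 ^ 3 + p.1 * p.2.1 2 ^ 3}

/-- the parametrisation -/
noncomputable def Psi (p : PP) : ℂ × ℙ ℂ (Ix D → ℂ) :=
  (p.1.1, Projectivization.mk ℂ (Zc D p.1.2.2 p.1.2.1) (Zc_ne D _ p.2.1))

/-- the threefold -/
def XX : Set (ℂ × ℙ ℂ (Ix D → ℂ)) := Set.range (Psi D)

/-- the parametrisation -/
noncomputable def PsX (p : PP) : ↥(XX D) := ⟨Psi D p, p, rfl⟩

lemma PsX_surj : Function.Surjective (PsX D) := by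
  rintro ⟨x, p, rfl⟩
  exact ⟨p, rfl⟩

lemma Psi_eq_iff (p p' : PP) : Psi D p = Psi D p' ↔ p.1.1 = p'.1.1 ∧ ∃ (m n : ℤ) (l : ℂ), l ≠ 0 ∧
    p'.1.2.2 = p.1.2.2 + m + n * Complex.I ∧ p.1.2.1 = l • act m p'.1.2.1 := by
  rw [Psi, Psi, Prod.mk.injEq, Projectivization.mk_eq_mk_iff']
  apply and_congr_right
  intro _
  constructor
  · rintro ⟨c, hc⟩
    exact Zc_sep D _ _ c _ _ p.2.1 hc.symm
  · rintro ⟨m, n, l, hl, hu, hv⟩
    obtain ⟨G, hG, hs⟩ := Zc_shift D m n p.1.2.2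
    refine ⟨l * G⁻¹, ?_⟩
    rw [hu, hs, hv, Zc_smul, smul_smul, mul_assoc, inv_mul_cancel₀ hG, mul_one]

lemma PsX_eq_iff (p p' : PP) : PsX D p = PsX D p' ↔ p.1.1 = p'.1.1 ∧
    ∃ (m n : ℤ) (l : ℂ), l ≠ 0 ∧
    p'.1.2.2 = p.1.2.2 + m + n * Complex.I ∧ p.1.2.1 = l • act m p'.1.2.1 := by
  rw [← Psi_eq_iff D]
  exact Subtype.ext_iff

lemma act_apply (m : ℤ) (v : Fin 3 → ℂ) : act m v 0 = zet ^ (2 * m) * v 0 ∧
    act m v 1 = zet ^ (3 * m) * v 1 ∧ act m v 2 = v 2 := by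
  refine ⟨rfl, rfl, ?_⟩
  change zet ^ ((0 : ℤ) * m) * v 2 = v 2
  rw [zero_mul, zpow_zero, one_mul]

lemma act_smul (m : ℤ) (c : ℂ) (v : Fin 3 → ℂ) : act m (c • v) = c • act m v := by
  funext k
  simp only [act, Pi.smul_apply, smul_eq_mul]
  ring

lemma act_act (m n : ℤ) (v : Fin 3 → ℂ) : act m (act n v) = act (m + n) v := by
  funext k
  simp only [act]
  rw [← mul_assoc, ← zpow_add₀ zet_ne]
  congr 2
  ring

lemma act_zero (v : Fin 3 → ℂ) : act 0 v = v := by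
  funext k
  simp [act]

lemma zpow_six' (m : ℤ) : (zet ^ (2 * m) : ℂ) ^ 3 = 1 ∧ (zet ^ (3 * m) : ℂ) ^ 2 = 1 := by
  constructor
  · rw [← zpow_natCast, ← zpow_mul]
    have : (2 * m * ((3 : ℕ) : ℤ)) = 6 * m := by push_cast; ring
    rw [this, zet_zpow_six]
  · rw [← zpow_natCast, ← zpow_mul]
    have : (3 * m * ((2 : ℕ) : ℤ)) = 6 * m := by push_cast; ring
    rw [this, zet_zpow_six]

lemma PP_act (t u u' : ℂ) (v : Fin 3 → ℂ) (h : (t, v, u) ∈ PP) (m : ℤ) (l : ℂ) (hl : l ≠ 0) :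
    (t, l • act m v, u') ∈ PP := by
  obtain ⟨h1, h2⟩ := h
  change v ≠ 0 at h1
  change v 1 ^ 2 * v 2 = v 0 ^ 3 + t * v 2 ^ 3 at h2
  obtain ⟨a0, a1, a2⟩ := act_apply m v
  obtain ⟨z3, z2⟩ := zpow_six' m
  refine ⟨?_, ?_⟩
  · change l • act m v ≠ 0
    refine smul_ne_zero hl ?_
    intro h0
    apply h1
    have := congrArg (act (-m)) h0
    rw [act_act, neg_add_cancel, act_zero] at this
    rw [this]
    funext k
    simp [act]
  · change (l * act m v 1) ^ 2 * (l * act m v 2) =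
      (l * act m v 0) ^ 3 + t * (l * act m v 2) ^ 3
    rw [a0, a1, a2]
    have e1 : (l * (zet ^ (3 * m) * v 1)) ^ 2 * (l * v 2) =
      l ^ 3 * ((zet ^ (3 * m) : ℂ) ^ 2 * (v 1 ^ 2 * v 2)) := by ring
    have e2 : (l * (zet ^ (2 * m) * v 0)) ^ 3 + t * (l * v 2) ^ 3 =
      l ^ 3 * ((zet ^ (2 * m) : ℂ) ^ 3 * v 0 ^ 3 + t * v 2 ^ 3) := by ring
    rw [e1, e2, z2, z3, one_mul, one_mul, h2]

end alg

end Pool.Agent.TH179.BE
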