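import Pool.Agent.TH179.BE.Emb1
import Pool.Agent.TH179.BE.Base2

/-!
The embedding: topology.
-/

set_option autoImplicit false

open scoped LinearAlgebra.Projectivization
open Topology
open Pool.Agent.Helper922.MR (elU elU_props elU_ne)

attribute [-instance] Pool.Agent.Helper922.MR.instTopProj

namespace Pool.Agent.TH179.BE

section top

lemma cont_mk {ι : Type} [Fintype ι] :
    Continuous (fun z : {z : ι → ℂ // z ≠ 0} => (Projectivization.mk ℂ z.1 z.2 : ℙ ℂ (ι → ℂ))) :=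
  Helper922.MR.continuous_mk

lemma t2_proj {ι : Type} [Fintype ι] : T2Space (ℙ ℂ (ι → ℂ)) :=
  Helper922.MR.t2Space_proj

variable (D : ThetaData)

/-- homogeneous coordinates, with a local lift of the first factor -/
noncomputable def Zl (E : Fin 3 → ℂ) (v : Fin 3 → ℂ) (u : ℂ) : Ix D → ℂ :=
  fun i => E i.1 * (v i.2.1 * D.R i.2.1 u i.2.2)

lemma Zl_smul (l u : ℂ) (v : Fin 3 → ℂ) : Zl D (l • elU u) v u = l • Zc D u v := by
  funext i
  simp only [Zl, Zc, Pi.smul_apply, smul_eq_mul]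
  ring

lemma continuous_Zl {A : Type} [TopologicalSpace A] {E v : A → Fin 3 → ℂ} {u : A → ℂ}
    (hE : Continuous E) (hv : Continuous v) (hu : Continuous u) :
    Continuous (fun a => Zl D (E a) (v a) (u a)) := by
  refine continuous_pi fun i => ?_
  have h1 : Continuous (fun a => E a i.1) := (continuous_apply _).comp hE
  have h2 : Continuous (fun a => v a i.2.1) := (continuous_apply _).comp hv
  have h3 : Continuous (fun a => D.R i.2.1 (u a) i.2.2) :=
    (continuous_apply _).comp ((D.diff i.2.1).continuous.comp hu)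
  exact h1.mul (h2.mul h3)

lemma continuous_Psi : Continuous (Psi D) := by
  refine Continuous.prodMk (continuous_fst.comp continuous_subtype_val) ?_
  rw [continuous_iff_continuousAt]
  intro p0
  obtain ⟨r, hr, l, hl, hd, -⟩ := elU_props.2.2.2.2 p0.1.2.2
  have cu : Continuous (fun p : PP => p.1.2.2) := by fun_prop
  let W : Set PP := {p | p.1.2.2 ∈ Metric.ball p0.1.2.2 r}
  have hW : IsOpen W := Metric.isOpen_ball.preimage cu
  have hp0 : p0 ∈ W := Metric.mem_ball_self hr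
  refine ContinuousOn.continuousAt ?_ (hW.mem_nhds hp0)
  rw [continuousOn_iff_continuous_domRestrict]
  have e : W.domRestrict (fun p : PP => (Projectivization.mk ℂ (Zc D p.1.2.2 p.1.2.1)
      (Zc_ne D _ p.2.1) : ℙ ℂ (Ix D → ℂ))) =
      (fun z : {z : Ix D → ℂ // z ≠ 0} => (Projectivization.mk ℂ z.1 z.2 : ℙ ℂ (Ix D → ℂ))) ∘
      (fun p : W => (⟨Zl D (l p.1.1.2.2 • elU p.1.1.2.2) p.1.1.2.1 p.1.1.2.2, by
        rw [Zl_smul]
        exact smul_ne_zero (hl _ p.2) (Zc_ne D _ p.1.2.1)⟩ : {z : Ix D → ℂ // z ≠ 0})) := by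
    funext p
    change Projectivization.mk ℂ _ _ = Projectivization.mk ℂ _ _
    rw [Projectivization.mk_eq_mk_iff']
    refine ⟨(l p.1.1.2.2)⁻¹, ?_⟩
    change (l p.1.1.2.2)⁻¹ • Zl D (l p.1.1.2.2 • elU p.1.1.2.2) p.1.1.2.1 p.1.1.2.2 =
      Zc D p.1.1.2.2 p.1.1.2.1
    rw [Zl_smul, smul_smul, inv_mul_cancel₀ (hl _ p.2), one_smul]
  rw [e]
  refine cont_mk.comp (Continuous.subtype_mk ?_ _)
  refine continuous_Zl D ?_ (by fun_prop) (by fun_prop)
  have h1 : Continuous (fun w : Metric.ball p0.1.2.2 r => l w.1 • elU w.1) :=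
    continuousOn_iff_continuous_domRestrict.1 hd.continuousOn
  exact h1.comp (Continuous.subtype_mk (by fun_prop : Continuous (fun p : W => p.1.1.2.2))
    (fun p => p.2))

/-- a fundamental domain -/
def KK : Set PP := {p | ‖p.1.2.1‖ = 1 ∧ p.1.2.2.re ∈ Set.Icc (0 : ℝ) 1 ∧
  p.1.2.2.im ∈ Set.Icc (0 : ℝ) 1}

lemma proper_fst : IsProperMap (fun p : KK => p.1.1.1) := by
  rw [isProperMap_iff_isCompact_preimage]
  refine ⟨by fun_prop, ?_⟩
  intro A hA
  have hind : IsInducing (fun p : KK => p.1.1) :=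
    IsInducing.subtypeVal.comp IsInducing.subtypeVal
  rw [hind.isCompact_iff]
  let S : Set ℂ := (fun z : ℝ × ℝ => (z.1 : ℂ) + z.2 * Complex.I) ''
    (Set.Icc (0 : ℝ) 1 ×ˢ Set.Icc (0 : ℝ) 1)
  have hS : IsCompact S := (isCompact_Icc.prod isCompact_Icc).image (by fun_prop)
  have hC : IsCompact (A ×ˢ (Metric.sphere (0 : Fin 3 → ℂ) 1 ×ˢ S)) :=
    hA.prod ((isCompact_sphere _ _).prod hS)
  refine hC.of_isClosed_subset ?_ ?_
  · have : (fun p : KK => p.1.1) '' ((fun p : KK => p.1.1.1) ⁻¹' A) =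
        {p : ℂ × (Fin 3 → ℂ) × ℂ | p.1 ∈ A ∧ ‖p.2.1‖ = 1 ∧ p.2.2.re ∈ Set.Icc (0 : ℝ) 1 ∧
          p.2.2.im ∈ Set.Icc (0 : ℝ) 1 ∧
          p.2.1 1 ^ 2 * p.2.1 2 = p.2.1 0 ^ 3 + p.1 * p.2.1 2 ^ 3} := by
      ext p
      constructor
      · rintro ⟨q, hq, rfl⟩
        exact ⟨hq, q.2.1, q.2.2.1, q.2.2.2, q.1.2.2⟩
      · rintro ⟨h1, h2, h3, h4, h5⟩
        have h6 : p.2.1 ≠ 0 := by
          intro h
          rw [h, norm_zero] at h2
          norm_num at h2
        exact ⟨⟨⟨p, h6, h5⟩, h2, h3, h4⟩, h1, rfl⟩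
    rw [this]
    refine (hA.isClosed.preimage continuous_fst).inter (IsClosed.inter ?_ (IsClosed.inter ?_
      (IsClosed.inter ?_ ?_)))
    · exact isClosed_eq (by fun_prop) (by fun_prop)
    · exact isClosed_Icc.preimage (by fun_prop)
    · exact isClosed_Icc.preimage (by fun_prop)
    · exact isClosed_eq (by fun_prop) (by fun_prop)
  · rintro _ ⟨q, hq, rfl⟩
    refine ⟨hq, ?_, ?_⟩
    · exact mem_sphere_zero_iff_norm.2 q.2.1
    · refine ⟨(q.1.1.2.2.re, q.1.1.2.2.im), ⟨q.2.2.1, q.2.2.2⟩, ?_⟩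
      exact Complex.re_add_im _

lemma proper_K : IsProperMap (fun p : KK => Psi D p.1) := by
  have : T2Space (ℙ ℂ (Ix D → ℂ)) := t2_proj
  have h1 : Continuous (fun p : KK => Psi D p.1) := (continuous_Psi D).comp continuous_subtype_val
  exact isProperMap_of_comp_of_t2 h1 continuous_fst proper_fst

lemma K_meets (p : PP) : ∃ k : KK, Psi D k.1 = Psi D p := by
  obtain ⟨⟨t, v, u⟩, hp⟩ := p
  let m : ℤ := -⌊u.re⌋
  let n : ℤ := -⌊u.im⌋
  have hv : act (-m) v ≠ 0 := by
    have := (PP_act t u u v hp (-m) 1 one_ne_zero).1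
    change (1 : ℂ) • act (-m) v ≠ 0 at this
    rwa [one_smul] at this
  have hN : (‖act (-m) v‖ : ℂ) ≠ 0 := Complex.ofReal_ne_zero.2 (norm_ne_zero_iff.2 hv)
  let l : ℂ := (‖act (-m) v‖ : ℂ)
  have hmem := PP_act t u (u + m + n * Complex.I) v hp (-m) l⁻¹ (inv_ne_zero hN)
  refine ⟨⟨⟨_, hmem⟩, ?_, ?_, ?_⟩, ?_⟩
  · change ‖l⁻¹ • act (-m) v‖ = 1
    rw [norm_smul, norm_inv, Complex.norm_real, norm_norm,
      inv_mul_cancel₀ (norm_ne_zero_iff.2 hv)]
  · change (u + m + n * Complex.I).re ∈ _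
    have : (u + m + n * Complex.I).re = Int.fract u.re := by
      have e : (u + m + n * Complex.I).re = u.re + ((m : ℤ) : ℝ) := by simp
      rw [e, ← Int.self_sub_floor]
      simp only [m]
      push_cast
      ring
    rw [this]
    exact ⟨Int.fract_nonneg _, (Int.fract_lt_one _).le⟩
  · change (u + m + n * Complex.I).im ∈ _
    have : (u + m + n * Complex.I).im = Int.fract u.im := by
      have e : (u + m + n * Complex.I).im = u.im + ((n : ℤ) : ℝ) := by simp
      rw [e, ← Int.self_sub_floor]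
      simp only [n]
      push_cast
      ring
    rw [this]
    exact ⟨Int.fract_nonneg _, (Int.fract_lt_one _).le⟩
  · symm
    rw [Psi_eq_iff]
    refine ⟨rfl, m, n, l, hN, rfl, ?_⟩
    change v = l • act m (l⁻¹ • act (-m) v)
    rw [act_smul, act_act, add_neg_cancel, act_zero, smul_smul, mul_inv_cancel₀ hN, one_smul]

lemma isClosed_XX : IsClosed (XX D) := by
  have : XX D = Set.range (fun p : KK => Psi D p.1) := by
    ext x
    constructor
    · rintro ⟨p, rfl⟩
      obtain ⟨k, hk⟩ := K_meets D p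
      exact ⟨k, hk⟩
    · rintro ⟨k, rfl⟩
      exact ⟨k.1, rfl⟩
  rw [this]
  exact (proper_K D).isClosedMap.isClosed_range

lemma open_PsX : IsOpenMap (PsX D) := by
  intro O hO
  let Os : Set PP := {p | ∃ q ∈ O, Psi D p = Psi D q}
  have hOs : IsOpen Os := by
    rw [isOpen_iff_mem_nhds]
    rintro p ⟨q, hq, hpq⟩
    obtain ⟨ht, m, n, l, hl, hu, hv⟩ := (Psi_eq_iff D p q).1 hpq
    let h : PP → PP := fun p' => ⟨(p'.1.1, l⁻¹ • act (-m) p'.1.2.1,
      p'.1.2.2 + m + n * Complex.I), PP_act _ _ _ _ p'.2 _ _ (inv_ne_zero hl)⟩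
    have hc : Continuous h := by
      refine Continuous.subtype_mk ?_ _
      have : Continuous (fun p' : PP => act (-m) p'.1.2.1) := by
        unfold act
        fun_prop
      fun_prop
    have hh : ∀ p', Psi D p' = Psi D (h p') := by
      intro p'
      rw [Psi_eq_iff]
      refine ⟨rfl, m, n, l, hl, rfl, ?_⟩
      change p'.1.2.1 = l • act m (l⁻¹ • act (-m) p'.1.2.1)
      rw [act_smul, act_act, add_neg_cancel, act_zero, smul_smul, mul_inv_cancel₀ hl, one_smul]
    have hpq' : h p = q := by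
      apply Subtype.ext
      refine Prod.ext ht (Prod.ext ?_ hu.symm)
      change l⁻¹ • act (-m) p.1.2.1 = q.1.2.1
      rw [hv, act_smul, act_act, neg_add_cancel, act_zero, smul_smul, inv_mul_cancel₀ hl, one_smul]
    have h3 : h ⁻¹' O ∈ 𝓝 p := (hO.preimage hc).mem_nhds (by
      rw [Set.mem_preimage, hpq']
      exact hq)
    refine Filter.mem_of_superset h3 ?_
    intro p' hp'
    exact ⟨h p', hp', hh p'⟩
  have hcl : IsClosed ((fun k : KK => Psi D k.1) '' ((Subtype.val : KK → PP) ⁻¹' Osᶜ)) :=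
    (proper_K D).isClosedMap _ (hOs.isClosed_compl.preimage continuous_subtype_val)
  have : PsX D '' O = (Subtype.val : ↥(XX D) → _) ⁻¹'
      ((fun k : KK => Psi D k.1) '' ((Subtype.val : KK → PP) ⁻¹' Osᶜ))ᶜ := by
    ext x
    constructor
    · rintro ⟨q, hq, rfl⟩ ⟨k, hk, hkq⟩
      exact hk ⟨q, hq, hkq⟩
    · intro hx
      obtain ⟨p, rfl⟩ := PsX_surj D x
      obtain ⟨k, hk⟩ := K_meets D p
      by_cases h : k.1 ∈ Os
      · obtain ⟨q, hq, hq2⟩ := h
        refine ⟨q, hq, ?_⟩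
        apply Subtype.ext
        change Psi D q = Psi D p
        rw [← hq2, hk]
      · exact absurd ⟨k, h, hk⟩ hx
  rw [this]
  exact hcl.isOpen_compl.preimage continuous_subtype_val

lemma PsX_oq : IsOpenQuotientMap (PsX D) :=
  ⟨PsX_surj D, Continuous.subtype_mk (continuous_Psi D) _, open_PsX D⟩

end top

end Pool.Agent.TH179.BE
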