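import Pool.Agent.TH179.BE.Emb2

/-!
The embedding: the model.
-/

set_option autoImplicit false

open scoped LinearAlgebra.Projectivization
open Topology

attribute [-instance] Pool.Agent.Helper922.MR.instTopProj

namespace Pool.Agent.TH179.BE

section sq

lemma sq_sq (t z : ℂ) : sq t z ^ 2 = 1 + t * z ^ 6 := by
  have := Complex.cpow_nat_inv_pow (1 + t * z ^ 6) (n := 2) (by norm_num)
  have e : ((2 : ℕ) : ℂ)⁻¹ = 1 / 2 := by norm_num
  rw [e] at this
  exact this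

lemma sq_ne {t z : ℂ} (h : 0 < (1 + t * z ^ 6).re) : sq t z ≠ 0 := by
  intro h0
  have := sq_sq t z
  rw [h0] at this
  rw [← this] at h
  norm_num at h

lemma sq_re_pos {t z : ℂ} (h : 0 < (1 + t * z ^ 6).re) : 0 < (sq t z).re := by
  have hne : (1 + t * z ^ 6) ≠ 0 := by
    intro h0
    rw [h0] at h
    simp at h
  rw [sq, Complex.cpow_def_of_ne_zero hne, Complex.exp_re]
  apply mul_pos (Real.exp_pos _)
  apply Real.cos_pos_of_mem_Ioo
  have h1 : (Complex.log (1 + t * z ^ 6) * (1 / 2)).im = (1 + t * z ^ 6).arg / 2 := by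
    have e : (1 / 2 : ℂ) = ((1 / 2 : ℝ) : ℂ) := by push_cast; rfl
    rw [e, Complex.im_mul_ofReal, Complex.log_im]
    ring
  rw [h1]
  have h2 := Complex.neg_pi_lt_arg (1 + t * z ^ 6)
  have h3 := Complex.arg_le_pi (1 + t * z ^ 6)
  have h4 : |(1 + t * z ^ 6).arg| < Real.pi / 2 := Complex.abs_arg_lt_pi_div_two_iff.2 (Or.inl h)
  rw [abs_lt] at h4
  constructor <;> linarith [Real.pi_pos]

lemma sq_zero (t : ℂ) : sq t 0 = 1 := by
  rw [sq]
  simp

lemma continuous_sq {A : Type} [TopologicalSpace A] {t z : A → ℂ} (ht : Continuous t)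
    (hz : Continuous z) (h : ∀ a, 0 < (1 + t a * z a ^ 6).re) :
    Continuous (fun a => sq (t a) (z a)) := by
  unfold sq
  exact (by fun_prop : Continuous (fun a => 1 + t a * z a ^ 6)).cpow continuous_const
    (fun a => Or.inl (h a))

end sq

section maps

variable (D : ThetaData)

/-- parameters of the affine part -/
def pU (p : ℂ × ℂ × ℂ) : PP := ⟨(p.2.1 ^ 2 - p.1 ^ 3, ![p.1, p.2.1, 1], p.2.2), by
  refine ⟨?_, ?_⟩
  · intro h
    have := congrFun h 2
    simp at this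
  · simp⟩

/-- parameters near infinity -/
noncomputable def pV (p : Om) : PP :=
  ⟨(p.1.2.1, ![p.1.1, sq p.1.2.1 p.1.1, p.1.1 ^ 3], p.1.2.2), by
  refine ⟨?_, ?_⟩
  · intro h
    have := congrFun h 1
    simp at this
    exact sq_ne p.2 this
  · change sq p.1.2.1 p.1.1 ^ 2 * p.1.1 ^ 3 = p.1.1 ^ 3 + p.1.2.1 * (p.1.1 ^ 3) ^ 3
    rw [sq_sq]
    ring⟩

lemma continuous_pU : Continuous pU := by
  refine Continuous.subtype_mk ?_ _
  refine Continuous.prodMk (by fun_prop) (Continuous.prodMk ?_ (by fun_prop))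
  refine continuous_pi fun i => ?_
  fin_cases i
  · exact continuous_fst
  · exact continuous_fst.comp continuous_snd
  · exact continuous_const

lemma cOm1 : Continuous (fun p : Om => p.1.1) := continuous_fst.comp continuous_subtype_val
lemma cOm2 : Continuous (fun p : Om => p.1.2.1) :=
  continuous_fst.comp (continuous_snd.comp continuous_subtype_val)
lemma cOm3 : Continuous (fun p : Om => p.1.2.2) :=
  continuous_snd.comp (continuous_snd.comp continuous_subtype_val)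

lemma continuous_pV : Continuous pV := by
  refine Continuous.subtype_mk ?_ _
  refine Continuous.prodMk cOm2 (Continuous.prodMk ?_ cOm3)
  refine continuous_pi fun i => ?_
  fin_cases i
  · exact cOm1
  · exact continuous_sq cOm2 cOm1 (fun p => p.2)
  · exact cOm1.pow 3

/-- first map -/
noncomputable def gU (p : ℂ × ℂ × ℂ) : ↥(XX D) := PsX D (pU p)

/-- second map -/
noncomputable def gV (p : Om) : ↥(XX D) := PsX D (pV p)

lemma continuous_gU : Continuous (gU D) := (PsX_oq D).continuous.comp continuous_pU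

lemma continuous_gV : Continuous (gV D) := (PsX_oq D).continuous.comp continuous_pV

lemma act_zero_smul {t t' : ℂ} {v v' : Fin 3 → ℂ} {u u' : ℂ} (h : (t, v, u) ∈ PP)
    (h' : (t', v', u') ∈ PP) (ht : t = t') (hu : u = u') (c : ℂ) (hc : c ≠ 0) (hv : v = c • v') :
    PsX D ⟨(t, v, u), h⟩ = PsX D ⟨(t', v', u'), h'⟩ := by
  rw [PsX_eq_iff]
  refine ⟨ht, 0, 0, c, hc, ?_, ?_⟩
  · change u' = u + ((0 : ℤ) : ℂ) + ((0 : ℤ) : ℂ) * Complex.I
    rw [hu]
    push_cast
    ring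
  · change v = c • act 0 v'
    rw [act_zero, hv]

lemma gU_of (p : PP) (h : p.1.2.1 2 ≠ 0) :
    PsX D p = gU D (p.1.2.1 0 / p.1.2.1 2, p.1.2.1 1 / p.1.2.1 2, p.1.2.2) := by
  obtain ⟨⟨t, v, u⟩, hp⟩ := p
  change v 2 ≠ 0 at h
  refine act_zero_smul D hp _ ?_ rfl (v 2) h ?_
  · have := hp.2
    change v 1 ^ 2 * v 2 = v 0 ^ 3 + t * v 2 ^ 3 at this
    change t = (v 1 / v 2) ^ 2 - (v 0 / v 2) ^ 3
    field_simp
    linear_combination -this
  · funext i
    fin_cases i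
    · change v 0 = v 2 * (v 0 / v 2)
      field_simp
    · change v 1 = v 2 * (v 1 / v 2)
      field_simp
    · change v 2 = v 2 * 1
      ring

/-- the local coordinate at infinity -/
noncomputable def zz (p : PP) : ℂ :=
  p.1.2.1 0 / p.1.2.1 1 * (1 - p.1.1 * (p.1.2.1 2 / p.1.2.1 1) ^ 2)⁻¹ ^ (1 / 2 : ℂ)

lemma gV_of (p : PP) (h : p.1.2.1 1 ≠ 0)
    (h2 : 0 < (1 - p.1.1 * (p.1.2.1 2 / p.1.2.1 1) ^ 2).re) :
    ∃ hz : 0 < (1 + p.1.1 * (zz p) ^ 6).re, PsX D p = gV D ⟨(zz p, p.1.1, p.1.2.2), hz⟩ := by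
  obtain ⟨⟨t, v, u⟩, hp⟩ := p
  change v 1 ≠ 0 at h
  change 0 < (1 - t * (v 2 / v 1) ^ 2).re at h2
  have heq : v 1 ^ 2 * v 2 = v 0 ^ 3 + t * v 2 ^ 3 := hp.2
  have ez : zz ⟨(t, v, u), hp⟩ = v 0 / v 1 * (1 - t * (v 2 / v 1) ^ 2)⁻¹ ^ (1 / 2 : ℂ) := rfl
  rw [ez]
  clear ez
  set w : ℂ := 1 - t * (v 2 / v 1) ^ 2 with hw
  have hwne : w ≠ 0 := by
    intro h0
    rw [h0] at h2
    simp at h2
  have hs2 : (w⁻¹ ^ (1 / 2 : ℂ)) ^ 2 = w⁻¹ := by
    have := Complex.cpow_nat_inv_pow w⁻¹ (n := 2) (by norm_num)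
    have e : ((2 : ℕ) : ℂ)⁻¹ = 1 / 2 := by norm_num
    rw [e] at this
    exact this
  set s : ℂ := w⁻¹ ^ (1 / 2 : ℂ) with hs
  have hw' : w * v 1 ^ 2 = v 1 ^ 2 - t * v 2 ^ 2 := by
    rw [hw]
    field_simp
  have h0 : v 0 ^ 3 = v 2 * (w * v 1 ^ 2) := by
    rw [hw']
    linear_combination -heq
  have hs6 : s ^ 6 = w⁻¹ ^ 3 := by
    rw [← hs2]
    ring
  have hz3 : (v 0 / v 1 * s) ^ 3 = v 2 / v 1 * s := by
    have : (v 0 / v 1 * s) ^ 3 = v 0 ^ 3 / v 1 ^ 3 * (s ^ 2 * s) := by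
      rw [mul_pow, div_pow]
      ring
    rw [this, hs2, h0]
    field_simp
  have hz6 : 1 + t * (v 0 / v 1 * s) ^ 6 = w⁻¹ := by
    have e : (v 0 / v 1 * s) ^ 6 = (v 2 / v 1) ^ 2 * w⁻¹ := by
      calc (v 0 / v 1 * s) ^ 6 = ((v 0 / v 1 * s) ^ 3) ^ 2 := by ring
        _ = (v 2 / v 1) ^ 2 * s ^ 2 := by rw [hz3]; ring
        _ = _ := by rw [hs2]
    rw [e]
    have e2 : t * (v 2 / v 1) ^ 2 = 1 - w := by rw [hw]; ring
    rw [← mul_assoc, e2]
    field_simp
    ring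
  have hre : 0 < (w⁻¹).re := by
    rw [Complex.inv_re]
    exact div_pos h2 (Complex.normSq_pos.2 hwne)
  have hz : 0 < (1 + t * (v 0 / v 1 * s) ^ 6).re := by
    rw [hz6]
    exact hre
  refine ⟨hz, ?_⟩
  have hsq : sq t (v 0 / v 1 * s) = s := by
    rw [sq, hz6]
  have hsne : s ≠ 0 := by
    rw [← hsq]
    exact sq_ne hz
  refine act_zero_smul D hp _ rfl rfl (v 1 / s) (div_ne_zero h hsne) ?_
  funext i
  fin_cases i
  · change v 0 = v 1 / s * (v 0 / v 1 * s)
    field_simp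
  · change v 1 = v 1 / s * sq t (v 0 / v 1 * s)
    rw [hsq]
    field_simp
  · change v 2 = v 1 / s * (v 0 / v 1 * s) ^ 3
    rw [hz3]
    field_simp

lemma open_gU : IsOpenMap (gU D) := by
  intro O hO
  have hc0 : Continuous (fun p : PP => p.1.2.1 0) := by fun_prop
  have hc1 : Continuous (fun p : PP => p.1.2.1 1) := by fun_prop
  have hc2 : Continuous (fun p : PP => p.1.2.1 2) := by fun_prop
  have hc3 : Continuous (fun p : PP => p.1.2.2) := by fun_prop
  have hne : IsOpen {p : PP | p.1.2.1 2 ≠ 0} := isOpen_ne.preimage hc2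
  have hcont : ContinuousOn (fun p : PP =>
      ((p.1.2.1 0 / p.1.2.1 2, p.1.2.1 1 / p.1.2.1 2, p.1.2.2) : ℂ × ℂ × ℂ))
      {p : PP | p.1.2.1 2 ≠ 0} := by
    refine ContinuousOn.prodMk ?_ (ContinuousOn.prodMk ?_ hc3.continuousOn)
    · exact hc0.continuousOn.div hc2.continuousOn (fun p hp => hp)
    · exact hc1.continuousOn.div hc2.continuousOn (fun p hp => hp)
  have hopen := hcont.isOpen_inter_preimage hne hO
  have : gU D '' O = PsX D '' ({p : PP | p.1.2.1 2 ≠ 0} ∩ (fun p : PP =>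
      ((p.1.2.1 0 / p.1.2.1 2, p.1.2.1 1 / p.1.2.1 2, p.1.2.2) : ℂ × ℂ × ℂ)) ⁻¹' O) := by
    ext x
    constructor
    · rintro ⟨q, hq, rfl⟩
      refine ⟨pU q, ⟨?_, ?_⟩, rfl⟩
      · change (1 : ℂ) ≠ 0
        exact one_ne_zero
      · change ((q.1 / 1, q.2.1 / 1, q.2.2) : ℂ × ℂ × ℂ) ∈ O
        simpa using hq
    · rintro ⟨p, ⟨hp1, hp2⟩, rfl⟩
      exact ⟨_, hp2, (gU_of D p hp1).symm⟩
  rw [this]
  exact open_PsX D _ hopen

lemma open_gV : IsOpenMap (gV D) := by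
  intro O hO
  obtain ⟨O', hO', rfl⟩ := isOpen_induced_iff.1 hO
  have hct : Continuous (fun p : PP => p.1.1) := by fun_prop
  have hc0 : Continuous (fun p : PP => p.1.2.1 0) := by fun_prop
  have hc1 : Continuous (fun p : PP => p.1.2.1 1) := by fun_prop
  have hc2 : Continuous (fun p : PP => p.1.2.1 2) := by fun_prop
  have hc3 : Continuous (fun p : PP => p.1.2.2) := by fun_prop
  have hne : IsOpen {p : PP | p.1.2.1 1 ≠ 0} := isOpen_ne.preimage hc1
  have hw : ContinuousOn (fun p : PP => 1 - p.1.1 * (p.1.2.1 2 / p.1.2.1 1) ^ 2)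
      {p : PP | p.1.2.1 1 ≠ 0} :=
    continuousOn_const.sub (hct.continuousOn.mul
      ((hc2.continuousOn.div hc1.continuousOn (fun p hp => hp)).pow 2))
  have hW := hw.isOpen_inter_preimage hne (isOpen_lt continuous_const Complex.continuous_re :
    IsOpen {z : ℂ | 0 < z.re})
  have hcont : ContinuousOn (fun p : PP => ((zz p, p.1.1, p.1.2.2) : ℂ × ℂ × ℂ))
      ({p : PP | p.1.2.1 1 ≠ 0} ∩
      (fun p : PP => 1 - p.1.1 * (p.1.2.1 2 / p.1.2.1 1) ^ 2) ⁻¹' {z : ℂ | 0 < z.re}) := by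
    refine ContinuousOn.prodMk ?_ (ContinuousOn.prodMk hct.continuousOn hc3.continuousOn)
    unfold zz
    refine ContinuousOn.mul (hc0.continuousOn.div hc1.continuousOn (fun p hp => hp.1)) ?_
    refine ContinuousOn.cpow ?_ continuousOn_const ?_
    · refine ContinuousOn.inv₀ (hw.mono Set.inter_subset_left) ?_
      rintro p ⟨-, hp⟩ h0
      change 0 < (1 - p.1.1 * (p.1.2.1 2 / p.1.2.1 1) ^ 2).re at hp
      rw [h0] at hp
      simp at hp
    · rintro p ⟨-, hp⟩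
      left
      change 0 < (1 - p.1.1 * (p.1.2.1 2 / p.1.2.1 1) ^ 2).re at hp
      rw [Complex.inv_re]
      refine div_pos hp (Complex.normSq_pos.2 ?_)
      intro h0
      rw [h0] at hp
      simp at hp
  have hopen := hcont.isOpen_inter_preimage hW hO'
  have : gV D '' (Subtype.val ⁻¹' O') = PsX D '' (({p : PP | p.1.2.1 1 ≠ 0} ∩
      (fun p : PP => 1 - p.1.1 * (p.1.2.1 2 / p.1.2.1 1) ^ 2) ⁻¹' {z : ℂ | 0 < z.re}) ∩
      (fun p : PP => ((zz p, p.1.1, p.1.2.2) : ℂ × ℂ × ℂ)) ⁻¹' O') := by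
    ext x
    constructor
    · rintro ⟨q, hq, rfl⟩
      obtain ⟨⟨z, t, u⟩, hqq⟩ := q
      change ((z, t, u) : ℂ × ℂ × ℂ) ∈ O' at hq
      change 0 < (1 + t * z ^ 6).re at hqq
      have hs := sq_sq t z
      have hsne := sq_ne hqq
      have hq1 : 1 + t * z ^ 6 ≠ 0 := by rw [← hs]; exact pow_ne_zero 2 hsne
      have e1 : 1 - t * (z ^ 3 / sq t z) ^ 2 = (1 + t * z ^ 6)⁻¹ := by
        rw [div_pow, hs]
        field_simp
        ring
      have hre : 0 < ((1 + t * z ^ 6)⁻¹).re := by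
        rw [Complex.inv_re]
        exact div_pos hqq (Complex.normSq_pos.2 hq1)
      have ezz : zz (pV ⟨(z, t, u), hqq⟩) = z := by
        change z / sq t z * (1 - t * (z ^ 3 / sq t z) ^ 2)⁻¹ ^ (1 / 2 : ℂ) = z
        rw [e1, inv_inv]
        change z / sq t z * sq t z = z
        field_simp
      refine ⟨pV ⟨(z, t, u), hqq⟩, ⟨⟨hsne, ?_⟩, ?_⟩, rfl⟩
      · change 0 < (1 - t * (z ^ 3 / sq t z) ^ 2).re
        rw [e1]
        exact hre
      · change ((zz (pV ⟨(z, t, u), hqq⟩), t, u) : ℂ × ℂ × ℂ) ∈ O'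
        rw [ezz]
        exact hq
    · rintro ⟨p, ⟨⟨hp1, hp2⟩, hp3⟩, rfl⟩
      obtain ⟨hz, h⟩ := gV_of D p hp1 hp2
      exact ⟨_, hp3, h.symm⟩
  rw [this]
  exact open_PsX D _ hopen

lemma gU_eq_iff (x y u x' y' u' : ℂ) : gU D (x, y, u) = gU D (x', y', u') ↔
    ∃ m n : ℤ, u' = u + m + n * Complex.I ∧ x = zet ^ (2 * m) * x' ∧ y = zet ^ (3 * m) * y' := by
  rw [gU, gU, PsX_eq_iff]
  constructor
  · rintro ⟨-, m, n, l, hl, hu, hv⟩
    change u' = _ at hu
    change ![x, y, 1] = l • act m ![x', y', 1] at hv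
    obtain ⟨a0, a1, a2⟩ := act_apply m ![x', y', 1]
    have h2 := congrFun hv 2
    have h0 := congrFun hv 0
    have h1 := congrFun hv 1
    rw [Pi.smul_apply, smul_eq_mul] at h0 h1 h2
    rw [a2] at h2
    rw [a0] at h0
    rw [a1] at h1
    change (1 : ℂ) = l * 1 at h2
    change x = l * (zet ^ (2 * m) * x') at h0
    change y = l * (zet ^ (3 * m) * y') at h1
    have hl1 : l = 1 := by rw [mul_one] at h2; exact h2.symm
    rw [hl1, one_mul] at h0 h1
    exact ⟨m, n, hu, h0, h1⟩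
  · rintro ⟨m, n, hu, hx, hy⟩
    obtain ⟨z3, z2⟩ := zpow_six' m
    refine ⟨?_, m, n, 1, one_ne_zero, hu, ?_⟩
    · change y ^ 2 - x ^ 3 = y' ^ 2 - x' ^ 3
      rw [hx, hy, mul_pow, mul_pow, z3, z2]
      ring
    · change ![x, y, 1] = (1 : ℂ) • act m ![x', y', 1]
      obtain ⟨a0, a1, a2⟩ := act_apply m ![x', y', 1]
      rw [one_smul]
      funext i
      fin_cases i
      · exact hx.trans a0.symm
      · exact hy.trans a1.symm
      · exact a2.symm

lemma sq_zeta (t z : ℂ) (m : ℤ) : sq t (zet ^ m * z) = sq t z := by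
  have : (zet ^ m * z) ^ 6 = z ^ 6 := by
    rw [mul_pow, ← zpow_natCast, ← zpow_mul]
    have : (m * ((6 : ℕ) : ℤ)) = 6 * m := by push_cast; ring
    rw [this, zet_zpow_six, one_mul]
  rw [sq, sq, this]

lemma gV_eq_iff (p p' : Om) : gV D p = gV D p' ↔ p.1.2.1 = p'.1.2.1 ∧
    ∃ m n : ℤ, p'.1.2.2 = p.1.2.2 + m + n * Complex.I ∧ p.1.1 = zet ^ (-m) * p'.1.1 := by
  obtain ⟨⟨z, t, u⟩, hp⟩ := p
  obtain ⟨⟨z', t', u'⟩, hp'⟩ := p'
  change 0 < (1 + t * z ^ 6).re at hp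
  change 0 < (1 + t' * z' ^ 6).re at hp'
  unfold gV
  rw [PsX_eq_iff]
  change (t = t' ∧ ∃ (m n : ℤ) (l : ℂ), l ≠ 0 ∧ u' = u + m + n * Complex.I ∧
    ![z, sq t z, z ^ 3] = l • act m ![z', sq t' z', z' ^ 3]) ↔
    (t = t' ∧ ∃ m n : ℤ, u' = u + m + n * Complex.I ∧ z = zet ^ (-m) * z')
  apply and_congr_right
  rintro rfl
  constructor
  · rintro ⟨m, n, l, hl, hu, hv⟩
    obtain ⟨a0, a1, a2⟩ := act_apply m ![z', sq t z', z' ^ 3]
    have h2 := congrFun hv 2
    have h0 := congrFun hv 0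
    have h1 := congrFun hv 1
    rw [Pi.smul_apply, smul_eq_mul] at h0 h1 h2
    rw [a2] at h2
    rw [a0] at h0
    rw [a1] at h1
    change z ^ 3 = l * z' ^ 3 at h2
    change z = l * (zet ^ (2 * m) * z') at h0
    change sq t z = l * (zet ^ (3 * m) * sq t z') at h1
    refine ⟨m, n, hu, ?_⟩
    by_cases hz' : z' = 0
    · rw [h0, hz']
      ring
    obtain ⟨z3, z2⟩ := zpow_six' m
    have hl2 : l ^ 2 = 1 := by
      have e : l ^ 3 * z' ^ 3 = l * z' ^ 3 := by
        rw [← h2, h0]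
        calc l ^ 3 * z' ^ 3 = l ^ 3 * (1 * z' ^ 3) := by ring
          _ = l ^ 3 * ((zet ^ (2 * m)) ^ 3 * z' ^ 3) := by rw [z3]
          _ = _ := by ring
      have e2 : l ^ 3 = l := mul_right_cancel₀ (pow_ne_zero 3 hz') e
      have e3 : l * l ^ 2 = l * 1 := by rw [mul_one]; linear_combination e2
      exact mul_left_cancel₀ hl e3
    have hc : (l * zet ^ (3 * m)) ^ 2 = 1 := by rw [mul_pow, hl2, z2, one_mul]
    have hsp := sq_re_pos hp
    have hsp' := sq_re_pos hp'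
    have hc1 : l * zet ^ (3 * m) = 1 := by
      rcases mul_self_eq_one_iff.1 ((_root_.sq _).symm.trans hc) with h | h
      · exact h
      · exfalso
        rw [← mul_assoc, h] at h1
        rw [h1] at hsp
        simp at hsp
        linarith
    have hl3 : l = zet ^ (-(3 * m)) := by
      rw [zpow_neg]
      exact eq_inv_of_mul_eq_one_left hc1
    rw [h0, hl3, ← mul_assoc, ← zpow_add₀ zet_ne]
    congr 2
    ring
  · rintro ⟨m, n, hu, hz⟩
    refine ⟨m, n, zet ^ (-(3 * m)), zpow_ne_zero _ zet_ne, hu, ?_⟩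
    obtain ⟨a0, a1, a2⟩ := act_apply m ![z', sq t z', z' ^ 3]
    funext i
    fin_cases i
    · change z = zet ^ (-(3 * m)) * act m ![z', sq t z', z' ^ 3] 0
      rw [a0]
      change z = zet ^ (-(3 * m)) * (zet ^ (2 * m) * z')
      rw [hz, ← mul_assoc, ← zpow_add₀ zet_ne]
      congr 2
      ring
    · change sq t z = zet ^ (-(3 * m)) * act m ![z', sq t z', z' ^ 3] 1
      rw [a1]
      change sq t z = zet ^ (-(3 * m)) * (zet ^ (3 * m) * sq t z')
      rw [hz, sq_zeta, ← mul_assoc, ← zpow_add₀ zet_ne, neg_add_cancel, zpow_zero, one_mul]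
    · change z ^ 3 = zet ^ (-(3 * m)) * act m ![z', sq t z', z' ^ 3] 2
      rw [a2]
      change z ^ 3 = zet ^ (-(3 * m)) * z' ^ 3
      rw [hz, mul_pow, ← zpow_natCast, ← zpow_mul]
      congr 2
      push_cast
      ring

/-- the model -/
noncomputable def theModel : Model ↥(XX D) where
  f := proj (XX D)
  fU := gU D
  fV := gV D
  cont_f := continuous_fst.comp continuous_subtype_val
  cont_U := continuous_gU D
  cont_V := continuous_gV D
  open_U := open_gU D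
  open_V := open_gV D
  cover := by
    intro x
    obtain ⟨p, rfl⟩ := PsX_surj D x
    by_cases h : p.1.2.1 2 = 0
    · right
      have h2 := p.2.2
      have h0 : p.1.2.1 0 = 0 := by
        rw [h] at h2
        have : p.1.2.1 0 ^ 3 = 0 := by linear_combination -h2
        exact pow_eq_zero_iff (by norm_num) |>.1 this
      have h1 : p.1.2.1 1 ≠ 0 := by
        intro h1
        apply p.2.1
        funext i
        fin_cases i
        · exact h0
        · exact h1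
        · exact h
      obtain ⟨hz, h⟩ := gV_of D p h1 (by rw [h]; simp)
      exact ⟨_, h.symm⟩
    · left
      exact ⟨_, (gU_of D p h).symm⟩
  f_U := fun x y u => rfl
  f_V := fun p => rfl
  eq_U := gU_eq_iff D
  eq_V := gV_eq_iff D
  trans := by
    rintro ⟨⟨z, t, u⟩, hp⟩ hz
    change z ≠ 0 at hz
    have h := gU_of D (pV ⟨(z, t, u), hp⟩) (by
      change z ^ 3 ≠ 0
      exact pow_ne_zero 3 hz)
    refine Eq.trans h ?_
    change gU D (z / z ^ 3, sq t z / z ^ 3, u) = gU D (z⁻¹ ^ 2, sq t z * z⁻¹ ^ 3, u)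
    congr 2
    · field_simp
    · congr 1
      field_simp
  disj := by
    rintro ⟨⟨z, t, u⟩, hp⟩ hz ⟨x, y, u'⟩ h
    change z = 0 at hz
    change PsX D _ = PsX D _ at h
    rw [PsX_eq_iff] at h
    obtain ⟨-, m, n, l, hl, hu, hv⟩ := h
    change ![x, y, 1] = l • act m ![z, sq t z, z ^ 3] at hv
    have h2 := congrFun hv 2
    rw [Pi.smul_apply, smul_eq_mul, (act_apply m _).2.2] at h2
    change (1 : ℂ) = l * z ^ 3 at h2
    rw [hz] at h2
    norm_num at h2

end maps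

end Pool.Agent.TH179.BE
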