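import Pool.Agent.TH179.BE.Emb3

/-!
The embedding: local parametrisations.
-/

set_option autoImplicit false

open scoped LinearAlgebra.Projectivization
open Topology
open Pool.Agent.Helper922.MR (elU elU_props elU_ne)

attribute [-instance] Pool.Agent.Helper922.MR.instTopProj

namespace Pool.Agent.TH179.BE

section imm

variable (D : ThetaData)

lemma imm_aux (E : ℂ → Fin 3 → ℂ) (W : (Fin 3 → ℂ) → Fin 3 → ℂ) (h : Fin 3 → ℂ)
    (hE : DifferentiableAt ℂ E (h 2)) (hEd : ∀ c : ℂ, deriv E (h 2) ≠ c • E (h 2))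
    (hE0 : E (h 2) ≠ 0) (W' : (Fin 3 → ℂ) →L[ℂ] (Fin 3 → ℂ)) (hW : HasFDerivAt W W' h)
    (k0 : Fin 3) (hk0 : W h k0 ≠ 0) (k : Fin 3 → ℂ) (c : ℂ)
    (hk : fderiv ℂ (fun x => Zl D (E (x 2)) (W x) (x 2)) h k = c • Zl D (E (h 2)) (W h) (h 2)) :
    k 2 = 0 ∧ W' k = c • W h := by
  have hp2 : HasFDerivAt (fun x : Fin 3 → ℂ => x 2) (ContinuousLinearMap.proj (R := ℂ) 2) h :=
    (ContinuousLinearMap.proj (R := ℂ) (φ := fun _ : Fin 3 => ℂ) 2).hasFDerivAt
  have hEa : ∀ a, HasDerivAt (fun u => E u a) (deriv E (h 2) a) (h 2) := by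
    intro a
    exact hasDerivAt_pi.1 hE.hasDerivAt a
  have hRa : ∀ j m, HasDerivAt (fun u => D.R j u m) (deriv (D.R j) (h 2) m) (h 2) := by
    intro j m
    exact hasDerivAt_pi.1 (D.diff j (h 2)).hasDerivAt m
  have hWj : ∀ j, HasFDerivAt (fun x => W x j) ((ContinuousLinearMap.proj j).comp W') h :=
    fun j => hasFDerivAt_pi'.1 hW j
  have hcomp : ∀ (a j : Fin 3) (m : Fin D.n), HasFDerivAt
      (fun x => Zl D (E (x 2)) (W x) (x 2) (a, (j, m)))
      (E (h 2) a • (W h j • (deriv (D.R j) (h 2) m • ContinuousLinearMap.proj (R := ℂ) 2) +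
        D.R j (h 2) m • ((ContinuousLinearMap.proj j).comp W')) +
        (W h j * D.R j (h 2) m) • (deriv E (h 2) a • ContinuousLinearMap.proj (R := ℂ) 2)) h := by
    intro a j m
    exact ((hEa a).comp_hasFDerivAt h hp2).mul
      ((hWj j).mul ((hRa j m).comp_hasFDerivAt h hp2))
  have hdiff : DifferentiableAt ℂ (fun x => Zl D (E (x 2)) (W x) (x 2)) h := by
    rw [differentiableAt_pi]
    rintro ⟨a, j, m⟩
    exact (hcomp a j m).differentiableAt
  have hval : ∀ (a j : Fin 3) (m : Fin D.n),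
      E (h 2) a * (W h j * (deriv (D.R j) (h 2) m * k 2) + D.R j (h 2) m * W' k j) +
        (W h j * D.R j (h 2) m) * (deriv E (h 2) a * k 2) =
      c * (E (h 2) a * (W h j * D.R j (h 2) m)) := by
    intro a j m
    have h1 := hasFDerivAt_pi'.1 hdiff.hasFDerivAt (a, (j, m))
    have h2 := h1.unique (hcomp a j m)
    have h3 := congrFun hk (a, (j, m))
    have h4 := congrArg (fun L : (Fin 3 → ℂ) →L[ℂ] ℂ => L k) h2
    simp only [ContinuousLinearMap.comp_apply, ContinuousLinearMap.proj_apply,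
      ContinuousLinearMap.add_apply, ContinuousLinearMap.smul_apply, smul_eq_mul] at h4
    rw [← h4, h3]
    rfl
  have hk2 : k 2 = 0 := by
    by_contra hk2
    obtain ⟨m, hm⟩ := exists_ne (D.ne k0 (h 2))
    have hα : W h k0 * D.R k0 (h 2) m ≠ 0 := mul_ne_zero hk0 hm
    refine hEd ((c * (W h k0 * D.R k0 (h 2) m) - (W h k0 * (deriv (D.R k0) (h 2) m * k 2) +
      D.R k0 (h 2) m * W' k k0)) / (k 2 * (W h k0 * D.R k0 (h 2) m))) ?_
    funext a
    rw [Pi.smul_apply, smul_eq_mul, div_mul_eq_mul_div, eq_div_iff (mul_ne_zero hk2 hα)]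
    have := hval a k0 m
    linear_combination this
  refine ⟨hk2, ?_⟩
  funext j
  obtain ⟨m, hm⟩ := exists_ne (D.ne j (h 2))
  obtain ⟨a, ha⟩ := exists_ne hE0
  have := hval a j m
  rw [hk2] at this
  rw [Pi.smul_apply, smul_eq_mul]
  have h1 : E (h 2) a * (D.R j (h 2) m * W' k j) = E (h 2) a * (D.R j (h 2) m * (c * W h j)) := by
    linear_combination this
  exact mul_left_cancel₀ hm (mul_left_cancel₀ ha h1)

end imm

section oe

/-- coordinates -/
def e3 : (Fin 3 → ℂ) ≃ₜ ℂ × ℂ × ℂ where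
  toFun h := (h 0, h 1, h 2)
  invFun p := ![p.1, p.2.1, p.2.2]
  left_inv h := by
    funext i
    fin_cases i <;> rfl
  right_inv p := rfl
  continuous_toFun := by fun_prop
  continuous_invFun := by
    refine continuous_pi fun i => ?_
    fin_cases i
    · exact continuous_fst
    · exact continuous_fst.comp continuous_snd
    · exact continuous_snd.comp continuous_snd

lemma oe_aux {A B Y : Type} [TopologicalSpace A] [TopologicalSpace B] [TopologicalSpace Y]
    (g : A → Y) (hg : Continuous g) (hgo : IsOpenMap g) (e : B → A) (he : IsOpenEmbedding e)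
    (hinj : ∀ b b', g (e b) = g (e b') → b = b') : IsOpenEmbedding (fun b => g (e b)) :=
  IsOpenEmbedding.of_continuous_injective_isOpenMap (hg.comp he.continuous)
    (fun b b' h => hinj b b' h) (hgo.comp he.isOpenMap)

lemma lat_small (u0 u u' : ℂ) (r : ℝ) (hr : r ≤ 1 / 2) (h : u ∈ Metric.ball u0 r)
    (h' : u' ∈ Metric.ball u0 r) (m n : ℤ) (hmn : u' = u + m + n * Complex.I) : m = 0 ∧ n = 0 := by
  have hd : dist u' u < 1 := by
    calc dist u' u ≤ dist u' u0 + dist u0 u := dist_triangle _ _ _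
      _ < r + r := by
        rw [dist_comm u0 u]
        exact add_lt_add h' h
      _ ≤ 1 := by linarith
  rw [dist_eq_norm, hmn] at hd
  have e : u + m + n * Complex.I - u = m + n * Complex.I := by ring
  rw [e] at hd
  have h1 := (Complex.abs_re_le_norm (m + n * Complex.I)).trans_lt hd
  have h2 := (Complex.abs_im_le_norm (m + n * Complex.I)).trans_lt hd
  have e1 : ((m : ℂ) + n * Complex.I).re = m := by simp
  have e2 : ((m : ℂ) + n * Complex.I).im = n := by simp
  rw [e1] at h1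
  rw [e2] at h2
  constructor
  · exact Int.abs_lt_one_iff.1 (by exact_mod_cast h1)
  · exact Int.abs_lt_one_iff.1 (by exact_mod_cast h2)

end oe

section charts

variable (D : ThetaData)

/-- the domain of the first charts -/
def VU (u0 : ℂ) (r : ℝ) : Set (Fin 3 → ℂ) := {h | h 2 ∈ Metric.ball u0 r}

/-- the domain of the second charts -/
def VV (u0 : ℂ) (r : ℝ) : Set (Fin 3 → ℂ) :=
  {h | 0 < (1 + h 1 * h 0 ^ 6).re ∧ h 2 ∈ Metric.ball u0 r}

lemma isOpen_VU (u0 : ℂ) (r : ℝ) : IsOpen (VU u0 r) :=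
  Metric.isOpen_ball.preimage (continuous_apply 2)

lemma isOpen_VV (u0 : ℂ) (r : ℝ) : IsOpen (VV u0 r) := by
  refine IsOpen.inter ?_ (isOpen_VU u0 r)
  exact isOpen_lt continuous_const (Complex.continuous_re.comp (by fun_prop))

lemma diffOn_Zl (E : ℂ → Fin 3 → ℂ) (W : (Fin 3 → ℂ) → Fin 3 → ℂ) (V : Set (Fin 3 → ℂ))
    (B : Set ℂ) (hB : ∀ h ∈ V, h 2 ∈ B) (hE : DifferentiableOn ℂ E B)
    (hW : DifferentiableOn ℂ W V) :
    DifferentiableOn ℂ (fun x => Zl D (E (x 2)) (W x) (x 2)) V := by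
  rw [differentiableOn_pi]
  rintro ⟨a, j, m⟩
  have h2 : DifferentiableOn ℂ (fun x : Fin 3 → ℂ => x 2) V := by fun_prop
  have h1 : DifferentiableOn ℂ (fun x : Fin 3 → ℂ => E (x 2) a) V := by
    have := (differentiableOn_pi.1 hE a).comp h2 hB
    exact this
  have h3 : DifferentiableOn ℂ (fun x : Fin 3 → ℂ => W x j) V := differentiableOn_pi.1 hW j
  have h4 : DifferentiableOn ℂ (fun x : Fin 3 → ℂ => D.R j (x 2) m) V := by
    have := (differentiable_pi.1 (D.diff j) m).comp_differentiableOn h2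
    exact this
  exact h1.mul (h3.mul h4)

lemma chartU (u0 : ℂ) : ∃ P : LocalParam 3 (XX D), (∀ x y, ![x, y, u0] ∈ P.V) ∧
    (P.a = fun h => h 1 ^ 2 - h 0 ^ 3) ∧
    ∀ x y hv, P.pt ![x, y, u0] hv = (gU D (x, y, u0)).1 := by
  obtain ⟨r, hr, l, hl, hd, him⟩ := elU_props.2.2.2.2 u0
  let r' : ℝ := min r (1 / 2)
  have hr' : 0 < r' := lt_min hr (by norm_num)
  have hr1 : r' ≤ r := min_le_left _ _
  have hr2 : r' ≤ 1 / 2 := min_le_right _ _
  let E : ℂ → Fin 3 → ℂ := fun u => l u • elU u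
  let W : (Fin 3 → ℂ) → Fin 3 → ℂ := fun h => ![h 0, h 1, 1]
  let φ : (Fin 3 → ℂ) → (Ix D → ℂ) := fun h => Zl D (E (h 2)) (W h) (h 2)
  have hWne : ∀ h, W h ≠ 0 := by
    intro h h0
    have := congrFun h0 2
    exact one_ne_zero this
  have hball : ∀ h ∈ VU u0 r', h 2 ∈ Metric.ball u0 r := fun h hh =>
    Metric.ball_subset_ball hr1 hh
  have hφ : ∀ h, φ h = l (h 2) • Zc D (h 2) (W h) := fun h => Zl_smul D _ _ _
  have hφne : ∀ h ∈ VU u0 r', φ h ≠ 0 := by
    intro h hh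
    rw [hφ]
    exact smul_ne_zero (hl _ (hball h hh)) (Zc_ne D _ (hWne h))
  have hWd : DifferentiableOn ℂ W (VU u0 r') := by
    rw [differentiableOn_pi]
    intro i
    fin_cases i
    · change DifferentiableOn ℂ (fun h : Fin 3 → ℂ => h 0) _
      fun_prop
    · change DifferentiableOn ℂ (fun h : Fin 3 → ℂ => h 1) _
      fun_prop
    · change DifferentiableOn ℂ (fun h : Fin 3 → ℂ => (1 : ℂ)) _
      fun_prop
  have heq : ∀ h, ∀ hh : h ∈ VU u0 r',
      ((h 1 ^ 2 - h 0 ^ 3, Projectivization.mk ℂ (φ h) (hφne h hh)) : ℂ × ℙ ℂ (Ix D → ℂ)) =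
      (gU D (h 0, h 1, h 2)).1 := by
    intro h hh
    refine Prod.ext rfl ?_
    change Projectivization.mk ℂ _ _ = Projectivization.mk ℂ _ _
    rw [Projectivization.mk_eq_mk_iff']
    exact ⟨l (h 2), (hφ h).symm⟩
  refine ⟨{
    V := VU u0 r'
    a := fun h => h 1 ^ 2 - h 0 ^ 3
    φ := φ
    isOpen_V := isOpen_VU _ _
    holo_a := by fun_prop
    holo_φ := diffOn_Zl D E W _ _ hball hd hWd
    φ_ne := hφne
    mem := fun h hh => by rw [heq h hh]; exact (gU D _).2
    openEmbedding := ?_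
    immersion := ?_ }, ?_, rfl, ?_⟩
  · have e : (fun v : VU u0 r' => (⟨(v.1 1 ^ 2 - v.1 0 ^ 3,
        Projectivization.mk ℂ (φ v) (hφne v v.2)), by rw [heq v v.2]; exact (gU D _).2⟩ :
        ↥(XX D))) = fun v : VU u0 r' => gU D (e3 v.1) := by
      funext v
      exact Subtype.ext (heq v v.2)
    refine e ▸ oe_aux (gU D) (continuous_gU D) (open_gU D) (fun v : VU u0 r' => e3 v.1)
      (e3.isOpenEmbedding.comp (isOpen_VU _ _).isOpenEmbedding_subtypeVal) ?_
    intro v v' hvv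
    obtain ⟨m, n, hu, hx, hy⟩ := (gU_eq_iff D _ _ _ _ _ _).1 hvv
    obtain ⟨rfl, rfl⟩ := lat_small u0 _ _ r' hr2 v.2 v'.2 m n hu
    simp only [mul_zero, zpow_zero, one_mul, Int.cast_zero, add_zero, zero_mul] at hx hy hu
    apply Subtype.ext
    funext i
    fin_cases i
    · exact hx
    · exact hy
    · exact hu.symm
  · rintro h hh k - ⟨c, hc⟩
    have hb := hball h hh
    have hEd : DifferentiableAt ℂ E (h 2) := hd.differentiableAt (Metric.isOpen_ball.mem_nhds hb)
    let W' : (Fin 3 → ℂ) →L[ℂ] (Fin 3 → ℂ) := ContinuousLinearMap.pi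
      ![ContinuousLinearMap.proj 0, ContinuousLinearMap.proj 1, 0]
    have hW' : HasFDerivAt W W' h := by
      rw [hasFDerivAt_pi']
      intro i
      fin_cases i
      · exact (ContinuousLinearMap.proj (R := ℂ) (φ := fun _ : Fin 3 => ℂ) 0).hasFDerivAt
      · exact (ContinuousLinearMap.proj (R := ℂ) (φ := fun _ : Fin 3 => ℂ) 1).hasFDerivAt
      · exact hasFDerivAt_const (1 : ℂ) h
    obtain ⟨hk2, hk⟩ := imm_aux D E W h hEd (him _ hb)
      (smul_ne_zero (hl _ hb) (elU_ne _)) W' hW' 2 one_ne_zero k c hc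
    have c0 : c = 0 := by
      have h1 := congrFun hk 2
      change (0 : ℂ) = c * 1 at h1
      rw [mul_one] at h1
      exact h1.symm
    have h0 : k 0 = c * h 0 := congrFun hk 0
    have h1 : k 1 = c * h 1 := congrFun hk 1
    rw [c0, zero_mul] at h0 h1
    funext i
    fin_cases i
    · exact h0
    · exact h1
    · exact hk2
  · intro x y
    exact Metric.mem_ball_self hr'
  · intro x y hv
    exact heq _ hv

lemma chartV (u0 : ℂ) : ∃ P : LocalParam 3 (XX D),
    (∀ z t, 0 < (1 + t * z ^ 6).re → ![z, t, u0] ∈ P.V) ∧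
    (P.a = fun h => h 1) ∧
    ∀ (z t : ℂ) (h : 0 < (1 + t * z ^ 6).re) hv,
      P.pt ![z, t, u0] hv = (gV D ⟨(z, t, u0), h⟩).1 := by
  obtain ⟨r, hr, l, hl, hd, him⟩ := elU_props.2.2.2.2 u0
  let r' : ℝ := min r (1 / 2)
  have hr' : 0 < r' := lt_min hr (by norm_num)
  have hr1 : r' ≤ r := min_le_left _ _
  have hr2 : r' ≤ 1 / 2 := min_le_right _ _
  let E : ℂ → Fin 3 → ℂ := fun u => l u • elU u
  let W : (Fin 3 → ℂ) → Fin 3 → ℂ := fun h => ![h 0, sq (h 1) (h 0), h 0 ^ 3]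
  let φ : (Fin 3 → ℂ) → (Ix D → ℂ) := fun h => Zl D (E (h 2)) (W h) (h 2)
  have hW1 : ∀ h ∈ VV u0 r', W h 1 ≠ 0 := fun h hh => sq_ne hh.1
  have hWne : ∀ h ∈ VV u0 r', W h ≠ 0 := by
    intro h hh h0
    exact hW1 h hh (congrFun h0 1)
  have hball : ∀ h ∈ VV u0 r', h 2 ∈ Metric.ball u0 r := fun h hh =>
    Metric.ball_subset_ball hr1 hh.2
  have hφ : ∀ h, φ h = l (h 2) • Zc D (h 2) (W h) := fun h => Zl_smul D _ _ _
  have hφne : ∀ h ∈ VV u0 r', φ h ≠ 0 := by
    intro h hh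
    rw [hφ]
    exact smul_ne_zero (hl _ (hball h hh)) (Zc_ne D _ (hWne h hh))
  have hsq : ∀ h ∈ VV u0 r', DifferentiableAt ℂ (fun h : Fin 3 → ℂ => sq (h 1) (h 0)) h := by
    intro h hh
    unfold sq
    have h1 : DifferentiableAt ℂ (fun h : Fin 3 → ℂ => 1 + h 1 * h 0 ^ 6) h := by fun_prop
    exact h1.cpow (differentiableAt_const _) (Or.inl hh.1)
  have hWd : DifferentiableOn ℂ W (VV u0 r') := by
    rw [differentiableOn_pi]
    intro i
    fin_cases i
    · change DifferentiableOn ℂ (fun h : Fin 3 → ℂ => h 0) _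
      fun_prop
    · exact fun h hh => (hsq h hh).differentiableWithinAt
    · change DifferentiableOn ℂ (fun h : Fin 3 → ℂ => h 0 ^ 3) _
      fun_prop
  have heq : ∀ h, ∀ hh : h ∈ VV u0 r',
      ((h 1, Projectivization.mk ℂ (φ h) (hφne h hh)) : ℂ × ℙ ℂ (Ix D → ℂ)) =
      (gV D ⟨(h 0, h 1, h 2), hh.1⟩).1 := by
    intro h hh
    refine Prod.ext rfl ?_
    change Projectivization.mk ℂ _ _ = Projectivization.mk ℂ _ _
    rw [Projectivization.mk_eq_mk_iff']
    exact ⟨l (h 2), (hφ h).symm⟩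
  refine ⟨{
    V := VV u0 r'
    a := fun h => h 1
    φ := φ
    isOpen_V := isOpen_VV _ _
    holo_a := by fun_prop
    holo_φ := diffOn_Zl D E W _ _ hball hd hWd
    φ_ne := hφne
    mem := fun h hh => by rw [heq h hh]; exact (gV D _).2
    openEmbedding := ?_
    immersion := ?_ }, ?_, rfl, ?_⟩
  · have e : (fun v : VV u0 r' => (⟨(v.1 1,
        Projectivization.mk ℂ (φ v) (hφne v v.2)), by rw [heq v v.2]; exact (gV D _).2⟩ :
        ↥(XX D))) = fun v : VV u0 r' => gV D ⟨(v.1 0, v.1 1, v.1 2), v.2.1⟩ := by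
      funext v
      exact Subtype.ext (heq v v.2)
    have hOm : IsOpenEmbedding (fun p : Om => p.1) := by
      refine IsOpen.isOpenEmbedding_subtypeVal ?_
      exact isOpen_lt continuous_const (Complex.continuous_re.comp (by fun_prop))
    have he : IsOpenEmbedding (fun v : VV u0 r' => (⟨(v.1 0, v.1 1, v.1 2), v.2.1⟩ : Om)) := by
      refine IsOpenEmbedding.of_comp _ hOm ?_
      exact e3.isOpenEmbedding.comp (isOpen_VV _ _).isOpenEmbedding_subtypeVal
    refine e ▸ oe_aux (gV D) (continuous_gV D) (open_gV D) _ he ?_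
    intro v v' hvv
    obtain ⟨ht, m, n, hu, hz⟩ := (gV_eq_iff D _ _).1 hvv
    obtain ⟨rfl, rfl⟩ := lat_small u0 _ _ r' hr2 v.2.2 v'.2.2 m n hu
    simp only [neg_zero, zpow_zero, one_mul, Int.cast_zero, add_zero, zero_mul] at hz hu
    apply Subtype.ext
    funext i
    fin_cases i
    · exact hz
    · exact ht
    · exact hu.symm
  · rintro h hh k hka ⟨c, hc⟩
    have hk1 : k 1 = 0 := by
      have : HasFDerivAt (fun x : Fin 3 → ℂ => x 1) (ContinuousLinearMap.proj (R := ℂ) 1) h :=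
        (ContinuousLinearMap.proj (R := ℂ) (φ := fun _ : Fin 3 => ℂ) 1).hasFDerivAt
      rw [this.fderiv] at hka
      exact hka
    have hb := hball h hh
    have hEd : DifferentiableAt ℂ E (h 2) := hd.differentiableAt (Metric.isOpen_ball.mem_nhds hb)
    let s' : (Fin 3 → ℂ) →L[ℂ] ℂ := fderiv ℂ (fun h : Fin 3 → ℂ => sq (h 1) (h 0)) h
    have hs' : HasFDerivAt (fun h : Fin 3 → ℂ => sq (h 1) (h 0)) s' h := (hsq h hh).hasFDerivAt
    have p0 : HasFDerivAt (fun x : Fin 3 → ℂ => x 0) (ContinuousLinearMap.proj (R := ℂ) 0) h :=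
      (ContinuousLinearMap.proj (R := ℂ) (φ := fun _ : Fin 3 => ℂ) 0).hasFDerivAt
    have p1 : HasFDerivAt (fun x : Fin 3 → ℂ => x 1) (ContinuousLinearMap.proj (R := ℂ) 1) h :=
      (ContinuousLinearMap.proj (R := ℂ) (φ := fun _ : Fin 3 => ℂ) 1).hasFDerivAt
    have hss : 2 * sq (h 1) (h 0) * s' k = 6 * h 1 * h 0 ^ 5 * k 0 + h 0 ^ 6 * k 1 := by
      have a1 := hs'.mul hs'
      have a2 := (p1.mul (p0.pow 6)).const_add (1 : ℂ)
      have e : (fun y : Fin 3 → ℂ => sq (y 1) (y 0) * sq (y 1) (y 0)) =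
          fun y : Fin 3 → ℂ => 1 + y 1 * y 0 ^ 6 := by
        funext y
        rw [← sq_sq]
        ring
      have a3 := a1.congr_of_eventuallyEq (f₁ := fun y : Fin 3 → ℂ => 1 + y 1 * y 0 ^ 6)
        (Filter.Eventually.of_forall fun y => (congrFun e y).symm)
      have a4 := congrArg (fun L : (Fin 3 → ℂ) →L[ℂ] ℂ => L k) (a3.unique a2)
      simp at a4
      linear_combination a4
    let W' : (Fin 3 → ℂ) →L[ℂ] (Fin 3 → ℂ) := ContinuousLinearMap.pi
      ![ContinuousLinearMap.proj 0, s', (3 * h 0 ^ 2) • ContinuousLinearMap.proj 0]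
    have hW' : HasFDerivAt W W' h := by
      rw [hasFDerivAt_pi']
      intro i
      fin_cases i
      · exact p0
      · exact hs'
      · have := p0.pow 3
        refine this.congr_fderiv ?_
        ext x
        simp [W']
    obtain ⟨hk2, hk⟩ := imm_aux D E W h hEd (him _ hb)
      (smul_ne_zero (hl _ hb) (elU_ne _)) W' hW' 1 (hW1 h hh) k c hc
    have h0 : k 0 = c * h 0 := congrFun hk 0
    have h1 : s' k = c * sq (h 1) (h 0) := congrFun hk 1
    have h2 : (3 * h 0 ^ 2) * k 0 = c * h 0 ^ 3 := congrFun hk 2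
    have c0 : c = 0 := by
      by_contra hc0
      rw [h0] at h2
      have hz : h 0 = 0 := by
        have : (2 * c) * h 0 ^ 3 = 0 := by linear_combination h2
        rcases mul_eq_zero.1 this with h3 | h3
        · exact absurd h3 (mul_ne_zero two_ne_zero hc0)
        · exact pow_eq_zero_iff (by norm_num) |>.1 h3
      rw [h1, hk1, h0] at hss
      have e2 : 2 * c * sq (h 1) (h 0) ^ 2 = 0 := by
        rw [hz] at hss ⊢
        linear_combination hss
      exact mul_ne_zero (mul_ne_zero two_ne_zero hc0) (pow_ne_zero 2 (sq_ne hh.1)) e2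
    rw [c0, zero_mul] at h0
    funext i
    fin_cases i
    · exact h0
    · exact hk1
    · exact hk2
  · intro z t h
    exact ⟨h, Metric.mem_ball_self hr'⟩
  · intro z t h hv
    exact heq _ hv

end charts

end Pool.Agent.TH179.BE
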