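import Pool.Agent.TH179.BE.Hom

/-!
The homology of the fibres of a model.
-/

set_option autoImplicit false

open Topology

namespace Pool.Agent.TH179.BE

section mu

/-- a small positive number -/
noncomputable def mu (t0 t z : ℂ) : ℝ := ((1 + ‖t‖ + ‖t0‖) * (1 + ‖z‖))⁻¹

lemma mu_pos (t0 t z : ℂ) : 0 < mu t0 t z := by
  unfold mu
  positivity

lemma mu_le (t0 t z : ℂ) : mu t0 t z ≤ 1 := by
  unfold mu
  apply inv_le_one_of_one_le₀
  have h1 : 1 ≤ 1 + ‖t‖ + ‖t0‖ := by have := norm_nonneg t; have := norm_nonneg t0; linarith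
  have h2 : 1 ≤ 1 + ‖z‖ := by have := norm_nonneg z; linarith
  exact one_le_mul_of_one_le_of_one_le h1 h2

lemma mu_Om (t0 t z s : ℂ) (hs : ‖s‖ ≤ ‖t‖ + ‖t0‖) :
    0 < (1 + s * ((mu t0 t z : ℂ) * z) ^ 6).re := by
  have hz := norm_nonneg z
  have ht := norm_nonneg t
  have ht0 := norm_nonneg t0
  have hm := mu_pos t0 t z
  have h1 : ‖((mu t0 t z : ℂ) * z)‖ ≤ (1 + ‖t‖ + ‖t0‖)⁻¹ := by
    rw [norm_mul, Complex.norm_real, Real.norm_eq_abs, abs_of_pos hm, mu]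
    rw [mul_inv, mul_assoc]
    have : (1 + ‖z‖)⁻¹ * ‖z‖ ≤ 1 := by
      rw [inv_mul_le_iff₀ (by linarith)]
      linarith
    calc (1 + ‖t‖ + ‖t0‖)⁻¹ * ((1 + ‖z‖)⁻¹ * ‖z‖) ≤ (1 + ‖t‖ + ‖t0‖)⁻¹ * 1 :=
          mul_le_mul_of_nonneg_left this (by positivity)
      _ = _ := mul_one _
  have h2 : ‖((mu t0 t z : ℂ) * z)‖ ≤ 1 :=
    h1.trans (inv_le_one_of_one_le₀ (by linarith))
  have h3 : ‖s * ((mu t0 t z : ℂ) * z) ^ 6‖ < 1 := by
    rw [norm_mul, norm_pow]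
    have h4 : ‖((mu t0 t z : ℂ) * z)‖ ^ 6 ≤ ‖((mu t0 t z : ℂ) * z)‖ :=
      pow_le_of_le_one (norm_nonneg _) h2 (by norm_num)
    calc ‖s‖ * ‖((mu t0 t z : ℂ) * z)‖ ^ 6 ≤ (‖t‖ + ‖t0‖) * (1 + ‖t‖ + ‖t0‖)⁻¹ :=
          mul_le_mul hs (h4.trans h1) (by positivity) (by positivity)
      _ < 1 := by
        rw [← div_eq_mul_inv, div_lt_one (by linarith)]
        linarith
  have h5 : -(s * ((mu t0 t z : ℂ) * z) ^ 6).re ≤ ‖s * ((mu t0 t z : ℂ) * z) ^ 6‖ := by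
    have := Complex.abs_re_le_norm (s * ((mu t0 t z : ℂ) * z) ^ 6)
    have := neg_abs_le (s * ((mu t0 t z : ℂ) * z) ^ 6).re
    linarith
  rw [Complex.add_re, Complex.one_re]
  linarith

lemma continuous_mu {A : Type} [TopologicalSpace A] (t0 : ℂ) {f g : A → ℂ} (hf : Continuous f)
    (hg : Continuous g) : Continuous (fun a => mu t0 (f a) (g a)) := by
  unfold mu
  refine Continuous.inv₀ (by fun_prop) ?_
  intro a
  positivity

lemma mu_zeta (t0 t z : ℂ) (m : ℤ) : mu t0 t (zet ^ m * z) = mu t0 t z := by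
  rw [mu, mu, norm_mul, norm_zet_zpow, one_mul]

/-- the convex combination -/
noncomputable def ka (t0 t z : ℂ) (i : ℝ) : ℝ := i + (1 - i) * mu t0 t z

lemma ka_pos (t0 t z : ℂ) (i : unitInterval) : 0 < ka t0 t z i := by
  unfold ka
  have h1 := mu_pos t0 t z
  have h2 := i.2.1
  have h3 := i.2.2
  rcases h2.eq_or_lt with h | h
  · rw [← h]
    simpa using h1
  · have : 0 ≤ (1 - (i : ℝ)) * mu t0 t z := mul_nonneg (by linarith) h1.le
    linarith

lemma ka_le (t0 t z : ℂ) (i : unitInterval) : ka t0 t z i ≤ 1 := by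
  unfold ka
  have h1 := mu_le t0 t z
  have h2 := i.2.1
  have h3 := i.2.2
  nlinarith

lemma ka_Om (t0 t z : ℂ) (i : unitInterval) (h : 0 < (1 + t * z ^ 6).re) :
    0 < (1 + t * ((ka t0 t z i : ℂ) * z) ^ 6).re := by
  have := Om_mem z t (ka t0 t z i ^ 6) h (pow_nonneg (ka_pos _ _ _ _).le _)
    (pow_le_one₀ (ka_pos _ _ _ _).le (ka_le _ _ _ _))
  convert this using 3
  push_cast
  ring

end mu

section

variable {X : Type} [TopologicalSpace X] (M : Model X)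

/-- points of `PI` -/
def mkI (T : Set ℂ) (z t u : ℂ) (h : 0 < (1 + t * z ^ 6).re) (ht : t ∈ T) (hz : z ≠ 0) : PI T :=
  ⟨⟨(z, t, u), h⟩, ht, hz⟩

lemma continuous_mkI {A : Type} [TopologicalSpace A] (T : Set ℂ) (z t u : A → ℂ)
    (h : ∀ a, 0 < (1 + t a * z a ^ 6).re) (ht : ∀ a, t a ∈ T) (hz : ∀ a, z a ≠ 0)
    (cz : Continuous z) (ct : Continuous t) (cu : Continuous u) :
    Continuous (fun a => mkI T (z a) (t a) (u a) (h a) (ht a) (hz a)) :=
  Continuous.subtype_mk (Continuous.subtype_mk (cz.prodMk (ct.prodMk cu)) _) _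

lemma cI1 (T : Set ℂ) : Continuous (fun p : PI T => p.1.1.1) :=
  continuous_fst.comp (continuous_Om_val.comp continuous_subtype_val)
lemma cI2 (T : Set ℂ) : Continuous (fun p : PI T => p.1.1.2.1) :=
  continuous_fst.comp (continuous_snd.comp (continuous_Om_val.comp continuous_subtype_val))
lemma cI3 (T : Set ℂ) : Continuous (fun p : PI T => p.1.1.2.2) :=
  continuous_snd.comp (continuous_snd.comp (continuous_Om_val.comp continuous_subtype_val))

lemma HE_I (t0 : ℂ)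
    (j : C(↥(UT M {t0} ∩ VT M {t0}), ↥(UT M Set.univ ∩ VT M Set.univ)))
    (hj : ∀ x, (j x).1.1 = x.1.1) : IsHE j := by
  obtain ⟨g, hg, eg⟩ := exists_gI M {t0}
  obtain ⟨g', hg', eg'⟩ := exists_gI M Set.univ
  have hrel : ∀ p p', g p = g p' ↔ (p.1.1.2.1 = p'.1.1.2.1 ∧
      ∃ m n : ℤ, p'.1.1.2.2 = p.1.1.2.2 + m + n * Complex.I ∧
        p.1.1.1 = zet ^ (-m) * p'.1.1.1) := by
    intro p p'
    rw [← M.eq_V, ← eg, ← eg]
    constructor
    · intro h; rw [h]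
    · intro h; exact Subtype.ext (Subtype.ext h)
  have hrel' : ∀ p p', g' p = g' p' ↔ (p.1.1.2.1 = p'.1.1.2.1 ∧
      ∃ m n : ℤ, p'.1.1.2.2 = p.1.1.2.2 + m + n * Complex.I ∧
        p.1.1.1 = zet ^ (-m) * p'.1.1.1) := by
    intro p p'
    rw [← M.eq_V, ← eg', ← eg']
    constructor
    · intro h; rw [h]
    · intro h; exact Subtype.ext (Subtype.ext h)
  have hjg : ∀ p : PI {t0}, j (g p) = g' ⟨p.1, trivial, p.2.2⟩ := by
    intro p
    apply Subtype.ext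
    apply Subtype.ext
    rw [hj, eg, eg']
  have hmz : ∀ (t z : ℂ), z ≠ 0 → (mu t0 t z : ℂ) * z ≠ 0 := fun t z hz =>
    mul_ne_zero (Complex.ofReal_ne_zero.2 (mu_pos _ _ _).ne') hz
  have hkz : ∀ (t z : ℂ) (i : unitInterval), z ≠ 0 → (ka t0 t z i : ℂ) * z ≠ 0 := fun t z i hz =>
    mul_ne_zero (Complex.ofReal_ne_zero.2 (ka_pos _ _ _ _).ne') hz
  have kz : ∀ (t z : ℂ) (m : ℤ) (i : ℝ), ka t0 t (zet ^ m * z) i = ka t0 t z i := by
    intro t z m i
    rw [ka, ka, mu_zeta]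
  let R : C(PI Set.univ, PI {t0}) := ⟨fun p => mkI {t0} ((mu t0 p.1.1.2.1 p.1.1.1 : ℂ) * p.1.1.1)
    t0 p.1.1.2.2 (mu_Om _ _ _ _ (by have := norm_nonneg p.1.1.2.1; linarith)) rfl (hmz _ _ p.2.2),
    continuous_mkI _ _ _ _ _ _ _ ((Complex.continuous_ofReal.comp
      (continuous_mu t0 (cI2 _) (cI1 _))).mul (cI1 _)) continuous_const (cI3 _)⟩
  let Mm : C(PI Set.univ, PI Set.univ) := ⟨fun p => mkI Set.univ
    ((mu t0 p.1.1.2.1 p.1.1.1 : ℂ) * p.1.1.1)
    p.1.1.2.1 p.1.1.2.2 (mu_Om _ _ _ _ (by have := norm_nonneg t0; linarith)) trivial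
      (hmz _ _ p.2.2),
    continuous_mkI _ _ _ _ _ _ _ ((Complex.continuous_ofReal.comp
      (continuous_mu t0 (cI2 _) (cI1 _))).mul (cI1 _)) (cI2 _) (cI3 _)⟩
  obtain ⟨r, hr⟩ := oq_desc' hg' (fun p => g (R p)) (hg.continuous.comp R.continuous) (by
    intro p p' h
    obtain ⟨ht, m, n, hu, hz⟩ := (hrel' p p').1 h
    rw [hrel]
    refine ⟨rfl, m, n, hu, ?_⟩
    change (mu t0 p.1.1.2.1 p.1.1.1 : ℂ) * p.1.1.1 =
      _ * ((mu t0 p'.1.1.2.1 p'.1.1.1 : ℂ) * p'.1.1.1)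
    rw [ht, hz, mu_zeta]
    ring)
  obtain ⟨mm, hmm⟩ := oq_desc' hg' (fun p => g' (Mm p)) (hg'.continuous.comp Mm.continuous) (by
    intro p p' h
    obtain ⟨ht, m, n, hu, hz⟩ := (hrel' p p').1 h
    rw [hrel']
    refine ⟨ht, m, n, hu, ?_⟩
    change (mu t0 p.1.1.2.1 p.1.1.1 : ℂ) * p.1.1.1 =
      _ * ((mu t0 p'.1.1.2.1 p'.1.1.1 : ℂ) * p'.1.1.1)
    rw [ht, hz, mu_zeta]
    ring)
  have cka : ∀ T : Set ℂ, Continuous (fun z : PI T × unitInterval =>
      (ka t0 z.1.1.1.2.1 z.1.1.1.1 z.2 : ℂ) * z.1.1.1.1) := by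
    intro T
    unfold ka
    have e1 : Continuous (fun z : PI T × unitInterval => z.1.1.1.1) := (cI1 T).comp continuous_fst
    have e2 : Continuous (fun z : PI T × unitInterval => z.1.1.1.2.1) := (cI2 T).comp continuous_fst
    have e3 := continuous_mu t0 e2 e1
    exact (Complex.continuous_ofReal.comp (by fun_prop)).mul e1
  refine isHE_of_inv j r ?_ ?_
  · -- `j ∘ r ~ id`
    have s1 : (j.comp r).Homotopic mm := by
      refine homotopic_gen hg' hg' _ _ ⟨fun z => mkI Set.univ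
        ((mu t0 z.1.1.1.2.1 z.1.1.1.1 : ℂ) * z.1.1.1.1)
        (((z.2 : ℝ) : ℂ) * z.1.1.1.2.1 + (1 - ((z.2 : ℝ) : ℂ)) * t0) z.1.1.1.2.2
        (mu_Om _ _ _ _ ?_) trivial (hmz _ _ z.1.2.2), ?_⟩ ?_ ?_ ?_
      · refine (norm_add_le _ _).trans ?_
        have h1 : (1 - ((z.2 : ℝ) : ℂ)) = ((1 - (z.2 : ℝ) : ℝ) : ℂ) := by push_cast; ring
        rw [h1, norm_mul, norm_mul, Complex.norm_real, Complex.norm_real, Real.norm_eq_abs,
          Real.norm_eq_abs, abs_of_nonneg z.2.2.1, abs_of_nonneg (by linarith [z.2.2.2])]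
        have h2 := mul_le_mul_of_nonneg_right z.2.2.2 (norm_nonneg z.1.1.1.2.1)
        have h3 : (1 - (z.2 : ℝ)) * ‖t0‖ ≤ 1 * ‖t0‖ :=
          mul_le_mul_of_nonneg_right (by linarith [z.2.2.1]) (norm_nonneg t0)
        linarith
      · have e1 : Continuous (fun z : PI Set.univ × unitInterval => z.1.1.1.1) :=
          (cI1 _).comp continuous_fst
        have e2 : Continuous (fun z : PI Set.univ × unitInterval => z.1.1.1.2.1) :=
          (cI2 _).comp continuous_fst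
        have e4 : Continuous (fun z : PI Set.univ × unitInterval => z.1.1.1.2.2) :=
          (cI3 _).comp continuous_fst
        have e3 := continuous_mu t0 e2 e1
        refine continuous_mkI _ _ _ _ _ _ _ ((Complex.continuous_ofReal.comp e3).mul e1) ?_ e4
        exact (Continuous.mul (by fun_prop) e2).add (by fun_prop)
      · intro p p' h i
        obtain ⟨ht, m, n, hu, hz⟩ := (hrel' p p').1 h
        rw [hrel']
        refine ⟨?_, m, n, hu, ?_⟩
        · change ((i : ℝ) : ℂ) * p.1.1.2.1 + (1 - ((i : ℝ) : ℂ)) * t0 =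
            ((i : ℝ) : ℂ) * p'.1.1.2.1 + (1 - ((i : ℝ) : ℂ)) * t0
          rw [ht]
        · change (mu t0 p.1.1.2.1 p.1.1.1 : ℂ) * p.1.1.1 =
            _ * ((mu t0 p'.1.1.2.1 p'.1.1.1 : ℂ) * p'.1.1.1)
          rw [ht, hz, mu_zeta]
          ring
      · intro p
        change g' _ = j (r (g' p))
        rw [hr, hjg]
        congr 1
        apply Subtype.ext
        apply Subtype.ext
        change ((mu t0 p.1.1.2.1 p.1.1.1 : ℂ) * p.1.1.1,
          (((0 : unitInterval) : ℝ) : ℂ) * p.1.1.2.1 + (1 - (((0 : unitInterval) : ℝ) : ℂ)) * t0,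
          p.1.1.2.2) = ((mu t0 p.1.1.2.1 p.1.1.1 : ℂ) * p.1.1.1, t0, p.1.1.2.2)
        simp
      · intro p
        rw [hmm]
        congr 1
        apply Subtype.ext
        apply Subtype.ext
        change ((mu t0 p.1.1.2.1 p.1.1.1 : ℂ) * p.1.1.1,
          (((1 : unitInterval) : ℝ) : ℂ) * p.1.1.2.1 + (1 - (((1 : unitInterval) : ℝ) : ℂ)) * t0,
          p.1.1.2.2) = ((mu t0 p.1.1.2.1 p.1.1.1 : ℂ) * p.1.1.1, p.1.1.2.1, p.1.1.2.2)
        simp
    refine s1.trans ?_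
    refine homotopic_gen hg' hg' _ _ ⟨fun z => mkI Set.univ
      ((ka t0 z.1.1.1.2.1 z.1.1.1.1 z.2 : ℂ) * z.1.1.1.1) z.1.1.1.2.1 z.1.1.1.2.2
      (ka_Om _ _ _ _ z.1.1.2) trivial (hkz _ _ _ z.1.2.2), ?_⟩ ?_ ?_ ?_
    · exact continuous_mkI _ _ _ _ _ _ _ (cka _) ((cI2 _).comp continuous_fst)
        ((cI3 _).comp continuous_fst)
    · intro p p' h i
      obtain ⟨ht, m, n, hu, hz⟩ := (hrel' p p').1 h
      rw [hrel']
      refine ⟨ht, m, n, hu, ?_⟩
      change (ka t0 p.1.1.2.1 p.1.1.1 i : ℂ) * p.1.1.1 =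
        _ * ((ka t0 p'.1.1.2.1 p'.1.1.1 i : ℂ) * p'.1.1.1)
      rw [ht, hz, kz]
      ring
    · intro p
      rw [hmm]
      congr 1
      apply Subtype.ext
      apply Subtype.ext
      change ((ka t0 p.1.1.2.1 p.1.1.1 (0 : unitInterval) : ℂ) * p.1.1.1, p.1.1.2.1, p.1.1.2.2) =
        ((mu t0 p.1.1.2.1 p.1.1.1 : ℂ) * p.1.1.1, p.1.1.2.1, p.1.1.2.2)
      rw [ka]
      simp
    · intro p
      change g' _ = g' p
      congr 1
      apply Subtype.ext
      apply Subtype.ext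
      change ((ka t0 p.1.1.2.1 p.1.1.1 (1 : unitInterval) : ℂ) * p.1.1.1, p.1.1.2.1, p.1.1.2.2) =
        p.1.1
      rw [ka]
      simp
  · -- `r ∘ j ~ id`
    refine homotopic_gen hg hg _ _ ⟨fun z => mkI {t0}
      ((ka t0 z.1.1.1.2.1 z.1.1.1.1 z.2 : ℂ) * z.1.1.1.1) z.1.1.1.2.1 z.1.1.1.2.2
      (ka_Om _ _ _ _ z.1.1.2) z.1.2.1 (hkz _ _ _ z.1.2.2), ?_⟩ ?_ ?_ ?_
    · exact continuous_mkI _ _ _ _ _ _ _ (cka _) ((cI2 _).comp continuous_fst)
        ((cI3 _).comp continuous_fst)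
    · intro p p' h i
      obtain ⟨ht, m, n, hu, hz⟩ := (hrel p p').1 h
      rw [hrel]
      refine ⟨ht, m, n, hu, ?_⟩
      change (ka t0 p.1.1.2.1 p.1.1.1 i : ℂ) * p.1.1.1 =
        _ * ((ka t0 p'.1.1.2.1 p'.1.1.1 i : ℂ) * p'.1.1.1)
      rw [ht, hz, kz]
      ring
    · intro p
      change g _ = r (j (g p))
      rw [hjg, hr]
      congr 1
      apply Subtype.ext
      apply Subtype.ext
      have h0 : p.1.1.2.1 = t0 := p.2.1
      change ((ka t0 p.1.1.2.1 p.1.1.1 (0 : unitInterval) : ℂ) * p.1.1.1, p.1.1.2.1, p.1.1.2.2) =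
        ((mu t0 p.1.1.2.1 p.1.1.1 : ℂ) * p.1.1.1, t0, p.1.1.2.2)
      rw [ka, h0]
      simp
    · intro p
      change g _ = g p
      congr 1
      apply Subtype.ext
      apply Subtype.ext
      change ((ka t0 p.1.1.2.1 p.1.1.1 (1 : unitInterval) : ℂ) * p.1.1.1, p.1.1.2.1, p.1.1.2.2) =
        p.1.1
      rw [ka]
      simp

end

/-- The homology of the fibres. -/
theorem taskHom (hMV : TaskMV) (hT : TaskTref) : TaskHom := by
  intro X _ M
  obtain ⟨π, hπU, hπV⟩ := exists_pi M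
  refine ⟨{Set.univ}, ?_, ?_, ?_⟩
  · rintro U rfl
    exact isOpen_univ
  · intro y
    exact ⟨Set.univ, rfl, trivial⟩
  rintro U hU t ht n
  rw [Set.mem_singleton_iff] at hU
  subst hU
  apply bridge
  have hc : M.f ⁻¹' {t} ⊆ M.f ⁻¹' Set.univ := fun _ _ => trivial
  let jf : C(↥(M.f ⁻¹' {t}), ↥(M.f ⁻¹' Set.univ)) := inclusionMap hc
  let jU : C(↥(UT M {t}), ↥(UT M Set.univ)) := ⟨fun x => ⟨jf x.1, x.2⟩, by fun_prop⟩
  let jV : C(↥(VT M {t}), ↥(VT M Set.univ)) := ⟨fun x => ⟨jf x.1, x.2⟩, by fun_prop⟩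
  let jI : C(↥(UT M {t} ∩ VT M {t}), ↥(UT M Set.univ ∩ VT M Set.univ)) :=
    ⟨fun x => ⟨jf x.1, x.2⟩, by fun_prop⟩
  have hcov : ∀ (T : Set ℂ) (x : ↥(M.f ⁻¹' T)), x ∈ UT M T ∨ x ∈ VT M T := by
    intro T x
    exact M.cover x.1
  refine hMV _ _ (UT M {t}) (VT M {t}) (UT M Set.univ) (VT M Set.univ) jf jU jV jI
    (isOpen_UT M _) (isOpen_VT M _) (hcov _) (isOpen_UT M _) (isOpen_VT M _) (hcov _)
    (fun _ => rfl) (fun _ => rfl) (fun _ => rfl) ?_ ?_ ?_
  · have h1 := (HE_U' M π hT hπU t).1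
    have h2 := (HE_U M π hπU Set.univ (Or.inl rfl)).1
    exact IsHE.of_comp_left (g := res2 M π Set.univ (UT M Set.univ)) h2 h1
  · have h1 : IsHE (res2 M π {t} (VT M {t})) := by
      refine (HE_V M π hπV {t} t (ContinuousMap.const _ 1) rfl rfl ?_ ?_).1
      · intro s hs i
        rw [Set.mem_singleton_iff] at hs ⊢
        rw [hs]
        simp
      · intro s hs
        rw [Set.mem_singleton_iff] at hs
        rw [hs]
        simp
    have h2 : IsHE (res2 M π Set.univ (VT M Set.univ)) := by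
      refine (HE_V M π hπV Set.univ 0 (ContinuousMap.id _) rfl trivial ?_ ?_).1
      · intro s hs i
        trivial
      · intro s hs
        simp
    exact IsHE.of_comp_left (g := res2 M π Set.univ (VT M Set.univ)) h2 h1
  · exact HE_I M t jI (fun _ => rfl)

/-- The fibres are path connected. -/
theorem fib_conn (hT : TaskTref) {X : Type} [TopologicalSpace X] (M : Model X) (t : ℂ) :
    PathConnectedSpace ↥(M.f ⁻¹' {t}) := by
  obtain ⟨π, hπU, hπV⟩ := exists_pi M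
  have pU := (HE_U' M π hT hπU t).2
  have pV : PathConnectedSpace ↥(VT M {t}) := by
    refine (HE_V M π hπV {t} t (ContinuousMap.const _ 1) rfl rfl ?_ ?_).2
    · intro s hs i
      rw [Set.mem_singleton_iff] at hs ⊢
      rw [hs]
      simp
    · intro s hs
      rw [Set.mem_singleton_iff] at hs
      rw [hs]
      simp
  have iU := isPathConnected_iff_pathConnectedSpace.2 pU
  have iV := isPathConnected_iff_pathConnectedSpace.2 pV
  obtain ⟨g, hg, eg⟩ := exists_gI M {t}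
  have hz : (mu t t 1 : ℂ) * 1 ≠ 0 := by
    rw [mul_one]
    exact Complex.ofReal_ne_zero.2 (mu_pos _ _ _).ne'
  have hne : (UT M {t} ∩ VT M {t}).Nonempty := by
    let q : PI {t} := mkI {t} ((mu t t 1 : ℂ) * 1) t 0 (mu_Om t t 1 t (by
      have := norm_nonneg t
      linarith)) rfl hz
    exact ⟨(g q).1, (g q).2⟩
  have hun := iU.union iV hne
  have : UT M {t} ∪ VT M {t} = Set.univ := Set.eq_univ_of_forall fun x => M.cover x.1
  rw [this] at hun
  exact pathConnectedSpace_iff_univ.2 hun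

end Pool.Agent.TH179.BE
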