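import Pool.Agent.TH179.BE.Crit
import Pool.Agent.TH179.BE.HomI
import Pool.Agent.TH317.J369
import Pool.Agent.TH670.J371

/-!
The family of bielliptic surfaces: final assembly.
-/

set_option autoImplicit false

open scoped LinearAlgebra.Projectivization
open Topology

attribute [-instance] Pool.Agent.Helper922.MR.instTopProj

namespace Pool.Agent.TH179.BE

variable (D : ThetaData)

theorem isClosedSubmanifold_XX : IsClosedSubmanifold 3 (XX D) := by
  refine ⟨isClosed_XX D, ?_⟩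
  rintro p hp
  rcases (theModel D).cover ⟨p, hp⟩ with ⟨⟨x, y, u⟩, h⟩ | ⟨⟨⟨z, t, u⟩, hz⟩, h⟩
  · obtain ⟨P, hP, -, hpt⟩ := chartU D u
    refine ⟨P, _, hP x y, ?_⟩
    rw [hpt]
    exact congrArg Subtype.val h
  · obtain ⟨P, hP, -, hpt⟩ := chartV D u
    refine ⟨P, _, hP z t hz, ?_⟩
    rw [hpt z t hz]
    exact congrArg Subtype.val h

theorem regular_XX (p : ℂ × ℙ ℂ (Ix D → ℂ)) (hp : p ∈ XX D) (h0 : p.1 ≠ 0) :
    IsRegularAt 3 (XX D) p := by
  have p0 : ∀ h : Fin 3 → ℂ, HasFDerivAt (fun x : Fin 3 → ℂ => x 0)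
      (ContinuousLinearMap.proj (R := ℂ) 0) h := fun h =>
    (ContinuousLinearMap.proj (R := ℂ) (φ := fun _ : Fin 3 => ℂ) 0).hasFDerivAt
  have p1 : ∀ h : Fin 3 → ℂ, HasFDerivAt (fun x : Fin 3 → ℂ => x 1)
      (ContinuousLinearMap.proj (R := ℂ) 1) h := fun h =>
    (ContinuousLinearMap.proj (R := ℂ) (φ := fun _ : Fin 3 => ℂ) 1).hasFDerivAt
  rcases (theModel D).cover ⟨p, hp⟩ with ⟨⟨x, y, u⟩, h⟩ | ⟨⟨⟨z, t, u⟩, hz⟩, h⟩
  · obtain ⟨P, hP, ha, hpt⟩ := chartU D u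
    have hpp : P.pt ![x, y, u] (hP x y) = p := by
      rw [hpt]
      exact congrArg Subtype.val h
    refine ⟨P, _, hP x y, hpp, ?_⟩
    have ht : p.1 = y ^ 2 - x ^ 3 := by
      have := congrArg (fun q : ↥(XX D) => q.1.1) h
      exact this.symm
    have hd : HasFDerivAt (fun h : Fin 3 → ℂ => h 1 ^ 2 - h 0 ^ 3)
        ((2 * y) • (ContinuousLinearMap.proj (R := ℂ) (φ := fun _ : Fin 3 => ℂ) 1) -
          (3 * x ^ 2) • (ContinuousLinearMap.proj (R := ℂ) (φ := fun _ : Fin 3 => ℂ) 0))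
        ![x, y, u] := by
      refine (((p1 _).pow 2).sub ((p0 _).pow 3)).congr_fderiv ?_
      ext k
      simp
    by_cases hy : y = 0
    · refine ⟨![1, 0, 0], ?_⟩
      have hx : x ≠ 0 := by
        rintro rfl
        rw [hy] at ht
        apply h0
        rw [ht]
        norm_num
      rw [ha, hd.fderiv]
      simpa using hx
    · refine ⟨![0, 1, 0], ?_⟩
      rw [ha, hd.fderiv]
      simpa using hy
  · obtain ⟨P, hP, ha, hpt⟩ := chartV D u
    refine ⟨P, _, hP z t hz, ?_, ![0, 1, 0], ?_⟩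
    · rw [hpt z t hz]
      exact congrArg Subtype.val h
    · rw [ha, (p1 ![z, t, u]).fderiv]
      simp

theorem conn_XX (t : ℂ) : IsPathConnected {q : ℙ ℂ (Ix D → ℂ) | (t, q) ∈ XX D} := by
  have h := fib_conn TH670.J371.taskTref (theModel D) t
  have h1 := pathConnectedSpace_iff_univ.1 h
  have hc : Continuous (fun x : ↥((theModel D).f ⁻¹' {t}) => x.1.1.2) := by fun_prop
  have h2 := h1.image hc
  convert h2 using 1
  ext q
  constructor
  · intro hq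
    exact ⟨⟨⟨(t, q), hq⟩, rfl⟩, trivial, rfl⟩
  · rintro ⟨⟨⟨⟨t', q'⟩, hq⟩, ht⟩, -, rfl⟩
    have : t' = t := ht
    subst this
    exact hq

theorem bundle_XX : IsZHomologyFiberBundle (proj (XX D)) :=
  taskHom TH670.J370.taskMV TH670.J371.taskTref _ (theModel D)

theorem main : ∃ (ι : Type) (_ : Fintype ι) (X : Set (ℂ × ℙ ℂ (ι → ℂ))),
    IsClosedSubmanifold 3 X ∧ (∀ t : ℂ, IsPathConnected {q : ℙ ℂ (ι → ℂ) | (t, q) ∈ X}) ∧
    (∀ p ∈ X, p.1 ≠ 0 → IsRegularAt 3 X p) ∧ IsZHomologyFiberBundle (proj X) ∧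
    ∃ p ∈ X, p.1 = 0 ∧ ¬ IsRegularAt 3 X p := by
  obtain ⟨D⟩ := TH317.J369.taskTheta
  refine ⟨Ix D, inferInstance, XX D, isClosedSubmanifold_XX D, conn_XX D, regular_XX D,
    bundle_XX D, (gU D (0, 0, 0)).1, (gU D (0, 0, 0)).2, ?_, not_regular D⟩
  change (0 : ℂ) ^ 2 - 0 ^ 3 = 0
  norm_num

end Pool.Agent.TH179.BE
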