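import Pool.Agent.TH179.BE.Link2

/-!
The homology of the fibres of a model.
-/

set_option autoImplicit false

open Topology

namespace Pool.Agent.TH179.BE

lemma bridge {X Y : Type} [TopologicalSpace X] [TopologicalSpace Y] (f : C(X, Y)) (h : IsHE f)
    (n : ℕ) : Function.Bijective (Homology.map f n) := h n

section model

variable {X : Type} [TopologicalSpace X] (M : Model X)

lemma eq_U' (p p' : ℂ × ℂ × ℂ) : M.fU p = M.fU p' ↔ Rel p p' := by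
  obtain ⟨x, y, u⟩ := p
  obtain ⟨x', y', u'⟩ := p'
  exact M.eq_U x y u x' y' u'

lemma f_U' (p : ℂ × ℂ × ℂ) : M.f (M.fU p) = p.2.1 ^ 2 - p.1 ^ 3 := M.f_U p.1 p.2.1 p.2.2

lemma model_oq : IsOpenQuotientMap (Sum.elim M.fU M.fV) := by
  refine ⟨?_, M.cont_U.sumElim M.cont_V, M.open_U.sumElim M.open_V⟩
  intro x
  rcases M.cover x with ⟨p, hp⟩ | ⟨p, hp⟩
  · exact ⟨Sum.inl p, hp⟩
  · exact ⟨Sum.inr p, hp⟩

lemma continuous_Om_val : Continuous (fun p : Om => p.1) := continuous_subtype_val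

lemma exists_pi : ∃ π : C(X, Circle × Circle), (∀ p, π (M.fU p) = tc p.2.2) ∧
    ∀ p : Om, π (M.fV p) = tc p.1.2.2 := by
  have hUV : ∀ (q : ℂ × ℂ × ℂ) (p : Om), M.fU q = M.fV p → tc q.2.2 = tc p.1.2.2 := by
    intro q p h
    by_cases hz : p.1.1 = 0
    · exact absurd h (M.disj p hz q)
    · rw [M.trans p hz, eq_U'] at h
      obtain ⟨m, n, hu, -⟩ := h
      exact (tc_eq_iff _ _).2 ⟨m, n, hu⟩
  obtain ⟨π, hπ⟩ := oq_desc' (model_oq M)
    (Sum.elim (fun q => tc q.2.2) (fun p : Om => tc p.1.2.2)) (by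
      refine Continuous.sumElim (continuous_tc.comp (by fun_prop)) (continuous_tc.comp ?_)
      exact continuous_snd.comp (continuous_snd.comp continuous_Om_val)) (by
      rintro (q | p) (q' | p') h
      · change M.fU q = M.fU q' at h
        obtain ⟨m, n, hu, -⟩ := (eq_U' M q q').1 h
        exact (tc_eq_iff _ _).2 ⟨m, n, hu⟩
      · exact hUV q p' h
      · exact (hUV q' p h.symm).symm
      · change M.fV p = M.fV p' at h
        obtain ⟨-, m, n, hu, -⟩ := (M.eq_V p p').1 h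
        exact (tc_eq_iff _ _).2 ⟨m, n, hu⟩)
  exact ⟨π, fun p => hπ (Sum.inl p), fun p => hπ (Sum.inr p)⟩

/-- first open set -/
def UT (T : Set ℂ) : Set ↥(M.f ⁻¹' T) := {x | x.1 ∈ Set.range M.fU}
/-- second open set -/
def VT (T : Set ℂ) : Set ↥(M.f ⁻¹' T) := {x | x.1 ∈ Set.range M.fV}

lemma isOpen_UT (T : Set ℂ) : IsOpen (UT M T) :=
  M.open_U.isOpen_range.preimage continuous_subtype_val

lemma isOpen_VT (T : Set ℂ) : IsOpen (VT M T) :=
  M.open_V.isOpen_range.preimage continuous_subtype_val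

/-- parameters -/
def PU (T : Set ℂ) : Set (ℂ × ℂ × ℂ) := {p | p.2.1 ^ 2 - p.1 ^ 3 ∈ T}
/-- parameters -/
def PV (T : Set ℂ) : Set Om := {p | p.1.2.1 ∈ T}
/-- parameters -/
def PI (T : Set ℂ) : Set Om := {p | p.1.2.1 ∈ T ∧ p.1.1 ≠ 0}

lemma exists_gU (T : Set ℂ) : ∃ g : ↥(PU T) → ↥(UT M T), IsOpenQuotientMap g ∧
    ∀ p, (g p).1.1 = M.fU p.1 := by
  refine ⟨fun p => ⟨⟨M.fU p.1, ?_⟩, ⟨p.1, rfl⟩⟩, ?_, fun p => rfl⟩
  · rw [Set.mem_preimage, f_U']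
    exact p.2
  · refine isOpenQuotientMap_sub M.fU M.open_U M.cont_U Subtype.val IsInducing.subtypeVal
      (fun n : ↥(UT M T) => n.1.1) (IsInducing.subtypeVal.comp IsInducing.subtypeVal) ?_ _
      (fun w => rfl) Set.univ isOpen_univ (fun _ => trivial) ?_ ?_
    · intro a b h
      exact Subtype.ext (Subtype.ext h)
    · intro p _ n hn
      refine ⟨⟨p, ?_⟩, rfl⟩
      change p.2.1 ^ 2 - p.1 ^ 3 ∈ T
      rw [← f_U' M, hn]
      exact n.1.2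
    · intro n
      obtain ⟨p, hp⟩ := n.2
      exact ⟨p, trivial, hp⟩

lemma exists_gV (T : Set ℂ) : ∃ g : ↥(PV T) → ↥(VT M T), IsOpenQuotientMap g ∧
    ∀ p, (g p).1.1 = M.fV p.1 := by
  refine ⟨fun p => ⟨⟨M.fV p.1, ?_⟩, ⟨p.1, rfl⟩⟩, ?_, fun p => rfl⟩
  · rw [Set.mem_preimage, M.f_V]
    exact p.2
  · refine isOpenQuotientMap_sub M.fV M.open_V M.cont_V Subtype.val IsInducing.subtypeVal
      (fun n : ↥(VT M T) => n.1.1) (IsInducing.subtypeVal.comp IsInducing.subtypeVal) ?_ _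
      (fun w => rfl) Set.univ isOpen_univ (fun _ => trivial) ?_ ?_
    · intro a b h
      exact Subtype.ext (Subtype.ext h)
    · intro p _ n hn
      refine ⟨⟨p, ?_⟩, rfl⟩
      change p.1.2.1 ∈ T
      rw [← M.f_V, hn]
      exact n.1.2
    · intro n
      obtain ⟨p, hp⟩ := n.2
      exact ⟨p, trivial, hp⟩

lemma exists_gI (T : Set ℂ) : ∃ g : ↥(PI T) → ↥(UT M T ∩ VT M T), IsOpenQuotientMap g ∧
    ∀ p, (g p).1.1 = M.fV p.1 := by
  refine ⟨fun p => ⟨⟨M.fV p.1, ?_⟩, ⟨?_, p.1, rfl⟩⟩, ?_, fun p => rfl⟩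
  · rw [Set.mem_preimage, M.f_V]
    exact p.2.1
  · exact ⟨_, (M.trans p.1 p.2.2).symm⟩
  · refine isOpenQuotientMap_sub M.fV M.open_V M.cont_V Subtype.val IsInducing.subtypeVal
      (fun n : ↥(UT M T ∩ VT M T) => n.1.1)
      (IsInducing.subtypeVal.comp IsInducing.subtypeVal) ?_ _
      (fun w => rfl) {p : Om | p.1.1 ≠ 0} ?_ (fun w => w.2.2) ?_ ?_
    · intro a b h
      exact Subtype.ext (Subtype.ext h)
    · exact isOpen_ne.preimage (continuous_fst.comp continuous_Om_val)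
    · intro p hp n hn
      refine ⟨⟨p, ?_, hp⟩, rfl⟩
      rw [← M.f_V, hn]
      exact n.1.2
    · intro n
      obtain ⟨⟨q, hq⟩, p, hp⟩ := n.2
      refine ⟨p, ?_, hp⟩
      intro h0
      apply M.disj p h0 q
      rw [hq, hp]

end model

section sc

/-- scaling in `Om` -/
lemma Om_mem (z t : ℂ) (c : ℝ) (h : 0 < (1 + t * z ^ 6).re) (h0 : 0 ≤ c) (h1 : c ≤ 1) :
    0 < (1 + (c : ℂ) * (t * z ^ 6)).re := by
  rw [Complex.add_re, Complex.one_re, Complex.re_ofReal_mul]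
  rw [Complex.add_re, Complex.one_re] at h
  have := mul_lt_aux (c := c) (s := -(t * z ^ 6).re) (b := 1) one_pos (by linarith) h0 h1
  linarith

end sc

section HE

variable {X : Type} [TopologicalSpace X] (M : Model X) (π : C(X, Circle × Circle))

/-- restriction to a subspace of a subspace -/
noncomputable def res2 (T : Set ℂ) (S : Set ↥(M.f ⁻¹' T)) : C(↥S, Circle × Circle) :=
  ⟨fun x => π x.1.1, by fun_prop⟩

lemma HE_U (hU : ∀ p, π (M.fU p) = tc p.2.2) (T : Set ℂ) (hT : T = Set.univ ∨ T = {0}) :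
    IsHE (res2 M π T (UT M T)) ∧ PathConnectedSpace ↥(UT M T) := by
  obtain ⟨g, hg, eg⟩ := exists_gU M T
  have h00 : (0 : ℂ) ∈ T := by
    rcases hT with rfl | rfl
    · trivial
    · rfl
  have hs : ∀ t ∈ T, ∀ c : ℂ, c * t ∈ T := by
    rcases hT with rfl | rfl
    · intros; trivial
    · intro t ht c
      rw [Set.mem_singleton_iff] at ht ⊢
      rw [ht, mul_zero]
  have hrel : ∀ p p', g p = g p' ↔ Rel p.1 p'.1 := by
    intro p p'
    rw [← eq_U' M, ← eg, ← eg]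
    constructor
    · intro h; rw [h]
    · intro h; exact Subtype.ext (Subtype.ext h)
  have hm0 : ∀ u : ℂ, ((0, 0, u) : ℂ × ℂ × ℂ) ∈ PU T := by
    intro u
    change (0 : ℂ) ^ 2 - 0 ^ 3 ∈ T
    simpa using h00
  have hmh : ∀ z : PU T × unitInterval, ((((z.2 : ℝ) : ℂ) ^ 2 * z.1.1.1,
      ((z.2 : ℝ) : ℂ) ^ 3 * z.1.1.2.1, z.1.1.2.2) : ℂ × ℂ × ℂ) ∈ PU T := by
    intro z
    change (((z.2 : ℝ) : ℂ) ^ 3 * z.1.1.2.1) ^ 2 - (((z.2 : ℝ) : ℂ) ^ 2 * z.1.1.1) ^ 3 ∈ T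
    have := hs _ z.1.2 (((z.2 : ℝ) : ℂ) ^ 6)
    convert this using 1
    ring
  let b0 : C(ℂ, PU T) := ⟨fun u => ⟨(0, 0, u), hm0 u⟩, Continuous.subtype_mk (by fun_prop) _⟩
  let hh : C(PU T × unitInterval, PU T) :=
    ⟨fun z => ⟨(((z.2 : ℝ) : ℂ) ^ 2 * z.1.1.1, ((z.2 : ℝ) : ℂ) ^ 3 * z.1.1.2.1, z.1.1.2.2), hmh z⟩,
      Continuous.subtype_mk (by fun_prop) _⟩
  have h1 : ∀ p, g (hh (p, 1)) = g p := by
    intro p
    congr 1
    apply Subtype.ext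
    change ((((1 : unitInterval) : ℝ) : ℂ) ^ 2 * p.1.1, (((1 : unitInterval) : ℝ) : ℂ) ^ 3 * p.1.2.1,
      p.1.2.2) = p.1
    simp
  have h0 : ∀ p, g (hh (p, 0)) = g (b0 p.1.2.2) := by
    intro p
    congr 1
    apply Subtype.ext
    change ((((0 : unitInterval) : ℝ) : ℂ) ^ 2 * p.1.1, (((0 : unitInterval) : ℝ) : ℂ) ^ 3 *
      p.1.2.1, p.1.2.2) = (0, 0, p.1.2.2)
    simp
  refine ⟨isHE_gen hg (tck_oq 1 one_ne_zero) _ b0 ?_ ?_ hh ?_ h1 ?_,
    pconn_gen hg b0 hh h1 (fun p => ⟨_, h0 p⟩)⟩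
  · intro u u' h
    rw [← tc_eq_tck, ← tc_eq_tck, tc_eq_iff] at h
    obtain ⟨m, n, h⟩ := h
    rw [hrel]
    refine ⟨m, n, h, ?_, ?_⟩
    · change (0 : ℂ) = _ * 0
      rw [mul_zero]
    · change (0 : ℂ) = _ * 0
      rw [mul_zero]
  · intro u
    rw [← tc_eq_tck]
    change π (g _).1.1 = _
    rw [eg, hU]
    rfl
  · intro p p' h i
    rw [hrel] at h ⊢
    obtain ⟨m, n, hu, hx, hy⟩ := h
    refine ⟨m, n, hu, ?_, ?_⟩
    · change ((i : ℝ) : ℂ) ^ 2 * p.1.1 = _ * (((i : ℝ) : ℂ) ^ 2 * p'.1.1)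
      rw [hx]
      ring
    · change ((i : ℝ) : ℂ) ^ 3 * p.1.2.1 = _ * (((i : ℝ) : ℂ) ^ 3 * p'.1.2.1)
      rw [hy]
      ring
  · intro p
    refine ⟨p.1.2.2, ?_, h0 p⟩
    rw [← tc_eq_tck]
    change π (g _).1.1 = _
    rw [eg, hU]

lemma HE_U' (hT : TaskTref) (hU : ∀ p, π (M.fU p) = tc p.2.2) (t : ℂ) :
    IsHE (res2 M π {t} (UT M {t})) ∧ PathConnectedSpace ↥(UT M {t}) := by
  by_cases ht : t = 0
  · subst ht
    exact HE_U M π hU _ (Or.inr rfl)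
  obtain ⟨g, hg, eg⟩ := exists_gU M {t}
  refine isHE_link ht hT g hg ?_ _ ?_
  · change ∀ p p' : ↥(PU {t}), g p = g p' ↔ Rel p.1 p'.1
    intro p p'
    rw [← eq_U' M, ← eg, ← eg]
    constructor
    · intro h; rw [h]
    · intro h; exact Subtype.ext (Subtype.ext h)
  · change ∀ p : ↥(PU {t}), π (g p).1.1 = tc p.1.2.2
    intro p
    rw [eg, hU]

lemma HE_V (hV : ∀ p : Om, π (M.fV p) = tc p.1.2.2) (T : Set ℂ) (t0 : ℂ)
    (c : C(unitInterval, unitInterval)) (c1 : c 1 = 1) (hc0 : t0 ∈ T)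
    (hc : ∀ t ∈ T, ∀ i, ((c i : ℝ) : ℂ) * t ∈ T) (hc' : ∀ t ∈ T, ((c 0 : ℝ) : ℂ) * t = t0) :
    IsHE (res2 M π T (VT M T)) ∧ PathConnectedSpace ↥(VT M T) := by
  obtain ⟨g, hg, eg⟩ := exists_gV M T
  have hrel : ∀ p p', g p = g p' ↔ (p.1.1.2.1 = p'.1.1.2.1 ∧
      ∃ m n : ℤ, p'.1.1.2.2 = p.1.1.2.2 + m + n * Complex.I ∧
        p.1.1.1 = zet ^ (-m) * p'.1.1.1) := by
    intro p p'
    rw [← M.eq_V, ← eg, ← eg]
    constructor
    · intro h; rw [h]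
    · intro h; exact Subtype.ext (Subtype.ext h)
  have hm : ∀ (p : PV T) (i : unitInterval),
      0 < (1 + ((c i : ℝ) : ℂ) * p.1.1.2.1 * (((i : ℝ) : ℂ) * p.1.1.1) ^ 6).re := by
    intro p i
    have := Om_mem p.1.1.1 p.1.1.2.1 ((c i : ℝ) * (i : ℝ) ^ 6) p.1.2
      (mul_nonneg (c i).2.1 (pow_nonneg i.2.1 _))
      (mul_le_one₀ (c i).2.2 (pow_nonneg i.2.1 _) (pow_le_one₀ i.2.1 i.2.2))
    convert this using 3
    push_cast
    ring
  have cp : Continuous (fun z : PV T × unitInterval => z.1.1.1) :=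
    continuous_Om_val.comp (continuous_subtype_val.comp continuous_fst)
  let hf : PV T × unitInterval → PV T := fun z =>
      ⟨⟨(((z.2 : ℝ) : ℂ) * z.1.1.1.1, ((c z.2 : ℝ) : ℂ) * z.1.1.1.2.1, z.1.1.1.2.2),
      hm z.1 z.2⟩, hc _ z.1.2 z.2⟩
  have hch : Continuous hf := by
    refine Continuous.subtype_mk (Continuous.subtype_mk ?_ _) _
    have e1 : Continuous (fun z : PV T × unitInterval => z.1.1.1.1) := continuous_fst.comp cp
    have e2 : Continuous (fun z : PV T × unitInterval => z.1.1.1.2.1) :=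
      continuous_fst.comp (continuous_snd.comp cp)
    have e3 : Continuous (fun z : PV T × unitInterval => z.1.1.1.2.2) :=
      continuous_snd.comp (continuous_snd.comp cp)
    refine Continuous.prodMk (Continuous.mul (by fun_prop) e1) (Continuous.prodMk
      (Continuous.mul (by fun_prop) e2) e3)
  let bf : ℂ → PV T := fun u => ⟨⟨(0, t0, u), by simp⟩, hc0⟩
  have cbf : Continuous bf := Continuous.subtype_mk (Continuous.subtype_mk (by fun_prop) _) _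
  let b0 : C(ℂ, PV T) := ⟨bf, cbf⟩
  let hh : C(PV T × unitInterval, PV T) := ⟨hf, hch⟩
  have h1 : ∀ p, g (hh (p, 1)) = g p := by
    intro p
    congr 1
    apply Subtype.ext
    apply Subtype.ext
    change ((((1 : unitInterval) : ℝ) : ℂ) * p.1.1.1, ((c 1 : ℝ) : ℂ) * p.1.1.2.1, p.1.1.2.2) = p.1.1
    rw [c1]
    simp
  have h0 : ∀ p, g (hh (p, 0)) = g (b0 p.1.1.2.2) := by
    intro p
    congr 1
    apply Subtype.ext
    apply Subtype.ext
    change ((((0 : unitInterval) : ℝ) : ℂ) * p.1.1.1, ((c 0 : ℝ) : ℂ) * p.1.1.2.1, p.1.1.2.2) =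
      (0, t0, p.1.1.2.2)
    rw [hc' _ p.2]
    simp
  refine ⟨isHE_gen hg (tck_oq 1 one_ne_zero) _ b0 ?_ ?_ hh ?_ h1 ?_,
    pconn_gen hg b0 hh h1 (fun p => ⟨_, h0 p⟩)⟩
  · intro u u' h
    rw [← tc_eq_tck, ← tc_eq_tck, tc_eq_iff] at h
    obtain ⟨m, n, h⟩ := h
    rw [hrel]
    refine ⟨rfl, m, n, h, ?_⟩
    change (0 : ℂ) = _ * 0
    rw [mul_zero]
  · intro u
    rw [← tc_eq_tck]
    change π (g _).1.1 = _
    rw [eg, hV]
    rfl
  · intro p p' h i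
    rw [hrel] at h ⊢
    obtain ⟨ht, m, n, hu, hz⟩ := h
    refine ⟨?_, m, n, hu, ?_⟩
    · change ((c i : ℝ) : ℂ) * p.1.1.2.1 = ((c i : ℝ) : ℂ) * p'.1.1.2.1
      rw [ht]
    · change ((i : ℝ) : ℂ) * p.1.1.1 = _ * (((i : ℝ) : ℂ) * p'.1.1.1)
      rw [hz]
      ring
  · intro p
    refine ⟨p.1.1.2.2, ?_, h0 p⟩
    rw [← tc_eq_tck]
    change π (g _).1.1 = _
    rw [eg, hV]

end HE

end Pool.Agent.TH179.BE
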