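import Pool.Agent.TH179.BE.Sheet

/-!
The fibres over the nonzero parameters, away from the section at infinity.
-/

set_option autoImplicit false

open Topology

namespace Pool.Agent.TH179.BE

section roots

/-- cube root -/
noncomputable def r3 (z : ℂ) : ℂ := z ^ ((3 : ℕ) : ℂ)⁻¹
/-- square root -/
noncomputable def r2 (z : ℂ) : ℂ := z ^ ((2 : ℕ) : ℂ)⁻¹

lemma r3_pow (z : ℂ) : r3 z ^ 3 = z := Complex.cpow_nat_inv_pow z (by norm_num)
lemma r2_pow (z : ℂ) : r2 z ^ 2 = z := Complex.cpow_nat_inv_pow z (by norm_num)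

lemma r3_ne {z : ℂ} (hz : z ≠ 0) : r3 z ≠ 0 := by
  intro h
  have := r3_pow z
  rw [h] at this
  apply hz
  rw [← this]
  norm_num

lemma r2_ne {z : ℂ} (hz : z ≠ 0) : r2 z ≠ 0 := by
  intro h
  have := r2_pow z
  rw [h] at this
  apply hz
  rw [← this]
  norm_num

lemma r3_one : r3 1 = 1 := Complex.one_cpow _
lemma r2_one : r2 1 = 1 := Complex.one_cpow _

lemma mul_lt_aux {c s b : ℝ} (hb : 0 < b) (hs : s < b) (h0 : 0 ≤ c) (h1 : c ≤ 1) : c * s < b := by
  rcases h0.eq_or_lt with rfl | h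
  · simpa using hb
  · calc c * s < c * b := mul_lt_mul_of_pos_left hs h
      _ ≤ 1 * b := mul_le_mul_of_nonneg_right h1 hb.le
      _ = b := one_mul b

lemma ne_of_re {z : ℂ} (hz : 0 < z.re) : z ≠ 0 := by
  rintro rfl
  simp at hz

lemma continuous_r3 {A : Type} [TopologicalSpace A] {f : A → ℂ} (hf : Continuous f)
    (h : ∀ a, 0 < (f a).re) : Continuous (fun a => r3 (f a)) :=
  hf.cpow continuous_const (fun a => Or.inl (h a))

lemma continuous_r2 {A : Type} [TopologicalSpace A] {f : A → ℂ} (hf : Continuous f)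
    (h : ∀ a, 0 < (f a).re) : Continuous (fun a => r2 (f a)) :=
  hf.cpow continuous_const (fun a => Or.inl (h a))

end roots

/-- the invariant function `y² / t` -/
noncomputable def sg (t : ℂ) (p : ℂ × ℂ × ℂ) : ℂ := p.2.1 ^ 2 / t

/-- part of the level set -/
def DD (t : ℂ) (S : Set ℂ) : Set (ℂ × ℂ × ℂ) := {p | p.2.1 ^ 2 - p.1 ^ 3 = t ∧ sg t p ∈ S}

/-- first half -/
def SA : Set ℂ := {z | z.re < 2 / 3}
/-- second half -/
def SB : Set ℂ := {z | 1 / 3 < z.re}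

lemma isOpen_SA : IsOpen SA := isOpen_lt Complex.continuous_re continuous_const
lemma isOpen_SB : IsOpen SB := isOpen_lt continuous_const Complex.continuous_re

section alg

variable {t : ℂ} (ht : t ≠ 0)
include ht

lemma y_sq {S : Set ℂ} (w : DD t S) : w.1.2.1 ^ 2 = t * sg t w.1 := by
  rw [sg, mul_div_cancel₀ _ ht]

lemma x_cu {S : Set ℂ} (w : DD t S) : w.1.1 ^ 3 = -t * (1 - sg t w.1) := by
  have h := w.2.1
  have h2 := y_sq ht w
  linear_combination -h + h2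

omit ht in
lemma zpow_cu (m : ℤ) : (zet ^ (2 * m) : ℂ) ^ 3 = 1 := by
  rw [← zpow_natCast, ← zpow_mul]
  have : (2 * m * ((3 : ℕ) : ℤ)) = 6 * m := by push_cast; ring
  rw [this, zet_zpow_six]

omit ht in
lemma zpow_sq (m : ℤ) : (zet ^ (3 * m) : ℂ) ^ 2 = 1 := by
  rw [← zpow_natCast, ← zpow_mul]
  have : (3 * m * ((2 : ℕ) : ℤ)) = 6 * m := by push_cast; ring
  rw [this, zet_zpow_six]

omit ht in
lemma sg_eq (p p' : ℂ × ℂ × ℂ) (m : ℤ) (h : p.2.1 = zet ^ (3 * m) * p'.2.1) :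
    sg t p = sg t p' := by
  rw [sg, sg, h, mul_pow, zpow_sq, one_mul]

omit ht in
lemma cu_root (z : ℂ) (hz : z ^ 3 = 1) : ∃ j : ℤ, z = zet ^ (2 * j) := by
  obtain ⟨j, hj⟩ := exists_zpow_of_pow_six (z ^ 2) (by
    calc (z ^ 2) ^ 6 = (z ^ 3) ^ 4 := by ring
      _ = 1 := by rw [hz, one_pow])
  refine ⟨j, ?_⟩
  have h1 : z = (z ^ 2) ^ 2 := by
    calc z = z ^ 3 * z := by rw [hz, one_mul]
      _ = (z ^ 2) ^ 2 := by ring
  rw [h1, hj, mul_comm 2 j, zpow_mul]
  rfl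

omit ht in
lemma sq_root (z : ℂ) (hz : z ^ 2 = 1) : ∃ j : ℤ, z = zet ^ (3 * j) := by
  obtain ⟨j, hj⟩ := exists_zpow_of_pow_six z (by
    calc z ^ 6 = (z ^ 2) ^ 3 := by ring
      _ = 1 := by rw [hz, one_pow])
  refine ⟨j, ?_⟩
  have h1 : z = z ^ 3 := by
    calc z = z ^ 2 * z := by rw [hz, one_mul]
      _ = z ^ 3 := by ring
  rw [h1, hj, mul_comm 3 j, zpow_mul]
  rfl

end alg

section sheets

variable {t : ℂ} (ht : t ≠ 0) {N : Type} [TopologicalSpace N]
include ht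

lemma continuous_sg {S : Set ℂ} : Continuous (fun w : DD t S => sg t w.1) := by
  unfold sg
  exact Continuous.div (by fun_prop) continuous_const (fun _ => ht)

/-- the phase of `x` -/
noncomputable def thA (t c2 : ℂ) (p : ℂ × ℂ × ℂ) : ℂ := p.1 / (c2 * r3 (1 - sg t p))

/-- the phase of `y` -/
noncomputable def thB (t c3 : ℂ) (p : ℂ × ℂ × ℂ) : ℂ := p.2.1 / (c3 * r2 (sg t p))

lemma thA_cu {S : Set ℂ} (hS : ∀ z ∈ S, z ∈ SA) {c2 : ℂ} (hc2 : c2 ^ 3 = -t) (w : DD t S) :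
    thA t c2 w.1 ^ 3 = 1 := by
  have h1 : 0 < (1 - sg t w.1).re := by
    have := hS _ w.2.2
    have h2 : (sg t w.1).re < 2 / 3 := this
    simp only [Complex.sub_re, Complex.one_re]
    linarith
  rw [thA, div_pow, mul_pow, r3_pow, hc2, x_cu ht]
  exact div_self (mul_ne_zero (neg_ne_zero.2 ht) (ne_of_re h1))

lemma thB_sq {S : Set ℂ} (hS : ∀ z ∈ S, z ∈ SB) {c3 : ℂ} (hc3 : c3 ^ 2 = t) (w : DD t S) :
    thB t c3 w.1 ^ 2 = 1 := by
  have h1 : 0 < (sg t w.1).re := by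
    have := hS _ w.2.2
    have h2 : 1 / 3 < (sg t w.1).re := this
    linarith
  rw [thB, div_pow, mul_pow, r2_pow, hc3, y_sq ht]
  exact div_self (mul_ne_zero ht (ne_of_re h1))

omit ht in
lemma thA_eq (c2 : ℂ) (p p' : ℂ × ℂ × ℂ) (m : ℤ) (h1 : p.1 = zet ^ (2 * m) * p'.1)
    (h2 : p.2.1 = zet ^ (3 * m) * p'.2.1) : thA t c2 p = zet ^ (2 * m) * thA t c2 p' := by
  rw [thA, thA, sg_eq p p' m h2, h1, mul_div_assoc]

omit ht in
lemma thB_eq (c3 : ℂ) (p p' : ℂ × ℂ × ℂ) (m : ℤ)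
    (h2 : p.2.1 = zet ^ (3 * m) * p'.2.1) : thB t c3 p = zet ^ (3 * m) * thB t c3 p' := by
  rw [thB, thB, sg_eq p p' m h2, h2, mul_div_assoc]

lemma ne_zero_of_pow {c : ℂ} {n : ℕ} (hn : n ≠ 0) (h : c ^ n = t) : c ≠ 0 := by
  rintro rfl
  rw [zero_pow hn] at h
  exact ht h.symm

lemma sheetA {c2 : ℂ} (hc2 : c2 ^ 3 = -t) (g : ↥(DD t SA) → N) (hg : IsOpenQuotientMap g)
    (hrel : ∀ w w' : DD t SA, g w = g w' ↔ Rel w.1 w'.1) :
    ∃ α : C(N, Circle × Circle), (IsHE α ∧ PathConnectedSpace N) ∧ ∀ w : DD t SA,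
      ((α (g w)).1 : ℂ) = thA t c2 w.1 * (ce (w.1.2.2.re / (3 : ℕ)) : ℂ) ∧
      (α (g w)).2 = ce (w.1.2.2.im) := by
  have hc : c2 ≠ 0 := ne_zero_of_pow (neg_ne_zero.2 ht) three_ne_zero hc2
  have hre : ∀ w : DD t SA, 0 < (1 - sg t w.1).re := by
    intro w
    have h2 : (sg t w.1).re < 2 / 3 := w.2.2
    simp only [Complex.sub_re, Complex.one_re]
    linarith
  have hre' : ∀ (w : DD t SA) (i : unitInterval),
      0 < (1 - ((i : ℝ) : ℂ) ^ 2 * sg t w.1).re := by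
    intro w i
    have h2 : (sg t w.1).re < 2 / 3 := w.2.2
    have e : (1 - ((i : ℝ) : ℂ) ^ 2 * sg t w.1).re = 1 - (i : ℝ) ^ 2 * (sg t w.1).re := by
      rw [← Complex.ofReal_pow, Complex.sub_re, Complex.one_re, Complex.re_ofReal_mul]
    rw [e]
    have h3 : (i : ℝ) ^ 2 ≤ 1 := pow_le_one₀ i.2.1 i.2.2
    have h4 : 0 ≤ (i : ℝ) ^ 2 := sq_nonneg _
    nlinarith
  have cs := continuous_sg ht (S := SA)
  refine sheet (DD t SA) g hg hrel 3 2 rfl c2 0 ?_ (mul_zero _) ?_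
    (fun z => z.1.1.1 * r3 (1 - ((z.2 : ℝ) : ℂ) ^ 2 * sg t z.1.1) / r3 (1 - sg t z.1.1))
    (fun z => ((z.2 : ℝ) : ℂ) * z.1.1.2.1) ?_ (by fun_prop) ?_ ?_ ?_ ?_
    (fun w => thA t c2 w.1) ?_ ?_ ?_ ?_
  · have : (zet ^ (2 * (3 : ℕ) : ℤ) : ℂ) = 1 := by
      have := zet_zpow_six 1
      simpa using this
    rw [this, one_mul]
  · intro u
    refine ⟨?_, ?_⟩
    · change (0 : ℂ) ^ 2 - c2 ^ 3 = t
      rw [hc2]
      ring
    · change ((0 : ℂ) ^ 2 / t).re < 2 / 3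
      simp
  · refine Continuous.div ?_ ?_ ?_
    · refine Continuous.mul (by fun_prop) (continuous_r3 ?_ ?_)
      · have : Continuous (fun z : DD t SA × unitInterval => sg t z.1.1) := cs.comp continuous_fst
        fun_prop
      · intro z
        exact hre' z.1 z.2
    · refine continuous_r3 ?_ ?_
      · have : Continuous (fun z : DD t SA × unitInterval => sg t z.1.1) := cs.comp continuous_fst
        fun_prop
      · intro z
        exact hre z.1
    · intro z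
      exact r3_ne (ne_of_re (hre z.1))
  · intro w i
    refine ⟨?_, ?_⟩
    · change (((i : ℝ) : ℂ) * w.1.2.1) ^ 2 -
        (w.1.1 * r3 (1 - ((i : ℝ) : ℂ) ^ 2 * sg t w.1) / r3 (1 - sg t w.1)) ^ 3 = t
      rw [div_pow, mul_pow, mul_pow, r3_pow, r3_pow, x_cu ht, y_sq ht]
      have := ne_of_re (hre w)
      field_simp
      ring
    · change ((((i : ℝ) : ℂ) * w.1.2.1) ^ 2 / t).re < 2 / 3
      rw [mul_pow, mul_div_assoc]
      change (((i : ℝ) : ℂ) ^ 2 * sg t w.1).re < 2 / 3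
      have h2 : (sg t w.1).re < 2 / 3 := w.2.2
      rw [← Complex.ofReal_pow, Complex.re_ofReal_mul]
      exact mul_lt_aux (by norm_num) h2 (sq_nonneg _) (pow_le_one₀ i.2.1 i.2.2)
  · intro w w' m hx hy i
    have e := sg_eq (t := t) w.1 w'.1 m hy
    dsimp only
    rw [e, hx, hy]
    constructor <;> ring
  · intro w
    dsimp only
    have : ((((1 : unitInterval) : ℝ) : ℂ)) = 1 := by simp
    rw [this, one_pow, one_mul, mul_div_assoc, div_self (r3_ne (ne_of_re (hre w))), mul_one]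
  · intro w
    dsimp only
    have : ((((1 : unitInterval) : ℝ) : ℂ)) = 1 := by simp
    rw [this, one_mul]
  · unfold thA
    refine Continuous.div (by fun_prop) (continuous_const.mul (continuous_r3 (by fun_prop) hre)) ?_
    intro w
    exact mul_ne_zero hc (r3_ne (ne_of_re (hre w)))
  · intro w w' m hx hy
    exact thA_eq c2 w.1 w'.1 m hx hy
  · intro u
    dsimp only
    have : sg t (c2, 0, u) = 0 := by rw [sg]; simp
    rw [thA, this, sub_zero, r3_one, mul_one]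
    exact div_self hc
  · intro w
    obtain ⟨j, hj⟩ := cu_root _ (thA_cu ht (fun _ h => h) hc2 w)
    refine ⟨j, hj, ?_, ?_⟩
    · dsimp only
      have : ((((0 : unitInterval) : ℝ) : ℂ)) = 0 := by simp
      rw [this]
      have e : (1 - (0 : ℂ) ^ 2 * sg t w.1) = 1 := by ring
      rw [e, r3_one, mul_one, ← hj, thA]
      have h3 := r3_ne (ne_of_re (hre w))
      field_simp
    · dsimp only
      have : ((((0 : unitInterval) : ℝ) : ℂ)) = 0 := by simp
      rw [this]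
      ring

lemma sheetB {c3 : ℂ} (hc3 : c3 ^ 2 = t) (g : ↥(DD t SB) → N) (hg : IsOpenQuotientMap g)
    (hrel : ∀ w w' : DD t SB, g w = g w' ↔ Rel w.1 w'.1) :
    ∃ α : C(N, Circle × Circle), (IsHE α ∧ PathConnectedSpace N) ∧ ∀ w : DD t SB,
      ((α (g w)).1 : ℂ) = thB t c3 w.1 * (ce (w.1.2.2.re / (2 : ℕ)) : ℂ) ∧
      (α (g w)).2 = ce (w.1.2.2.im) := by
  have hc : c3 ≠ 0 := ne_zero_of_pow ht two_ne_zero hc3
  have hre : ∀ w : DD t SB, 0 < (sg t w.1).re := by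
    intro w
    have h2 : 1 / 3 < (sg t w.1).re := w.2.2
    linarith
  have hre3 : ∀ (w : DD t SB) (i : unitInterval),
      1 / 3 < (1 - ((i : ℝ) : ℂ) ^ 3 * (1 - sg t w.1)).re := by
    intro w i
    have h2 : 1 / 3 < (sg t w.1).re := w.2.2
    have e : (1 - ((i : ℝ) : ℂ) ^ 3 * (1 - sg t w.1)).re =
        1 - (i : ℝ) ^ 3 * (1 - (sg t w.1).re) := by
      rw [← Complex.ofReal_pow, Complex.sub_re, Complex.one_re, Complex.re_ofReal_mul,
        Complex.sub_re, Complex.one_re]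
    rw [e]
    have h3 := mul_lt_aux (c := (i : ℝ) ^ 3) (s := 1 - (sg t w.1).re) (b := 2 / 3) (by norm_num)
      (by linarith) (pow_nonneg i.2.1 _) (pow_le_one₀ i.2.1 i.2.2)
    linarith
  have hre' : ∀ (w : DD t SB) (i : unitInterval),
      0 < (1 - ((i : ℝ) : ℂ) ^ 3 * (1 - sg t w.1)).re := by
    intro w i
    have := hre3 w i
    linarith
  have cs := continuous_sg ht (S := SB)
  refine sheet (DD t SB) g hg hrel 2 3 rfl 0 c3 (mul_zero _) ?_ ?_
    (fun z => ((z.2 : ℝ) : ℂ) * z.1.1.1)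
    (fun z => z.1.1.2.1 * r2 (1 - ((z.2 : ℝ) : ℂ) ^ 3 * (1 - sg t z.1.1)) / r2 (sg t z.1.1))
    (by fun_prop) ?_ ?_ ?_ ?_ ?_
    (fun w => thB t c3 w.1) ?_ ?_ ?_ ?_
  · have : (zet ^ (3 * (2 : ℕ) : ℤ) : ℂ) = 1 := by
      have := zet_zpow_six 1
      simpa using this
    rw [this, one_mul]
  · intro u
    refine ⟨?_, ?_⟩
    · change c3 ^ 2 - (0 : ℂ) ^ 3 = t
      rw [hc3]
      ring
    · change 1 / 3 < (c3 ^ 2 / t).re
      rw [hc3, div_self ht]
      norm_num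
  · refine Continuous.div ?_ ?_ ?_
    · refine Continuous.mul (by fun_prop) (continuous_r2 ?_ ?_)
      · have : Continuous (fun z : DD t SB × unitInterval => sg t z.1.1) := cs.comp continuous_fst
        fun_prop
      · intro z
        exact hre' z.1 z.2
    · refine continuous_r2 ?_ ?_
      · exact cs.comp continuous_fst
      · intro z
        exact hre z.1
    · intro z
      exact r2_ne (ne_of_re (hre z.1))
  · intro w i
    have key : (w.1.2.1 * r2 (1 - ((i : ℝ) : ℂ) ^ 3 * (1 - sg t w.1)) / r2 (sg t w.1)) ^ 2 =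
        t * (1 - ((i : ℝ) : ℂ) ^ 3 * (1 - sg t w.1)) := by
      rw [div_pow, mul_pow, r2_pow, r2_pow, y_sq ht]
      have := ne_of_re (hre w)
      field_simp
    refine ⟨?_, ?_⟩
    · change (w.1.2.1 * r2 (1 - ((i : ℝ) : ℂ) ^ 3 * (1 - sg t w.1)) / r2 (sg t w.1)) ^ 2 -
        (((i : ℝ) : ℂ) * w.1.1) ^ 3 = t
      rw [key, mul_pow, x_cu ht]
      ring
    · change 1 / 3 < ((w.1.2.1 * r2 (1 - ((i : ℝ) : ℂ) ^ 3 * (1 - sg t w.1)) /
        r2 (sg t w.1)) ^ 2 / t).re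
      rw [key, mul_div_cancel_left₀ _ ht]
      exact hre3 w i
  · intro w w' m hx hy i
    have e := sg_eq (t := t) w.1 w'.1 m hy
    dsimp only
    rw [e, hx, hy]
    constructor <;> ring
  · intro w
    dsimp only
    have : ((((1 : unitInterval) : ℝ) : ℂ)) = 1 := by simp
    rw [this, one_mul]
  · intro w
    dsimp only
    have : ((((1 : unitInterval) : ℝ) : ℂ)) = 1 := by simp
    rw [this, one_pow, one_mul, sub_sub_cancel, mul_div_assoc,
      div_self (r2_ne (ne_of_re (hre w))), mul_one]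
  · unfold thB
    refine Continuous.div (by fun_prop) (continuous_const.mul (continuous_r2 cs hre)) ?_
    intro w
    exact mul_ne_zero hc (r2_ne (ne_of_re (hre w)))
  · intro w w' m hx hy
    exact thB_eq c3 w.1 w'.1 m hy
  · intro u
    dsimp only
    have : sg t (0, c3, u) = 1 := by rw [sg, hc3, div_self ht]
    rw [thB, this, r2_one, mul_one]
    exact div_self hc
  · intro w
    obtain ⟨j, hj⟩ := sq_root _ (thB_sq ht (fun _ h => h) hc3 w)
    refine ⟨j, hj, ?_, ?_⟩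
    · dsimp only
      have : ((((0 : unitInterval) : ℝ) : ℂ)) = 0 := by simp
      rw [this]
      ring
    · dsimp only
      have : ((((0 : unitInterval) : ℝ) : ℂ)) = 0 := by simp
      rw [this]
      have e : (1 - (0 : ℂ) ^ 3 * (1 - sg t w.1)) = 1 := by ring
      rw [e, r2_one, mul_one, ← hj, thB]
      have h3 := r2_ne (ne_of_re (hre w))
      field_simp

end sheets

end Pool.Agent.TH179.BE
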