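import Pool.Agent.TH179.BE.Link

/-!
The fibres over the nonzero parameters, away from the section at infinity.
-/

set_option autoImplicit false

open Topology

namespace Pool.Agent.TH179.BE

section

variable {t : ℂ} (ht : t ≠ 0) {N : Type} [TopologicalSpace N]
include ht

lemma sheetC {c2 c3 : ℂ} (hc2 : c2 ^ 3 = -t) (hc3 : c3 ^ 2 = t) (g : ↥(DD t (SA ∩ SB)) → N)
    (hg : IsOpenQuotientMap g)
    (hrel : ∀ w w' : DD t (SA ∩ SB), g w = g w' ↔ Rel w.1 w'.1) :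
    ∃ α : C(N, Circle × Circle), (IsHE α ∧ PathConnectedSpace N) ∧ ∀ w : DD t (SA ∩ SB),
      ((α (g w)).1 : ℂ) = (thB t c3 w.1 / thA t c2 w.1) * (ce (w.1.2.2.re / (6 : ℕ)) : ℂ) ∧
      (α (g w)).2 = ce (w.1.2.2.im) := by
  have hcA : c2 ≠ 0 := ne_zero_of_pow (neg_ne_zero.2 ht) three_ne_zero hc2
  have hcB : c3 ≠ 0 := ne_zero_of_pow ht two_ne_zero hc3
  have hreA : ∀ w : DD t (SA ∩ SB), 0 < (1 - sg t w.1).re := by
    intro w
    have h2 : (sg t w.1).re < 2 / 3 := w.2.2.1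
    simp only [Complex.sub_re, Complex.one_re]
    linarith
  have hreB : ∀ w : DD t (SA ∩ SB), 0 < (sg t w.1).re := by
    intro w
    have h2 : 1 / 3 < (sg t w.1).re := w.2.2.2
    linarith
  let sl : ↥(DD t (SA ∩ SB)) × unitInterval → ℂ := fun z =>
    ((z.2 : ℝ) : ℂ) * sg t z.1.1 + (1 - ((z.2 : ℝ) : ℂ)) / 2
  have hsl : ∀ z, (sl z).re = (z.2 : ℝ) * (sg t z.1.1).re + (1 - (z.2 : ℝ)) / 2 := by
    intro z
    have : (1 - ((z.2 : ℝ) : ℂ)) / 2 = (((1 - (z.2 : ℝ)) / 2 : ℝ) : ℂ) := by push_cast; ring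
    change (((z.2 : ℝ) : ℂ) * sg t z.1.1 + (1 - ((z.2 : ℝ) : ℂ)) / 2).re = _
    rw [this, Complex.add_re, Complex.re_ofReal_mul, Complex.ofReal_re]
  have hslA : ∀ z, (sl z).re < 2 / 3 := by
    intro z
    rw [hsl]
    have h2 : (sg t z.1.1).re < 2 / 3 := z.1.2.2.1
    have h3 := mul_lt_aux (c := (z.2 : ℝ)) (s := (sg t z.1.1).re - 1 / 2) (b := 1 / 6)
      (by norm_num) (by linarith) z.2.2.1 z.2.2.2
    linarith
  have hslB : ∀ z, 1 / 3 < (sl z).re := by
    intro z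
    rw [hsl]
    have h2 : 1 / 3 < (sg t z.1.1).re := z.1.2.2.2
    have h3 := mul_lt_aux (c := (z.2 : ℝ)) (s := 1 / 2 - (sg t z.1.1).re) (b := 1 / 6)
      (by norm_num) (by linarith) z.2.2.1 z.2.2.2
    linarith
  have cs := continuous_sg ht (S := SA ∩ SB)
  have cs' : Continuous (fun z : DD t (SA ∩ SB) × unitInterval => sg t z.1.1) :=
    cs.comp continuous_fst
  have csl : Continuous sl := by
    change Continuous (fun z : DD t (SA ∩ SB) × unitInterval =>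
      ((z.2 : ℝ) : ℂ) * sg t z.1.1 + (1 - ((z.2 : ℝ) : ℂ)) / 2)
    fun_prop
  have hslA' : ∀ z, 0 < (1 - sl z).re := by
    intro z
    have := hslA z
    simp only [Complex.sub_re, Complex.one_re]
    linarith
  have hslB' : ∀ z, 0 < (sl z).re := by
    intro z
    have := hslB z
    linarith
  have hsl1 : ∀ w, sl (w, 1) = sg t w.1 := by
    intro w
    change (((1 : unitInterval) : ℝ) : ℂ) * sg t w.1 + (1 - (((1 : unitInterval) : ℝ) : ℂ)) / 2 = _
    simp
  have hsl0 : ∀ w, sl (w, 0) = 1 / 2 := by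
    intro w
    change (((0 : unitInterval) : ℝ) : ℂ) * sg t w.1 + (1 - (((0 : unitInterval) : ℝ) : ℂ)) / 2 = _
    simp
  have hh : (1 - (1 / 2 : ℂ)) = 1 / 2 := by norm_num
  have hre2 : 0 < (1 / 2 : ℂ).re := by norm_num
  have sbase : ∀ u, sg t (c2 * r3 (1 / 2), c3 * r2 (1 / 2), u) = 1 / 2 := by
    intro u
    rw [sg]
    change (c3 * r2 (1 / 2)) ^ 2 / t = 1 / 2
    rw [mul_pow, r2_pow, hc3, mul_div_cancel_left₀ _ ht]
  have cA : Continuous (fun w : DD t (SA ∩ SB) => thA t c2 w.1) := by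
    unfold thA
    refine Continuous.div (by fun_prop) (continuous_const.mul (continuous_r3 (by fun_prop) hreA)) ?_
    intro w
    exact mul_ne_zero hcA (r3_ne (ne_of_re (hreA w)))
  have cB : Continuous (fun w : DD t (SA ∩ SB) => thB t c3 w.1) := by
    unfold thB
    refine Continuous.div (by fun_prop) (continuous_const.mul (continuous_r2 cs hreB)) ?_
    intro w
    exact mul_ne_zero hcB (r2_ne (ne_of_re (hreB w)))
  have nA : ∀ w : DD t (SA ∩ SB), thA t c2 w.1 ≠ 0 := by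
    intro w h
    have := thA_cu ht (fun _ h => h.1) hc2 w
    rw [h] at this
    norm_num at this
  have nz : ∀ m : ℤ, (zet ^ m : ℂ) ≠ 0 := fun m => zpow_ne_zero _ zet_ne
  refine sheet (DD t (SA ∩ SB)) g hg hrel 6 1 rfl (c2 * r3 (1 / 2)) (c3 * r2 (1 / 2)) ?_ ?_ ?_
    (fun z => z.1.1.1 * r3 (1 - sl z) / r3 (1 - sg t z.1.1))
    (fun z => z.1.1.2.1 * r2 (sl z) / r2 (sg t z.1.1)) ?_ ?_ ?_ ?_ ?_ ?_
    (fun w => thB t c3 w.1 / thA t c2 w.1) (cB.div cA nA) ?_ ?_ ?_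
  · have : (zet ^ (2 * (6 : ℕ) : ℤ) : ℂ) = 1 := by
      have := zet_zpow_six 2
      simpa using this
    rw [this, one_mul]
  · have : (zet ^ (3 * (6 : ℕ) : ℤ) : ℂ) = 1 := by
      have := zet_zpow_six 3
      simpa using this
    rw [this, one_mul]
  · intro u
    refine ⟨?_, ?_⟩
    · change (c3 * r2 (1 / 2)) ^ 2 - (c2 * r3 (1 / 2)) ^ 3 = t
      rw [mul_pow, mul_pow, r2_pow, r3_pow, hc3, hc2]
      ring
    · rw [sbase]
      constructor
      · change (1 / 2 : ℂ).re < 2 / 3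
        norm_num
      · change 1 / 3 < (1 / 2 : ℂ).re
        norm_num
  · refine Continuous.div ?_ ?_ ?_
    · refine Continuous.mul (by fun_prop) (continuous_r3 ?_ ?_)
      · fun_prop
      · intro z
        exact hslA' z
    · refine continuous_r3 ?_ ?_
      · fun_prop
      · intro z
        exact hreA z.1
    · intro z
      exact r3_ne (ne_of_re (hreA z.1))
  · refine Continuous.div ?_ ?_ ?_
    · refine Continuous.mul (by fun_prop) (continuous_r2 ?_ ?_)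
      · fun_prop
      · intro z
        exact hslB' z
    · refine continuous_r2 ?_ ?_
      · fun_prop
      · intro z
        exact hreB z.1
    · intro z
      exact r2_ne (ne_of_re (hreB z.1))
  · intro w i
    have key1 : (w.1.2.1 * r2 (sl (w, i)) / r2 (sg t w.1)) ^ 2 = t * sl (w, i) := by
      rw [div_pow, mul_pow, r2_pow, r2_pow, y_sq ht]
      have := ne_of_re (hreB w)
      field_simp
    have key2 : (w.1.1 * r3 (1 - sl (w, i)) / r3 (1 - sg t w.1)) ^ 3 = -t * (1 - sl (w, i)) := by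
      rw [div_pow, mul_pow, r3_pow, r3_pow, x_cu ht]
      have := ne_of_re (hreA w)
      field_simp
    refine ⟨?_, ?_⟩
    · change (w.1.2.1 * r2 (sl (w, i)) / r2 (sg t w.1)) ^ 2 -
        (w.1.1 * r3 (1 - sl (w, i)) / r3 (1 - sg t w.1)) ^ 3 = t
      rw [key1, key2]
      ring
    · have : sg t (w.1.1 * r3 (1 - sl (w, i)) / r3 (1 - sg t w.1),
          w.1.2.1 * r2 (sl (w, i)) / r2 (sg t w.1), w.1.2.2) = sl (w, i) := by
        rw [sg]
        change (w.1.2.1 * r2 (sl (w, i)) / r2 (sg t w.1)) ^ 2 / t = _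
        rw [key1, mul_div_cancel_left₀ _ ht]
      dsimp only
      rw [this]
      exact ⟨hslA _, hslB _⟩
  · intro w w' m hx hy i
    have e := sg_eq (t := t) w.1 w'.1 m hy
    have e' : sl (w, i) = sl (w', i) := by
      change ((i : ℝ) : ℂ) * sg t w.1 + (1 - ((i : ℝ) : ℂ)) / 2 =
        ((i : ℝ) : ℂ) * sg t w'.1 + (1 - ((i : ℝ) : ℂ)) / 2
      rw [e]
    dsimp only
    rw [e, e', hx, hy]
    constructor <;> ring
  · intro w
    dsimp only
    rw [hsl1, mul_div_assoc, div_self (r3_ne (ne_of_re (hreA w))), mul_one]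
  · intro w
    dsimp only
    rw [hsl1, mul_div_assoc, div_self (r2_ne (ne_of_re (hreB w))), mul_one]
  · intro w w' m hx hy
    rw [thA_eq c2 w.1 w'.1 m hx hy, thB_eq c3 w.1 w'.1 m hy, mul_div_mul_comm]
    congr 1
    rw [← zpow_sub₀ zet_ne]
    congr 1
    push_cast
    ring
  · intro u
    dsimp only
    rw [thA, thB, sbase, hh]
    have h3 := r3_ne (ne_of_re hre2)
    have h2 := r2_ne (ne_of_re hre2)
    rw [div_self (mul_ne_zero hcA h3), div_self (mul_ne_zero hcB h2), div_one]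
  · intro w
    have hA := thA_cu ht (fun _ h => h.1) hc2 w
    have hB := thB_sq ht (fun _ h => h.2) hc3 w
    obtain ⟨j, hj⟩ := exists_zpow_of_pow_six (thB t c3 w.1 / thA t c2 w.1) (by
      rw [div_pow]
      have e1 : thB t c3 w.1 ^ 6 = 1 := by
        calc thB t c3 w.1 ^ 6 = (thB t c3 w.1 ^ 2) ^ 3 := by ring
          _ = 1 := by rw [hB, one_pow]
      have e2 : thA t c2 w.1 ^ 6 = 1 := by
        calc thA t c2 w.1 ^ 6 = (thA t c2 w.1 ^ 3) ^ 2 := by ring
          _ = 1 := by rw [hA, one_pow]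
      rw [e1, e2, div_one])
    have n := nA w
    have e2 : (zet ^ (2 * j) : ℂ) = thA t c2 w.1 := by
      rw [mul_comm, zpow_mul, ← hj, zpow_ofNat, div_pow, hB]
      field_simp
      exact hA.symm
    have e3 : (zet ^ (3 * j) : ℂ) = thB t c3 w.1 := by
      rw [mul_comm, zpow_mul, ← hj, zpow_ofNat, div_pow, hA, div_one, pow_succ, hB, one_mul]
    refine ⟨j, ?_, ?_, ?_⟩
    · rw [hj]
      congr 1
      push_cast
      ring
    · dsimp only
      rw [hsl0, hh, e2, thA]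
      have h3 := r3_ne (ne_of_re (hreA w))
      field_simp
    · dsimp only
      rw [hsl0, e3, thB]
      have h3 := r2_ne (ne_of_re (hreB w))
      field_simp

end

section final

variable {t : ℂ} (ht : t ≠ 0) {M : Type} [TopologicalSpace M]
include ht

theorem isHE_link (hT : TaskTref)
    (g : {p : ℂ × ℂ × ℂ // p.2.1 ^ 2 - p.1 ^ 3 = t} → M) (hg : IsOpenQuotientMap g)
    (hrel : ∀ p p', g p = g p' ↔ Rel p.1 p'.1) (π : C(M, Circle × Circle))
    (hπ : ∀ p, π (g p) = tc p.1.2.2) : IsHE π ∧ PathConnectedSpace M := by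
  obtain ⟨c2, hc2⟩ := IsAlgClosed.exists_pow_nat_eq (-t) (n := 3) (by norm_num)
  obtain ⟨c3, hc3⟩ := IsAlgClosed.exists_pow_nat_eq t (n := 2) (by norm_num)
  have csg : Continuous (fun p : {p : ℂ × ℂ × ℂ // p.2.1 ^ 2 - p.1 ^ 3 = t} => sg t p.1) := by
    unfold sg
    exact Continuous.div (by fun_prop) continuous_const (fun _ => ht)
  obtain ⟨σ, hσ⟩ := oq_desc' hg (fun p => sg t p.1) csg (by
    intro p p' h
    obtain ⟨m, n, -, -, hy⟩ := (hrel p p').1 h
    exact sg_eq _ _ m hy)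
  have hgS : ∀ S : Set ℂ, IsOpen S → ∃ gS : ↥(DD t S) → ↥(σ ⁻¹' S), IsOpenQuotientMap gS ∧
      ∀ w, (gS w : M) = g ⟨w.1, w.2.1⟩ := by
    intro S hS
    refine ⟨fun w => ⟨g ⟨w.1, w.2.1⟩, ?_⟩, ?_, fun w => rfl⟩
    · rw [Set.mem_preimage, hσ]
      exact w.2.2
    · refine isOpenQuotientMap_sub g hg.isOpenMap hg.continuous
        (fun w : ↥(DD t S) => (⟨w.1, w.2.1⟩ : {p : ℂ × ℂ × ℂ // p.2.1 ^ 2 - p.1 ^ 3 = t}))
        ?_ (Subtype.val : ↥(σ ⁻¹' S) → M) IsInducing.subtypeVal Subtype.val_injective _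
        (fun w => rfl) {p | sg t p.1 ∈ S} (hS.preimage csg) (fun w => w.2.2) ?_ ?_
      · exact (IsInducing.of_comp_iff IsInducing.subtypeVal).1 IsInducing.subtypeVal
      · intro p hp n _
        exact ⟨⟨p.1, p.2, hp⟩, rfl⟩
      · intro n
        obtain ⟨p, hp⟩ := hg.surjective n.1
        refine ⟨p, ?_, hp⟩
        have := n.2
        rw [← hp, Set.mem_preimage, hσ] at this
        exact this
  have hrelS : ∀ (S : Set ℂ) (gS : ↥(DD t S) → ↥(σ ⁻¹' S)),
      (∀ w, (gS w : M) = g ⟨w.1, w.2.1⟩) → ∀ w w', gS w = gS w' ↔ Rel w.1 w'.1 := by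
    intro S gS h w w'
    rw [Subtype.ext_iff, h, h, hrel]
  obtain ⟨gA, qA, eA⟩ := hgS SA isOpen_SA
  obtain ⟨gB, qB, eB⟩ := hgS SB isOpen_SB
  obtain ⟨gC, qC, eC⟩ := hgS (SA ∩ SB) (isOpen_SA.inter isOpen_SB)
  obtain ⟨α, ⟨hα, pA⟩, fα⟩ := sheetA ht hc2 gA qA (hrelS SA gA eA)
  obtain ⟨β, ⟨hβ, pB⟩, fβ⟩ := sheetB ht hc3 gB qB (hrelS SB gB eB)
  obtain ⟨γ, ⟨hγ, pC⟩, fγ⟩ := sheetC ht hc2 hc3 gC qC (hrelS _ gC eC)
  have hce : ∀ (a : ℝ) (k : ℕ), k ≠ 0 → (ce (a / k) : ℂ) ^ k = (ce a : ℂ) := by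
    intro a k hk
    rw [← Circle.coe_pow, ce_pow]
    congr 2
    have : (k : ℝ) ≠ 0 := Nat.cast_ne_zero.2 hk
    field_simp
  have hcov : ∀ x, x ∈ σ ⁻¹' SA ∨ x ∈ σ ⁻¹' SB := by
    intro x
    by_cases h : (σ x).re < 2 / 3
    · exact Or.inl h
    · right
      change 1 / 3 < (σ x).re
      linarith
  refine ⟨?_, ?_⟩
  swap
  · have iA := isPathConnected_iff_pathConnectedSpace.2 pA
    have iB := isPathConnected_iff_pathConnectedSpace.2 pB
    have hne : (σ ⁻¹' SA ∩ σ ⁻¹' SB).Nonempty := by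
      obtain ⟨n⟩ := (pC.nonempty : Nonempty ↥(σ ⁻¹' (SA ∩ SB)))
      exact ⟨n.1, n.2⟩
    have hun := iA.union iB hne
    have : σ ⁻¹' SA ∪ σ ⁻¹' SB = Set.univ := Set.eq_univ_of_forall hcov
    rw [this] at hun
    exact pathConnectedSpace_iff_univ.2 hun
  refine hT M Circle (σ ⁻¹' SA) (σ ⁻¹' SB) π α β γ (isOpen_SA.preimage σ.continuous)
    (isOpen_SB.preimage σ.continuous) hcov ?_ ?_ ?_ ?_ hα hβ hγ
  · intro a
    obtain ⟨w, rfl⟩ := qA.surjective a
    rw [eA, hπ]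
    obtain ⟨f1, f2⟩ := fα w
    apply Prod.ext
    · apply Circle.ext
      change (ce w.1.2.2.re : ℂ) = ((α (gA w)).1 : ℂ) ^ 3
      rw [f1, mul_pow, thA_cu ht (fun _ h => h) hc2 w, one_mul, hce _ 3 (by norm_num)]
    · exact f2.symm
  · intro b
    obtain ⟨w, rfl⟩ := qB.surjective b
    rw [eB, hπ]
    obtain ⟨f1, f2⟩ := fβ w
    apply Prod.ext
    · apply Circle.ext
      change (ce w.1.2.2.re : ℂ) = ((β (gB w)).1 : ℂ) ^ 2
      rw [f1, mul_pow, thB_sq ht (fun _ h => h) hc3 w, one_mul, hce _ 2 (by norm_num)]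
    · exact f2.symm
  · intro c
    obtain ⟨w, rfl⟩ := qC.surjective c
    have e : Helper534.LS.inl (σ ⁻¹' SA) (σ ⁻¹' SB) (gC w) = gA ⟨w.1, w.2.1, w.2.2.1⟩ := by
      apply Subtype.ext
      rw [eA]
      exact eC w
    rw [e]
    obtain ⟨f1, f2⟩ := fα ⟨w.1, w.2.1, w.2.2.1⟩
    obtain ⟨f3, f4⟩ := fγ w
    apply Prod.ext
    · apply Circle.ext
      change _ = ((γ (gC w)).1 : ℂ) ^ 2
      rw [f1, f3]
      have hA := thA_cu ht (fun _ h => h.1) hc2 w
      have hB := thB_sq ht (fun _ h => h.2) hc3 w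
      have nA : thA t c2 w.1 ≠ 0 := by
        intro h
        rw [h] at hA
        norm_num at hA
      have h6 : (ce (w.1.2.2.re / (6 : ℕ)) : ℂ) ^ 2 = (ce (w.1.2.2.re / (3 : ℕ)) : ℂ) := by
        rw [← Circle.coe_pow, ce_pow]
        congr 2
        push_cast
        ring
      rw [mul_pow, h6, div_pow, hB]
      congr 1
      dsimp only
      field_simp
      exact hA
    · exact f2.trans f4.symm
  · intro c
    obtain ⟨w, rfl⟩ := qC.surjective c
    have e : Helper534.LS.inr (σ ⁻¹' SA) (σ ⁻¹' SB) (gC w) = gB ⟨w.1, w.2.1, w.2.2.2⟩ := by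
      apply Subtype.ext
      rw [eB]
      exact eC w
    rw [e]
    obtain ⟨f1, f2⟩ := fβ ⟨w.1, w.2.1, w.2.2.2⟩
    obtain ⟨f3, f4⟩ := fγ w
    apply Prod.ext
    · apply Circle.ext
      change _ = ((γ (gC w)).1 : ℂ) ^ 3
      rw [f1, f3]
      have hA := thA_cu ht (fun _ h => h.1) hc2 w
      have hB := thB_sq ht (fun _ h => h.2) hc3 w
      have h6 : (ce (w.1.2.2.re / (6 : ℕ)) : ℂ) ^ 3 = (ce (w.1.2.2.re / (2 : ℕ)) : ℂ) := by
        rw [← Circle.coe_pow, ce_pow]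
        congr 2
        push_cast
        ring
      have hB3 : thB t c3 w.1 ^ 3 = thB t c3 w.1 := by rw [pow_succ, hB, one_mul]
      rw [mul_pow, h6, div_pow, hA, div_one, hB3]
    · exact f2.trans f4.symm

end final

end Pool.Agent.TH179.BE
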