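import Pool.Agent.TH179.BE.Base2

/-!
Sheets over a torus.
-/

set_option autoImplicit false

open Topology

namespace Pool.Agent.TH179.BE

/-- the relation generated by the two lattice translations -/
def Rel (p p' : ℂ × ℂ × ℂ) : Prop :=
  ∃ m n : ℤ, p'.2.2 = p.2.2 + m + n * Complex.I ∧ p.1 = zet ^ (2 * m) * p'.1 ∧
    p.2.1 = zet ^ (3 * m) * p'.2.1

lemma coe_zpow_zet (m : ℤ) : (zet ^ m : ℂ) = (ce (m / 6) : ℂ) := by
  rw [zet, coe_ce, ← Complex.exp_int_mul]
  congr 1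
  push_cast
  ring

lemma norm_zet_zpow (m : ℤ) : ‖(zet ^ m : ℂ)‖ = 1 := by
  rw [norm_zpow, norm_zet, one_zpow]

lemma exists_zpow_of_pow_six (z : ℂ) (hz : z ^ 6 = 1) : ∃ j : ℤ, z = zet ^ j := by
  have h := Complex.isPrimitiveRoot_exp 6 (by norm_num)
  obtain ⟨i, -, hi⟩ := h.eq_pow_of_pow_eq_one hz
  refine ⟨i, ?_⟩
  rw [← hi, zpow_natCast, zet]
  norm_num

section

variable {N : Type} [TopologicalSpace N]

lemma sheet (D : Set (ℂ × ℂ × ℂ)) (g : ↥D → N) (hg : IsOpenQuotientMap g)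
    (hrel : ∀ w w' : D, g w = g w' ↔ Rel w.1 w'.1) (k e : ℕ) (hke : k * e = 6) (x0 y0 : ℂ)
    (hx0 : zet ^ (2 * k : ℤ) * x0 = x0) (hy0 : zet ^ (3 * k : ℤ) * y0 = y0)
    (hmem0 : ∀ u, (x0, y0, u) ∈ D)
    (fx fy : ↥D × unitInterval → ℂ) (cx : Continuous fx) (cy : Continuous fy)
    (hmem : ∀ w i, (fx (w, i), fy (w, i), w.1.2.2) ∈ D)
    (heq : ∀ (w w' : D) (m : ℤ), w.1.1 = zet ^ (2 * m) * w'.1.1 →
      w.1.2.1 = zet ^ (3 * m) * w'.1.2.1 → ∀ i, fx (w, i) = zet ^ (2 * m) * fx (w', i) ∧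
      fy (w, i) = zet ^ (3 * m) * fy (w', i))
    (h1x : ∀ w, fx (w, 1) = w.1.1) (h1y : ∀ w, fy (w, 1) = w.1.2.1)
    (θ : ↥D → ℂ) (cθ : Continuous θ)
    (eθ : ∀ (w w' : D) (m : ℤ), w.1.1 = zet ^ (2 * m) * w'.1.1 →
      w.1.2.1 = zet ^ (3 * m) * w'.1.2.1 → θ w = zet ^ (e * m) * θ w')
    (θ0 : ∀ u, θ ⟨(x0, y0, u), hmem0 u⟩ = 1)
    (h0 : ∀ w, ∃ j : ℤ, θ w = zet ^ (e * j) ∧ fx (w, 0) = zet ^ (2 * j) * x0 ∧
      fy (w, 0) = zet ^ (3 * j) * y0) :
    ∃ α : C(N, Circle × Circle), (IsHE α ∧ PathConnectedSpace N) ∧ ∀ w : D,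
      ((α (g w)).1 : ℂ) = θ w * (ce (w.1.2.2.re / k) : ℂ) ∧ (α (g w)).2 = ce (w.1.2.2.im) := by
  have hk : k ≠ 0 := by rintro rfl; simp at hke
  have hk' : (k : ℝ) ≠ 0 := Nat.cast_ne_zero.2 hk
  have hke' : (k : ℝ) * e = 6 := by exact_mod_cast hke
  have hj : ∀ (a : ℝ) (j : ℤ), (ce ((a + j) / k) : ℂ) = zet ^ (e * j) * (ce (a / k) : ℂ) := by
    intro a j
    rw [coe_zpow_zet, ← Circle.coe_mul, ← ce_add]
    congr 2
    push_cast
    field_simp
    rw [← hke']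
    ring
  have hθ : ∀ w, ‖θ w‖ = 1 := by
    intro w
    obtain ⟨j, hj, -⟩ := h0 w
    rw [hj]
    exact norm_zet_zpow _
  let θ' : ↥D → Circle := fun w => ⟨θ w, mem_sphere_zero_iff_norm.2 (hθ w)⟩
  let F : ↥D → Circle × Circle := fun w =>
    (θ' w * ce (w.1.2.2.re / k), ce (w.1.2.2.im))
  have hF1 : ∀ w, ((F w).1 : ℂ) = θ w * (ce (w.1.2.2.re / k) : ℂ) := fun w => rfl
  have hF2 : ∀ w, (F w).2 = ce (w.1.2.2.im) := fun w => rfl
  have cF : Continuous F := by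
    have c1 : Continuous θ' := Continuous.subtype_mk cθ _
    have c2 : Continuous (fun w : ↥D => ce (w.1.2.2.re / k)) := by
      refine continuous_ce.comp ?_
      fun_prop
    have c3 : Continuous (fun w : ↥D => ce (w.1.2.2.im)) := by
      refine continuous_ce.comp ?_
      fun_prop
    exact (c1.mul c2).prodMk c3
  have hzz : ∀ j : ℤ, (zet ^ (j : ℤ) : ℂ) ≠ 0 := fun j => zpow_ne_zero _ zet_ne
  obtain ⟨α, hα⟩ := oq_desc' hg F cF (by
    intro w w' h
    obtain ⟨m, n, hu, hx, hy⟩ := (hrel w w').1 h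
    have hre : w'.1.2.2.re = w.1.2.2.re + m := by rw [hu]; simp
    have him : w'.1.2.2.im = w.1.2.2.im + n := by rw [hu]; simp
    have h2 := eθ w w' m hx hy
    apply Prod.ext
    · apply Circle.ext
      rw [hF1, hF1, hre, hj, h2]
      ring
    · rw [hF2, hF2, ce_eq_iff]
      exact ⟨n, him⟩)
  have hFb : ∀ w, α (g w) = F w := hα
  refine ⟨α, ?_, fun w => ⟨?_, ?_⟩⟩
  · let b0 : C(ℂ, ↥D) := ⟨fun u => ⟨(x0, y0, u), hmem0 u⟩, by fun_prop⟩
    let h : C(↥D × unitInterval, ↥D) :=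
      ⟨fun z => ⟨(fx z, fy z, z.1.1.2.2), hmem z.1 z.2⟩, by fun_prop⟩
    refine ⟨isHE_gen hg (tck_oq k hk) α b0 ?_ ?_ h ?_ ?_ ?_, pconn_gen hg b0 h ?_ ?_⟩
    · intro u u' huu
      obtain ⟨m, n, hmn⟩ := (tck_eq_iff k hk u u').1 huu
      rw [hrel]
      refine ⟨k * m, n, hmn, ?_, ?_⟩
      · change x0 = zet ^ (2 * (k * m) : ℤ) * x0
        have : (zet ^ (2 * (k * m) : ℤ) : ℂ) * x0 = x0 := by
          rw [← mul_assoc, zpow_mul]
          generalize zet ^ (2 * k : ℤ) = ω at hx0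
          by_cases hx : x0 = 0
          · rw [hx, mul_zero]
          · rw [mul_eq_right₀ hx] at hx0
            rw [hx0, one_zpow, one_mul]
        exact this.symm
      · change y0 = zet ^ (3 * (k * m) : ℤ) * y0
        have : (zet ^ (3 * (k * m) : ℤ) : ℂ) * y0 = y0 := by
          rw [← mul_assoc, zpow_mul]
          generalize zet ^ (3 * k : ℤ) = ω at hy0
          by_cases hx : y0 = 0
          · rw [hx, mul_zero]
          · rw [mul_eq_right₀ hx] at hy0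
            rw [hy0, one_zpow, one_mul]
        exact this.symm
    · intro u
      rw [hFb]
      apply Prod.ext
      · apply Circle.ext
        rw [hF1]
        change θ ⟨(x0, y0, u), hmem0 u⟩ * _ = _
        rw [θ0, one_mul]
        rfl
      · rfl
    · intro w w' hww i
      obtain ⟨m, n, hu, hx, hy⟩ := (hrel w w').1 hww
      rw [hrel]
      obtain ⟨e1, e2⟩ := heq w w' m hx hy i
      exact ⟨m, n, hu, e1, e2⟩
    · intro w
      congr 1
      apply Subtype.ext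
      apply Prod.ext
      · exact h1x w
      · apply Prod.ext
        · exact h1y w
        · rfl
    · intro w
      obtain ⟨j, hj1, hj2, hj3⟩ := h0 w
      refine ⟨w.1.2.2 + j, ?_, ?_⟩
      · rw [hFb]
        apply Prod.ext
        · apply Circle.ext
          rw [hF1, hj1]
          change _ = (ce ((w.1.2.2 + j).re / k) : ℂ)
          have : (w.1.2.2 + j).re = w.1.2.2.re + j := by simp
          rw [this, hj]
        · rw [hF2]
          change _ = ce ((w.1.2.2 + j).im)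
          congr 1
          simp
      · rw [hrel]
        refine ⟨j, 0, ?_, hj2, hj3⟩
        change w.1.2.2 + j = w.1.2.2 + j + _
        push_cast
        ring
    · intro w
      congr 1
      apply Subtype.ext
      apply Prod.ext
      · exact h1x w
      · apply Prod.ext
        · exact h1y w
        · rfl
    · intro w
      obtain ⟨j, hj1, hj2, hj3⟩ := h0 w
      refine ⟨w.1.2.2 + j, ?_⟩
      rw [hrel]
      refine ⟨j, 0, ?_, hj2, hj3⟩
      change w.1.2.2 + j = w.1.2.2 + j + _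
      push_cast
      ring
  · rw [hFb, hF1]
  · rw [hFb, hF2]

end

end Pool.Agent.TH179.BE
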