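import Pool.Agent.TH179.BE.Defs
import Pool.Agent.Helper534.LS.Defs

/-!
MP_ed9921_ag, Q1. Tasks.

The family: `C_t : y^2 w = x^3 + t w^3`, with the automorphism `T (x, y, w) = (ζ^2 x, ζ^3 y, w)` of
order six, `X_t = (C_t × ℂ) / (ℤ + ℤ i)`, where `(c, u + 1) ~ (T c, u)` and `(c, u + i) ~ (c, u)`.
-/

set_option autoImplicit false

open scoped LinearAlgebra.Projectivization

namespace Pool.Agent.TH179.BE

/-- the primitive sixth root of unity `exp (2 π i / 6)` -/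
noncomputable def zet : ℂ := Complex.exp (2 * Real.pi * Complex.I / 6)

/-- weights of `x, y, w` -/
def ew : Fin 3 → ℤ := ![2, 3, 0]

/-- Entire twisted sections without common zeros. -/
structure ThetaData where
  n : ℕ
  R : Fin 3 → ℂ → Fin n → ℂ
  g : ℂ → ℂ
  diff : ∀ k, Differentiable ℂ (R k)
  ne : ∀ k u, R k u ≠ 0
  g_ne : ∀ u, g u ≠ 0
  add_one : ∀ k u, R k (u + 1) = zet ^ (ew k) • R k u
  add_I : ∀ k u, R k (u + Complex.I) = g u • R k u

/-- TASK THETA. Hint: for `s : ℂ` the entire function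
`G s k u = exp (2 π i u e_k / 6) * θ (u + s + e_k i / 6) * θ (u - s)`, with
`θ u = jacobiTheta₂ u Complex.I` (in Mathlib: `jacobiTheta₂_add_left`, `jacobiTheta₂_add_left'`),
satisfies `G s k (u + 1) = ζ ^ e_k * G s k u` and `G s k (u + i) = exp (2 π - 4 π i u) * G s k u`
(for all `s` and `k` the same factor). `θ` is entire and not identically zero, so for every `u, k`
there is `s` with `G s k u ≠ 0`; by compactness of `[0,1]^2` finitely many `s` suffice. -/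
def TaskTheta : Prop := Nonempty ThetaData

/-- `f` induces isomorphisms in integral homology -/
def IsHE {X Y : Type} [TopologicalSpace X] [TopologicalSpace Y] (f : C(X, Y)) : Prop :=
  ∀ n, Function.Bijective (Helper534.LS.hmap f n)

/-- TASK MV: five lemma for Mayer-Vietoris. -/
def TaskMV : Prop := ∀ (X Y : Type) [TopologicalSpace X] [TopologicalSpace Y] (U V : Set X)
  (U' V' : Set Y) (f : C(X, Y)) (fU : C(U, U')) (fV : C(V, V')) (fI : C(↥(U ∩ V), ↥(U' ∩ V'))),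
  IsOpen U → IsOpen V → (∀ x, x ∈ U ∨ x ∈ V) → IsOpen U' → IsOpen V' → (∀ y, y ∈ U' ∨ y ∈ V') →
  (∀ x, (fU x : Y) = f x) → (∀ x, (fV x : Y) = f x) → (∀ x, (fI x : Y) = f x) →
  IsHE fU → IsHE fV → IsHE fI → IsHE f

/-- `(z, q) ↦ (z ^ m, q)` -/
noncomputable def pw (m : ℕ) (Q : Type) [TopologicalSpace Q] : C(Circle × Q, Circle × Q) :=
  ⟨fun p => (p.1 ^ m, p.2), by fun_prop⟩

/-- TASK TREF: a space glued from circles along maps of degrees two and three. -/
def TaskTref : Prop := ∀ (M Q : Type) [TopologicalSpace M] [TopologicalSpace Q] (A B : Set M)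
  (q : C(M, Circle × Q)) (α : C(A, Circle × Q)) (β : C(B, Circle × Q))
  (γ : C(↥(A ∩ B), Circle × Q)), IsOpen A → IsOpen B → (∀ x, x ∈ A ∨ x ∈ B) →
  (∀ a : A, q a = pw 3 Q (α a)) → (∀ b : B, q b = pw 2 Q (β b)) →
  (∀ c : ↥(A ∩ B), α (Helper534.LS.inl A B c) = pw 2 Q (γ c)) →
  (∀ c : ↥(A ∩ B), β (Helper534.LS.inr A B c) = pw 3 Q (γ c)) →
  IsHE α → IsHE β → IsHE γ → IsHE q

/-- parameters near the section at infinity -/
def Om : Type := {p : ℂ × ℂ × ℂ // 0 < (1 + p.2.1 * p.1 ^ 6).re}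

instance : TopologicalSpace Om := inferInstanceAs (TopologicalSpace {p : ℂ × ℂ × ℂ //
  0 < (1 + p.2.1 * p.1 ^ 6).re})

/-- the square root `s = √(1 + t z^6)` -/
noncomputable def sq (t z : ℂ) : ℂ := (1 + t * z ^ 6) ^ (1 / 2 : ℂ)

/-- The topological model: `X` is covered by the images of two open maps, `fU (x, y, u)` (the point
`(x, y)` of the affine part of `C_t`, `t = y^2 - x^3`) and `fV (z, t, u)` (the point `[z : s : z^3]`
of `C_t`, `s = √(1 + t z^6)`). -/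
structure Model (X : Type) [TopologicalSpace X] where
  f : X → ℂ
  fU : ℂ × ℂ × ℂ → X
  fV : Om → X
  cont_f : Continuous f
  cont_U : Continuous fU
  cont_V : Continuous fV
  open_U : IsOpenMap fU
  open_V : IsOpenMap fV
  cover : ∀ x : X, (∃ p, fU p = x) ∨ ∃ p, fV p = x
  f_U : ∀ x y u, f (fU (x, y, u)) = y ^ 2 - x ^ 3
  f_V : ∀ p : Om, f (fV p) = p.1.2.1
  eq_U : ∀ x y u x' y' u', fU (x, y, u) = fU (x', y', u') ↔
    ∃ m n : ℤ, u' = u + m + n * Complex.I ∧ x = zet ^ (2 * m) * x' ∧ y = zet ^ (3 * m) * y'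
  eq_V : ∀ p p' : Om, fV p = fV p' ↔ p.1.2.1 = p'.1.2.1 ∧
    ∃ m n : ℤ, p'.1.2.2 = p.1.2.2 + m + n * Complex.I ∧ p.1.1 = zet ^ (-m) * p'.1.1
  trans : ∀ p : Om, p.1.1 ≠ 0 →
    fV p = fU (p.1.1⁻¹ ^ 2, sq p.1.2.1 p.1.1 * p.1.1⁻¹ ^ 3, p.1.2.2)
  disj : ∀ p : Om, p.1.1 = 0 → ∀ q, fU q ≠ fV p

/-- TASK HOM: the homology of the fibres. -/
def TaskHom : Prop := ∀ (X : Type) [TopologicalSpace X] (M : Model X),
  IsZHomologyFiberBundle M.f

end Pool.Agent.TH179.BE
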